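import Mathlib
import Pool.Agent.H379R3.Reg

set_option autoImplicit false

open IsLocalRing

namespace Pool.Agent.W417.FPR

universe u

/-- `z` is a regular system of parameters of the local ring `B`. -/
structure RSP {ι : Type} [Fintype ι] (B : Type u) [CommRing B] [IsLocalRing B] (z : ι → B) : Prop where
  span : Ideal.span (Set.range z) = maximalIdeal B
  card : (Fintype.card ι : WithBot ℕ∞) ≤ ringKrullDim B

section

variable {ι : Type} [Fintype ι] [DecidableEq ι] {B : Type u} [CommRing B] [IsLocalRing B]
  [IsNoetherianRing B] {z : ι → B}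

omit [DecidableEq ι] [IsNoetherianRing B] in
lemma RSP.mem (h : RSP B z) (i : ι) : z i ∈ maximalIdeal B := by
  rw [← h.span]; exact Ideal.subset_span ⟨i, rfl⟩

omit [DecidableEq ι] [IsNoetherianRing B] in
lemma RSP.span_le (h : RSP B z) (S : Finset ι) : Ideal.span (z '' S) ≤ maximalIdeal B := by
  rw [Ideal.span_le]
  rintro _ ⟨i, _, rfl⟩
  exact h.mem i

/-- quotient by part of a regular system of parameters -/
lemma RSP.quot (h : RSP B z) (S : Finset ι) : ∃ _ : IsLocalRing (B ⧸ Ideal.span (z '' S)),
    IsRegularLocalRing (B ⧸ Ideal.span (z '' S)) ∧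
      ringKrullDim (B ⧸ Ideal.span (z '' S)) = ((Sᶜ.card : ℕ) : WithBot ℕ∞) := by
  classical
  have hne : Ideal.span (z '' S) ≠ ⊤ := by
    intro h0
    have := h.span_le S
    rw [h0] at this
    exact (maximalIdeal.isMaximal B).ne_top (top_le_iff.1 this)
  have hnt : Nontrivial (B ⧸ Ideal.span (z '' S)) := Ideal.Quotient.nontrivial_iff.2 hne
  have hloc : IsLocalRing (B ⧸ Ideal.span (z '' S)) :=
    IsLocalRing.of_surjective' (Ideal.Quotient.mk _) Ideal.Quotient.mk_surjective
  refine ⟨hloc, ?_⟩
  have hmax : maximalIdeal (B ⧸ Ideal.span (z '' S)) =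
      Ideal.span ((fun i => Ideal.Quotient.mk (Ideal.span (z '' S)) (z i)) '' (Sᶜ : Finset ι)) := by
    rw [← Pool.Agent.H379R3.map_mk_maximalIdeal, ← h.span, Ideal.map_span]
    apply le_antisymm
    · rw [Ideal.span_le]
      rintro _ ⟨_, ⟨i, rfl⟩, rfl⟩
      by_cases hi : i ∈ S
      · have : Ideal.Quotient.mk (Ideal.span (z '' S)) (z i) = 0 :=
          Ideal.Quotient.eq_zero_iff_mem.2 (Ideal.subset_span ⟨i, hi, rfl⟩)
        rw [this]
        exact Ideal.zero_mem _
      · exact Ideal.subset_span ⟨i, by simpa using hi, rfl⟩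
    · apply Ideal.span_mono
      rintro _ ⟨i, _, rfl⟩
      exact ⟨z i, ⟨i, rfl⟩, rfl⟩
  have hrank : (maximalIdeal (B ⧸ Ideal.span (z '' S))).spanFinrank ≤ Sᶜ.card := by
    rw [hmax]
    refine (Submodule.spanFinrank_span_le_ncard_of_finite (Set.toFinite _)).trans ?_
    refine (Set.ncard_image_le (Set.toFinite _)).trans ?_
    rw [Set.ncard_coe_finset]
  have hdim : ((Sᶜ.card : ℕ) : WithBot ℕ∞) ≤ ringKrullDim (B ⧸ Ideal.span (z '' S)) := by
    have h1 := ringKrullDim_le_ringKrullDim_quotient_add_card (R := B) (S.image z) (by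
      intro x hx
      rw [Finset.coe_image] at hx
      obtain ⟨i, _, rfl⟩ := hx
      rw [SetLike.mem_coe, IsLocalRing.ringJacobson_eq_maximalIdeal]
      exact h.mem i)
    rw [Finset.coe_image] at h1
    have h2 := h.card.trans h1
    have h3 : Fintype.card ι = Sᶜ.card + S.card := by
      rw [add_comm, Finset.card_add_card_compl]
    have h4 : (((Sᶜ.card : ℕ) : WithBot ℕ∞) + (S.card : ℕ)) ≤
        ringKrullDim (B ⧸ Ideal.span (z '' S)) + (S.card : ℕ) := by
      calc (((Sᶜ.card : ℕ) : WithBot ℕ∞) + (S.card : ℕ)) = ((Fintype.card ι : ℕ) : WithBot ℕ∞) := by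
            rw [h3]; push_cast; rfl
        _ ≤ _ := h2
        _ ≤ _ := by
            gcongr
            exact_mod_cast Finset.card_image_le
    exact (ENat.WithBot.add_le_add_natCast_right_iff).1 h4
  have hreg : IsRegularLocalRing (B ⧸ Ideal.span (z '' S)) := by
    apply IsRegularLocalRing.of_spanFinrank_maximalIdeal_le
    exact le_trans (by exact_mod_cast hrank) hdim
  refine ⟨hreg, le_antisymm ?_ hdim⟩
  rw [← (isRegularLocalRing_iff _).1 hreg]
  exact_mod_cast hrank

lemma RSP.isPrime (h : RSP B z) (S : Finset ι) : (Ideal.span (z '' S)).IsPrime := by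
  obtain ⟨_, h1, _⟩ := h.quot S
  have := Pool.Agent.H379R3.isDomain (B ⧸ Ideal.span (z '' S))
  exact (Ideal.Quotient.isDomain_iff_prime _).1 this

lemma RSP.notMem (h : RSP B z) (S : Finset ι) (i : ι) (hi : i ∉ S) : z i ∉ Ideal.span (z '' S) := by
  intro hmem
  have h1 : Ideal.span (z '' (insert i S : Finset ι)) = Ideal.span (z '' S) := by
    apply le_antisymm
    · rw [Ideal.span_le]
      rintro _ ⟨j, hj, rfl⟩
      rw [Finset.coe_insert] at hj
      rcases hj with rfl | hj
      · exact hmem
      · exact Ideal.subset_span ⟨j, hj, rfl⟩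
    · apply Ideal.span_mono
      rw [Finset.coe_insert]
      exact Set.image_mono (Set.subset_insert _ _)
  obtain ⟨_, _, h2⟩ := h.quot S
  obtain ⟨_, _, h3⟩ := h.quot (insert i S)
  rw [h1, h2] at h3
  have h4 : Sᶜ.card = (insert i S)ᶜ.card := by exact_mod_cast h3
  have h5 : (insert i S)ᶜ ⊂ Sᶜ := by
    rw [Finset.compl_ssubset_compl]
    exact Finset.ssubset_insert hi
  have := Finset.card_lt_card h5
  omega

/-- Elements of a regular system of parameters are nonzerodivisors modulo powers of others. -/
lemma RSP.nzd (h : RSP B z) : ∀ (t : ℕ) (S : Finset ι) (e : ι → ℕ) (i : ι) (g : B),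
    (∀ l ∈ S, 1 ≤ e l) → ∑ l ∈ S, (e l - 1) = t → i ∉ S →
    z i * g ∈ Ideal.span ((fun l => z l ^ e l) '' (S : Set ι)) →
    g ∈ Ideal.span ((fun l => z l ^ e l) '' (S : Set ι)) := by
  intro t
  induction t using Nat.strong_induction_on with
  | _ t ih =>
    intro S e i g he ht hi hg
    by_cases hall : ∀ l ∈ S, e l = 1
    · have h1 : (fun l => z l ^ e l) '' (S : Set ι) = z '' S := by
        apply Set.image_congr
        intro l hl
        simp only [hall l hl, pow_one]
      rw [h1] at hg ⊢
      have := h.isPrime S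
      exact (this.mem_or_mem hg).resolve_left (h.notMem S i hi)
    · push Not at hall
      obtain ⟨l0, hl0, hne⟩ := hall
      have hl0e : 2 ≤ e l0 := by
        have := he l0 hl0
        omega
      have hil : i ≠ l0 := fun h0 => hi (h0 ▸ hl0)
      set S' := S.erase l0 with hS'
      have hSS' : S = insert l0 S' := by rw [hS', Finset.insert_erase hl0]
      have hl0S' : l0 ∉ S' := by simp [hS']
      have hsum : ∑ l ∈ S, (e l - 1) = (e l0 - 1) + ∑ l ∈ S', (e l - 1) := by
        rw [hSS', Finset.sum_insert hl0S']
      have hspan : Ideal.span ((fun l => z l ^ e l) '' (S : Set ι)) =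
          Ideal.span {z l0 ^ e l0} ⊔ Ideal.span ((fun l => z l ^ e l) '' (S' : Set ι)) := by
        rw [← Ideal.span_union, hSS', Finset.coe_insert, Set.image_insert_eq, Set.insert_eq]
      rw [hspan] at hg ⊢
      obtain ⟨y, hy, w, hw, hyw⟩ := Submodule.mem_sup.1 hg
      obtain ⟨a, rfl⟩ := Ideal.mem_span_singleton'.1 hy
      -- `z l0 ^ e l0 * a ∈ (z i) + J'`
      set e' : ι → ℕ := fun l => if l = i then 1 else e l with he'
      have himg : Ideal.span ((fun l => z l ^ e' l) '' ((insert i S' : Finset ι) : Set ι)) =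
          Ideal.span {z i} ⊔ Ideal.span ((fun l => z l ^ e l) '' (S' : Set ι)) := by
        rw [← Ideal.span_union, Finset.coe_insert, Set.image_insert_eq, Set.insert_eq]
        congr 2
        · simp [he']
        · apply Set.image_congr
          intro l hl
          have : l ≠ i := by
            rintro rfl
            exact hi (Finset.mem_of_mem_erase hl)
          simp [he', this]
      have hiS' : i ∉ S' := fun h0 => hi (Finset.mem_of_mem_erase h0)
      have hstep : ∀ (j : ℕ) (b : B),
          z l0 ^ j * b ∈ Ideal.span ((fun l => z l ^ e' l) '' ((insert i S' : Finset ι) : Set ι)) →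
          b ∈ Ideal.span ((fun l => z l ^ e' l) '' ((insert i S' : Finset ι) : Set ι)) := by
        intro j
        induction j with
        | zero => intro b hb; simpa using hb
        | succ j ihj =>
          intro b hb
          rw [pow_succ, mul_assoc] at hb
          have h2 := ihj _ hb
          refine ih (∑ l ∈ insert i S', (e' l - 1)) ?_ (insert i S') e' l0 b ?_ rfl ?_ h2
          · rw [Finset.sum_insert hiS']
            have h3 : ∑ l ∈ S', (e' l - 1) = ∑ l ∈ S', (e l - 1) := by
              apply Finset.sum_congr rfl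
              intro l hl
              have : l ≠ i := by
                rintro rfl
                exact hiS' hl
              simp [he', this]
            rw [h3]
            have : e' i = 1 := by simp [he']
            rw [this]
            omega
          · intro l hl
            rcases Finset.mem_insert.1 hl with rfl | hl
            · simp [he']
            · by_cases h0 : l = i
              · simp [he', h0]
              · simp only [he', if_neg h0]
                exact he l (Finset.mem_of_mem_erase hl)
          · intro h0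
            rcases Finset.mem_insert.1 h0 with h0 | h0
            · exact hil h0.symm
            · exact hl0S' h0
      have ha : a ∈ Ideal.span {z i} ⊔ Ideal.span ((fun l => z l ^ e l) '' (S' : Set ι)) := by
        rw [← himg]
        apply hstep (e l0) a
        rw [himg]
        have : z l0 ^ e l0 * a = z i * g - w := by rw [← hyw]; ring
        rw [this]
        refine Ideal.sub_mem _ (Ideal.mem_sup_left ?_) (Ideal.mem_sup_right hw)
        exact Ideal.mul_mem_right _ _ (Ideal.mem_span_singleton_self _)
      obtain ⟨y2, hy2, w2, hw2, hyw2⟩ := Submodule.mem_sup.1 ha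
      obtain ⟨b, rfl⟩ := Ideal.mem_span_singleton'.1 hy2
      have h5 : z i * (g - b * z l0 ^ e l0) ∈ Ideal.span ((fun l => z l ^ e l) '' (S' : Set ι)) := by
        have : z i * (g - b * z l0 ^ e l0) = w + w2 * z l0 ^ e l0 := by
          rw [mul_sub, ← hyw, ← hyw2]; ring
        rw [this]
        exact Ideal.add_mem _ hw (Ideal.mul_mem_right _ _ hw2)
      have h6 : g - b * z l0 ^ e l0 ∈ Ideal.span ((fun l => z l ^ e l) '' (S' : Set ι)) := by
        refine ih (∑ l ∈ S', (e l - 1)) ?_ S' e i _ ?_ rfl hiS' h5
        · omega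
        · intro l hl
          exact he l (Finset.mem_of_mem_erase hl)
      have : g = b * z l0 ^ e l0 + (g - b * z l0 ^ e l0) := by ring
      rw [this]
      exact Ideal.add_mem _ (Ideal.mem_sup_left (Ideal.mul_mem_left _ _
        (Ideal.mem_span_singleton_self _))) (Ideal.mem_sup_right h6)

lemma RSP.nzd_pow (h : RSP B z) (S : Finset ι) (e : ι → ℕ) (he : ∀ l ∈ S, 1 ≤ e l) (i : ι)
    (hi : i ∉ S) (j : ℕ) (g : B)
    (hg : z i ^ j * g ∈ Ideal.span ((fun l => z l ^ e l) '' (S : Set ι))) :
    g ∈ Ideal.span ((fun l => z l ^ e l) '' (S : Set ι)) := by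
  induction j generalizing g with
  | zero => simpa using hg
  | succ j ih =>
    rw [pow_succ, mul_assoc] at hg
    exact h.nzd _ S e i g he rfl hi (ih _ hg)

end

end Pool.Agent.W417.FPR
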