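import Mathlib
import Pool.Agent.W417.FPR1

set_option autoImplicit false

open IsLocalRing TensorProduct

namespace Pool.Agent.W417.FPR

universe u v w

section Inj

variable {B : Type u} [CommRing B] {M : Type v} [AddCommGroup M] [Module B M]

/-- multiplication `I ⊗ M → M` -/
noncomputable def psi (I : Ideal B) (M : Type v) [AddCommGroup M] [Module B M] : I ⊗[B] M →ₗ[B] M :=
  TensorProduct.lift ((LinearMap.lsmul B M).comp I.subtype)

lemma psi_tmul (I : Ideal B) (a : I) (m : M) : psi I M (a ⊗ₜ m) = (a : B) • m := rfl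

lemma range_psi (I : Ideal B) : LinearMap.range (psi I M) = I • (⊤ : Submodule B M) := by
  apply le_antisymm
  · rintro _ ⟨u, rfl⟩
    induction u using TensorProduct.induction_on with
    | zero => rw [map_zero]; exact Submodule.zero_mem _
    | tmul a m => exact Submodule.smul_mem_smul a.2 trivial
    | add x y hx hy => rw [map_add]; exact Submodule.add_mem _ hx hy
  · rw [Submodule.smul_le]
    intro r hr m _
    exact ⟨(⟨r, hr⟩ : I) ⊗ₜ m, rfl⟩

lemma psi_injective {ι : Type} [DecidableEq ι] (z : ι → B)
    (H : ∀ (S : Finset ι) (i : ι), i ∉ S → ∀ m : M,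
      z i • m ∈ Ideal.span (z '' S) • (⊤ : Submodule B M) →
      m ∈ Ideal.span (z '' S) • (⊤ : Submodule B M)) (S : Finset ι) :
    ∀ u, psi (Ideal.span (z '' S)) M u = 0 → u = 0 := by
  induction S using Finset.induction_on with
  | empty =>
    intro u _
    have h0 : ∀ a : Ideal.span (z '' ((∅ : Finset ι) : Set ι)), a = 0 := by
      intro a
      apply Subtype.ext
      have := a.2
      simpa using this
    have h1 : ∀ u : (Ideal.span (z '' ((∅ : Finset ι) : Set ι))) ⊗[B] M, u = 0 := by
      intro u
      induction u using TensorProduct.induction_on with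
      | zero => rfl
      | tmul a m => rw [h0 a, TensorProduct.zero_tmul]
      | add x y hx hy => rw [hx, hy, add_zero]
    exact h1 u
  | insert i S hi ih =>
    set I := Ideal.span (z '' (S : Set ι)) with hI
    set I' := Ideal.span (z '' ((insert i S : Finset ι) : Set ι)) with hI'
    intro u hu
    have hle : I ≤ I' := by
      apply Ideal.span_mono
      rw [Finset.coe_insert]
      exact Set.image_mono (Set.subset_insert _ _)
    have hzi : z i ∈ I' := Ideal.subset_span ⟨i, by simp, rfl⟩
    let j : I →ₗ[B] I' := Submodule.inclusion hle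
    have hsum : I' = Ideal.span {z i} ⊔ I := by
      rw [hI, hI', ← Ideal.span_union, Finset.coe_insert, Set.image_insert_eq, Set.insert_eq]
    have hdec : ∀ u : I' ⊗[B] M, ∃ (u' : I ⊗[B] M) (m : M),
        u = LinearMap.rTensor M j u' + (⟨z i, hzi⟩ : I') ⊗ₜ[B] m := by
      intro u
      induction u using TensorProduct.induction_on with
      | zero => exact ⟨0, 0, by simp⟩
      | tmul a m =>
        obtain ⟨a, ha⟩ := a
        rw [hsum] at ha
        obtain ⟨y, hy, w, hw, rfl⟩ := Submodule.mem_sup.1 ha
        obtain ⟨r, rfl⟩ := Ideal.mem_span_singleton'.1 hy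
        refine ⟨(⟨w, hw⟩ : I) ⊗ₜ m, r • m, ?_⟩
        rw [LinearMap.rTensor_tmul, ← TensorProduct.smul_tmul, ← TensorProduct.add_tmul]
        congr 1
        apply Subtype.ext
        simp [j, add_comm]
      | add x y hx hy =>
        obtain ⟨u1, m1, h1⟩ := hx
        obtain ⟨u2, m2, h2⟩ := hy
        refine ⟨u1 + u2, m1 + m2, ?_⟩
        rw [h1, h2, map_add, TensorProduct.tmul_add]
        abel
    have hj : ∀ u' : I ⊗[B] M, psi I' M (LinearMap.rTensor M j u') = psi I M u' := by
      intro u'
      induction u' using TensorProduct.induction_on with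
      | zero => simp
      | tmul a m => rfl
      | add x y hx hy => rw [map_add, map_add, map_add, hx, hy]
    obtain ⟨u', m, hum⟩ := hdec u
    have hu2 : psi I' M u = 0 := hu
    rw [hum, map_add, hj, psi_tmul] at hu2
    have hm : z i • m ∈ I • (⊤ : Submodule B M) := by
      rw [← range_psi]
      refine ⟨-u', ?_⟩
      rw [map_neg]
      exact (eq_neg_of_add_eq_zero_right hu2).symm
    have hm' := H S i hi m hm
    rw [← hI, ← range_psi] at hm'
    obtain ⟨v, rfl⟩ := hm'
    have hv : ∀ v : I ⊗[B] M, (⟨z i, hzi⟩ : I') ⊗ₜ[B] (psi I M v) = LinearMap.rTensor M j (z i • v) := by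
      intro v
      induction v using TensorProduct.induction_on with
      | zero => simp
      | tmul a m =>
        rw [psi_tmul, ← TensorProduct.smul_tmul, TensorProduct.smul_tmul', LinearMap.rTensor_tmul]
        congr 1
        apply Subtype.ext
        simp [j, mul_comm]
      | add x y hx hy => rw [map_add, TensorProduct.tmul_add, hx, hy, smul_add, map_add]
    rw [hum, hv, ← map_add]
    have h0 : u' + z i • v = 0 := by
      apply ih
      rw [map_add, map_smul]
      exact hu2
    rw [h0, map_zero]

/-- Adding one element `b` with `m b ⊆ A` to the submodule `A` does not kill anything after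
tensoring with `M`, if `m ⊗ M → M` is injective. -/
lemma step (m : Ideal B) [hm : m.IsMaximal] (hinj : ∀ u, psi m M u = 0 → u = 0)
    {P : Type w} [AddCommGroup P] [Module B P] (A : Submodule B P) (b : P)
    (hb : ∀ r ∈ m, r • b ∈ A) (x : A ⊗[B] M)
    (hx : LinearMap.rTensor M (Submodule.inclusion (le_sup_left : A ≤ A ⊔ Submodule.span B {b})) x = 0) :
    x = 0 := by
  by_cases hbA : b ∈ A
  · have hle : A ⊔ Submodule.span B {b} ≤ A := by
      rw [sup_le_iff]
      exact ⟨le_rfl, (Submodule.span_singleton_le_iff_mem _ _).2 hbA⟩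
    have h1 := congrArg (LinearMap.rTensor M (Submodule.inclusion hle)) hx
    rw [map_zero, ← LinearMap.comp_apply, ← LinearMap.rTensor_comp] at h1
    have h2 : (Submodule.inclusion hle).comp
        (Submodule.inclusion (le_sup_left : A ≤ A ⊔ Submodule.span B {b})) = LinearMap.id := by
      ext a; rfl
    rw [h2, LinearMap.rTensor_id, LinearMap.id_apply] at h1
    exact h1
  · set A' := A ⊔ Submodule.span B {b} with hA'
    have hbA' : b ∈ A' := Submodule.mem_sup_right (Submodule.mem_span_singleton_self b)
    let g : A × B →ₗ[B] A' := (Submodule.inclusion (le_sup_left : A ≤ A')).coprod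
      (LinearMap.toSpanSingleton B A' ⟨b, hbA'⟩)
    let f : m →ₗ[B] A × B := LinearMap.prod
      { toFun := fun r => ⟨-((r : B) • b), A.neg_mem (hb r r.2)⟩
        map_add' := by
          intro r s
          apply Subtype.ext
          simp [add_smul]
          abel
        map_smul' := by
          intro r s
          apply Subtype.ext
          simp [mul_smul] }
      m.subtype
    have hgs : Function.Surjective g := by
      rintro ⟨y, hy⟩
      obtain ⟨a, ha, w, hw, rfl⟩ := Submodule.mem_sup.1 hy
      obtain ⟨r, rfl⟩ := Submodule.mem_span_singleton.1 hw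
      refine ⟨(⟨a, ha⟩, r), ?_⟩
      apply Subtype.ext
      simp [g]
    have hex : Function.Exact f g := by
      rintro ⟨a, r⟩
      constructor
      · intro h
        have h1 : (a : P) + r • b = 0 := by
          have := congrArg Subtype.val h
          simpa [g] using this
        have h2 : r • b ∈ A := by
          have : r • b = -(a : P) := (eq_neg_of_add_eq_zero_right h1)
          rw [this]
          exact A.neg_mem a.2
        have hrm : r ∈ m := by
          by_contra hr
          apply hbA
          obtain ⟨y, t, ht, hyt⟩ := hm.exists_inv hr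
          have h3 : b = y • (r • b) + t • b := by
            rw [smul_smul, ← add_smul, hyt, one_smul]
          rw [h3]
          exact A.add_mem (A.smul_mem _ h2) (hb t ht)
        refine ⟨⟨r, hrm⟩, ?_⟩
        apply Prod.ext
        · apply Subtype.ext
          simp [f]
          exact (eq_neg_of_add_eq_zero_left h1).symm
        · rfl
      · rintro ⟨r, hr⟩
        rw [← hr]
        apply Subtype.ext
        simp [g, f]
    have hexM := rTensor_exact M hex hgs
    have h4 : LinearMap.rTensor M g (LinearMap.rTensor M (LinearMap.inl B A B) x) = 0 := by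
      rw [← LinearMap.comp_apply, ← LinearMap.rTensor_comp]
      have : g.comp (LinearMap.inl B A B) = Submodule.inclusion (le_sup_left : A ≤ A') := by
        ext a; simp [g]
      rw [this]
      exact hx
    obtain ⟨v, hv⟩ := (hexM _).1 h4
    have h5 := congrArg (LinearMap.rTensor M (LinearMap.snd B A B)) hv
    rw [← LinearMap.comp_apply, ← LinearMap.rTensor_comp, ← LinearMap.comp_apply (LinearMap.rTensor M (LinearMap.snd B A B)),
      ← LinearMap.rTensor_comp] at h5
    have e1 : (LinearMap.snd B A B).comp f = m.subtype := by ext r; rfl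
    have e2 : (LinearMap.snd B A B).comp (LinearMap.inl B A B) = 0 := by ext r; rfl
    rw [e1, e2, LinearMap.rTensor_zero, LinearMap.zero_apply] at h5
    have h6 : v = 0 := by
      apply hinj
      have h7 := congrArg (TensorProduct.lid B M) h5
      rw [map_zero] at h7
      rw [← h7]
      clear h7 h5 hv
      induction v using TensorProduct.induction_on with
      | zero => simp
      | tmul a y => rfl
      | add y z hy hz => rw [map_add, map_add, map_add, hy, hz]
    rw [h6, map_zero] at hv
    have h8 := congrArg (LinearMap.rTensor M (LinearMap.fst B A B)) hv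
    rw [map_zero, ← LinearMap.comp_apply, ← LinearMap.rTensor_comp] at h8
    have e3 : (LinearMap.fst B A B).comp (LinearMap.inl B A B) = LinearMap.id := by ext r; rfl
    rw [e3, LinearMap.rTensor_id, LinearMap.id_apply] at h8
    exact h8.symm

lemma chain (m : Ideal B) [hm : m.IsMaximal] (hinj : ∀ u, psi m M u = 0 → u = 0)
    {P : Type w} [AddCommGroup P] [Module B P] [IsNoetherian B P] (N : ℕ)
    (hN : ∀ r ∈ m ^ N, ∀ y : P, r • y = 0) (A₀ : Submodule B P) (x : A₀ ⊗[B] M)
    (hx : LinearMap.rTensor M A₀.subtype x = 0) : x = 0 := by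
  classical
  let Q : Set (Submodule B P) := {A | ∃ h : A₀ ≤ A, ∀ x : A₀ ⊗[B] M,
    LinearMap.rTensor M (Submodule.inclusion h) x = 0 → x = 0}
  have hQ : Q.Nonempty := by
    refine ⟨A₀, le_rfl, fun x hx => ?_⟩
    have : Submodule.inclusion (le_rfl : A₀ ≤ A₀) = LinearMap.id := by ext a; rfl
    rw [this, LinearMap.rTensor_id, LinearMap.id_apply] at hx
    exact hx
  obtain ⟨A, ⟨hA₀, hA⟩, hmax⟩ := set_has_maximal_iff_noetherian.2 inferInstance Q hQ
  have htop : A = ⊤ := by
    by_contra hne
    obtain ⟨b₀, hb₀⟩ : ∃ b₀, b₀ ∉ A := by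
      by_contra hcon
      push Not at hcon
      exact hne (Submodule.eq_top_iff'.2 hcon)
    have hex : ∃ t : ℕ, ∀ r ∈ m ^ t, r • b₀ ∈ A := ⟨N, fun r hr => by rw [hN r hr]; exact A.zero_mem⟩
    have hspec := Nat.find_spec hex
    have hpos : Nat.find hex ≠ 0 := by
      intro h0
      rw [h0, pow_zero] at hspec
      apply hb₀
      simpa using hspec 1 (by simp)
    obtain ⟨t, ht⟩ := Nat.exists_eq_succ_of_ne_zero hpos
    have hmin := Nat.find_min hex (m := t) (by omega)
    push Not at hmin
    obtain ⟨s, hs, hsb⟩ := hmin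
    rw [ht] at hspec
    have hb : ∀ r ∈ m, r • (s • b₀) ∈ A := by
      intro r hr
      rw [smul_smul]
      apply hspec
      rw [Nat.succ_eq_add_one, pow_succ, mul_comm r s]
      exact Ideal.mul_mem_mul hs hr
    have hlt : A < A ⊔ Submodule.span B {s • b₀} := by
      refine lt_of_le_of_ne le_sup_left ?_
      intro h0
      apply hsb
      rw [h0]
      exact Submodule.mem_sup_right (Submodule.mem_span_singleton_self _)
    refine hmax _ ?_ hlt
    refine ⟨hA₀.trans le_sup_left, fun x hx => ?_⟩
    apply hA
    apply step m hinj A (s • b₀) hb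
    rw [← LinearMap.comp_apply, ← LinearMap.rTensor_comp]
    exact hx
  apply hA
  subst htop
  have h1 : LinearMap.rTensor M (⊤ : Submodule B P).subtype
      (LinearMap.rTensor M (Submodule.inclusion hA₀) x) = 0 := by
    rw [← LinearMap.comp_apply, ← LinearMap.rTensor_comp]
    exact hx
  have h2 := congrArg (LinearMap.rTensor M (Submodule.topEquiv (R := B) (M := P)).symm.toLinearMap) h1
  rw [map_zero, ← LinearMap.comp_apply, ← LinearMap.rTensor_comp] at h2
  have h3 : (Submodule.topEquiv (R := B) (M := P)).symm.toLinearMap.comp (⊤ : Submodule B P).subtype =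
      LinearMap.id := by
    ext a; rfl
  rw [h3, LinearMap.rTensor_id, LinearMap.id_apply] at h2
  exact h2

/-- injectivity of `P → P ⊗ M`, `y ↦ y ⊗ c`, for modules killed by a power of `m`. -/
lemma pure_fin (m : Ideal B) [hm : m.IsMaximal] (hinj : ∀ u, psi m M u = 0 → u = 0) (c : M)
    (hc : c ∉ m • (⊤ : Submodule B M))
    {P : Type w} [AddCommGroup P] [Module B P] [IsNoetherian B P] (N : ℕ)
    (hN : ∀ r ∈ m ^ N, ∀ y : P, r • y = 0) (y : P) (hy : y ⊗ₜ[B] c = 0) : y = 0 := by
  classical
  by_contra hy0
  have hex : ∃ t : ℕ, ∀ r ∈ m ^ t, r • y = 0 := ⟨N, fun r hr => hN r hr y⟩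
  have hspec := Nat.find_spec hex
  have hpos : Nat.find hex ≠ 0 := by
    intro h0
    rw [h0, pow_zero] at hspec
    apply hy0
    simpa using hspec 1 (by simp)
  obtain ⟨t, ht⟩ := Nat.exists_eq_succ_of_ne_zero hpos
  have hmin := Nat.find_min hex (m := t) (by omega)
  push Not at hmin
  obtain ⟨s, hs, hsb⟩ := hmin
  rw [ht] at hspec
  have hb : ∀ r ∈ m, r • (s • y) = 0 := by
    intro r hr
    rw [smul_smul]
    apply hspec
    rw [Nat.succ_eq_add_one, pow_succ, mul_comm r s]
    exact Ideal.mul_mem_mul hs hr
  set y' := s • y with hy'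
  have hy'c : y' ⊗ₜ[B] c = 0 := by
    rw [hy', ← TensorProduct.smul_tmul', hy, smul_zero]
  set A₀ : Submodule B P := Submodule.span B {y'} with hA₀
  have hyA : y' ∈ A₀ := Submodule.mem_span_singleton_self y'
  have hx : (⟨y', hyA⟩ : A₀) ⊗ₜ[B] c = 0 := by
    apply chain m hinj N hN A₀
    rw [LinearMap.rTensor_tmul]
    exact hy'c
  let g : B →ₗ[B] A₀ := LinearMap.toSpanSingleton B A₀ ⟨y', hyA⟩
  have hgs : Function.Surjective g := by
    rintro ⟨w, hw⟩
    obtain ⟨r, rfl⟩ := Submodule.mem_span_singleton.1 hw
    exact ⟨r, rfl⟩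
  have hexact : Function.Exact m.subtype g := by
    intro r
    constructor
    · intro h
      have h1 : r • y' = 0 := congrArg Subtype.val h
      have hrm : r ∈ m := by
        by_contra hr
        obtain ⟨w, t, ht, hwt⟩ := hm.exists_inv hr
        apply hsb
        have h3 : y' = w • (r • y') + t • y' := by
          rw [smul_smul, ← add_smul, hwt, one_smul]
        rw [h3, h1, hb t ht, smul_zero, add_zero]
      exact ⟨⟨r, hrm⟩, rfl⟩
    · rintro ⟨r, rfl⟩
      apply Subtype.ext
      exact hb r r.2
  have hexM := rTensor_exact M hexact hgs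
  have h4 : LinearMap.rTensor M g ((1 : B) ⊗ₜ[B] c) = 0 := by
    rw [LinearMap.rTensor_tmul]
    have : g 1 = ⟨y', hyA⟩ := by simp [g]
    rw [this]
    exact hx
  obtain ⟨v, hv⟩ := (hexM _).1 h4
  apply hc
  rw [← range_psi]
  refine ⟨v, ?_⟩
  have h7 := congrArg (TensorProduct.lid B M) hv
  rw [TensorProduct.lid_tmul, one_smul] at h7
  rw [← h7]
  clear h7 hv
  induction v using TensorProduct.induction_on with
  | zero => simp
  | tmul a y => rfl
  | add y z hy hz => rw [map_add, map_add, map_add, hy, hz]

/-- injectivity of `P → P ⊗ M`, `y ↦ y ⊗ c`. -/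
lemma pure_local [IsLocalRing B] [IsNoetherianRing B]
    (hinj : ∀ u, psi (maximalIdeal B) M u = 0 → u = 0) (c : M)
    (hc : c ∉ (maximalIdeal B) • (⊤ : Submodule B M))
    {P : Type w} [AddCommGroup P] [Module B P] (y : P) (hy : y ⊗ₜ[B] c = 0) : y = 0 := by
  classical
  -- reduce to a finitely generated module
  have hfg : (Submodule.span B {y}).FG := Submodule.fg_span_singleton y
  have h1 : LinearMap.rTensor M (Submodule.span B {y}).subtype
      ((⟨y, Submodule.mem_span_singleton_self y⟩ : Submodule.span B {y}) ⊗ₜ[B] c) = 0 := by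
    rw [LinearMap.rTensor_tmul]
    exact hy
  obtain ⟨Q, hPQ, hQ, hq⟩ := TensorProduct.eq_zero_of_fg_of_subtype_eq_zero hfg h1
  rw [LinearMap.rTensor_tmul] at hq
  set y₁ : Q := Submodule.inclusion hPQ ⟨y, Submodule.mem_span_singleton_self y⟩ with hy₁
  have hQf : Module.Finite B Q := Module.Finite.iff_fg.2 hQ
  suffices hs : y₁ = 0 by
    have := congrArg Subtype.val hs
    simpa [hy₁] using this
  by_contra hne
  have hK := Ideal.iInf_pow_smul_eq_bot_of_isLocalRing (M := Q) (maximalIdeal B)
    (maximalIdeal.isMaximal B).ne_top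
  obtain ⟨N, hN⟩ : ∃ N : ℕ, y₁ ∉ (maximalIdeal B) ^ N • (⊤ : Submodule B Q) := by
    by_contra hcon
    push Not at hcon
    apply hne
    have : y₁ ∈ (⨅ i : ℕ, (maximalIdeal B) ^ i • (⊤ : Submodule B Q)) := by
      rw [Submodule.mem_iInf]
      exact hcon
    rw [hK] at this
    simpa using this
  set U : Submodule B Q := (maximalIdeal B) ^ N • (⊤ : Submodule B Q) with hU
  have h2 : (U.mkQ y₁) ⊗ₜ[B] c = 0 := by
    have := congrArg (LinearMap.rTensor M U.mkQ) hq
    rw [map_zero, LinearMap.rTensor_tmul] at this
    exact this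
  have h3 := pure_fin (maximalIdeal B) hinj c hc (P := Q ⧸ U) N (by
    intro r hr w
    obtain ⟨w, rfl⟩ := U.mkQ_surjective w
    rw [← map_smul, Submodule.mkQ_apply, Submodule.Quotient.mk_eq_zero]
    exact Submodule.smul_mem_smul hr trivial) _ h2
  rw [Submodule.mkQ_apply, Submodule.Quotient.mk_eq_zero] at h3
  exact hN h3

end Inj

end Pool.Agent.W417.FPR
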