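import Mathlib
import Pool.Agent.W417.FPR1
import Pool.Agent.W417.FPR2

set_option autoImplicit false

open IsLocalRing TensorProduct

namespace Pool.Agent.W417.FPR

universe u v w

/-- `F^e_* R`: the additive group of `R` -/
def FPush (p e : ℕ) (R : Type u) : Type u := R

section

variable (p e : ℕ) (R : Type u) [CommRing R]

instance : AddCommGroup (FPush p e R) := inferInstanceAs (AddCommGroup R)

/-- `r • s = r ^ (p ^ e) * s`. -/
instance [Fact p.Prime] [CharP R p] : Module R (FPush p e R) :=
  Module.compHom R (iterateFrobenius R p e)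

/-- the tautological map `R → F^e_* R`. -/
def FPush.of : R →+ FPush p e R := AddMonoidHom.id R

variable {R}

lemma FPush.smul_def [Fact p.Prime] [CharP R p] (r s : R) :
    r • (FPush.of p e R s) = FPush.of p e R (r ^ p ^ e * s) := rfl

/-- all `q`-th powers of elements of `I`. -/
def fp (q : ℕ) (I : Ideal R) : Ideal R := Ideal.span ((fun x => x ^ q) '' (I : Set R))

lemma fp_mono (q : ℕ) {I J : Ideal R} (h : I ≤ J) : fp q I ≤ fp q J :=
  Ideal.span_mono (Set.image_mono h)

lemma fp_le (q : ℕ) (hq : q ≠ 0) (I : Ideal R) : fp q I ≤ I := by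
  rw [fp, Ideal.span_le]
  rintro _ ⟨x, hx, rfl⟩
  exact I.pow_mem_of_mem hx q (Nat.pos_of_ne_zero hq)

lemma fp_anti {p : ℕ} (hp : p ≠ 0) {e e' : ℕ} (h : e ≤ e') (I : Ideal R) :
    fp (p ^ e') I ≤ fp (p ^ e) I := by
  rw [fp, Ideal.span_le]
  rintro _ ⟨x, hx, rfl⟩
  obtain ⟨k, rfl⟩ := Nat.exists_eq_add_of_le h
  have : x ^ p ^ (e + k) = (x ^ p ^ k) ^ p ^ e := by
    rw [← pow_mul, ← pow_add, add_comm]
  change x ^ p ^ (e + k) ∈ _
  rw [this]
  exact Ideal.subset_span ⟨x ^ p ^ k, I.pow_mem_of_mem hx _ (Nat.pos_of_ne_zero (pow_ne_zero _ hp)), rfl⟩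

lemma fp_span [Fact p.Prime] [CharP R p] (T : Set R) :
    fp (p ^ e) (Ideal.span T) = Ideal.span ((fun x => x ^ p ^ e) '' T) := by
  have h : fp (p ^ e) (Ideal.span T) = (Ideal.span T).map (iterateFrobenius R p e) := rfl
  rw [h, Ideal.map_span]
  rfl

lemma mem_smul_top_iff [Fact p.Prime] [CharP R p] (T : Set R) (x : R) :
    FPush.of p e R x ∈ (Ideal.span T) • (⊤ : Submodule R (FPush p e R)) ↔
      x ∈ Ideal.span ((fun x => x ^ p ^ e) '' T) := by
  constructor
  · intro h
    have key : ∀ y : FPush p e R, y ∈ (Ideal.span T) • (⊤ : Submodule R (FPush p e R)) →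
        (show R from y) ∈ Ideal.span ((fun x => x ^ p ^ e) '' T) := by
      intro y hy
      refine Submodule.smul_induction_on hy ?_ ?_
      · intro r hr n _
        have h1 : r ^ p ^ e ∈ Ideal.span ((fun x => x ^ p ^ e) '' T) := by
          rw [← fp_span]
          exact Ideal.subset_span ⟨r, hr, rfl⟩
        exact Ideal.mul_mem_right _ _ h1
      · intro a b ha hb
        exact Ideal.add_mem _ ha hb
    exact key _ h
  · intro h
    have key : ∀ b : R, FPush.of p e R (b * x) ∈ (Ideal.span T) • (⊤ : Submodule R (FPush p e R)) := by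
      refine Submodule.span_induction (p := fun x _ => ∀ b : R, FPush.of p e R (b * x) ∈
        (Ideal.span T) • (⊤ : Submodule R (FPush p e R))) ?_ ?_ ?_ ?_ h
      · rintro _ ⟨t, ht, rfl⟩ b
        have : FPush.of p e R (b * t ^ p ^ e) = t • FPush.of p e R b := by
          rw [FPush.smul_def, mul_comm]
        change FPush.of p e R (b * t ^ p ^ e) ∈ _
        rw [this]
        exact Submodule.smul_mem_smul (Ideal.subset_span ht) trivial
      · intro b
        rw [mul_zero, map_zero]
        exact Submodule.zero_mem _
      · intro x y _ _ hx hy b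
        rw [mul_add, map_add]
        exact Submodule.add_mem _ (hx b) (hy b)
      · intro a x _ hx b
        rw [smul_eq_mul, ← mul_assoc]
        exact hx _
    simpa using key 1

end

section Local

variable {ι : Type} [Fintype ι] {B : Type u} [CommRing B] [IsLocalRing B]
  [IsNoetherianRing B] {z : ι → B}

/-- purity over a regular local ring -/
lemma RSP.pure (p e : ℕ) [hp : Fact p.Prime] [CharP B p] (h : RSP B z) (c : B)
    (hc : c ∉ fp (p ^ e) (maximalIdeal B)) {P : Type w} [AddCommGroup P] [Module B P] (y : P)
    (hy : y ⊗ₜ[B] (FPush.of p e B c) = 0) : y = 0 := by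
  classical
  have hmax : maximalIdeal B = Ideal.span (z '' ((Finset.univ : Finset ι) : Set ι)) := by
    rw [Finset.coe_univ, Set.image_univ, h.span]
  have hq : 1 ≤ p ^ e := Nat.one_le_pow _ _ hp.out.pos
  refine pure_local (M := FPush p e B) ?_ (FPush.of p e B c) ?_ y hy
  · rw [hmax]
    apply psi_injective
    intro S i hi m hm
    have himg : (fun x => x ^ p ^ e) '' (z '' (S : Set ι)) =
        (fun l => z l ^ (fun _ : ι => p ^ e) l) '' (S : Set ι) := by
      rw [Set.image_image]
    have h1 := (mem_smul_top_iff p e (z '' (S : Set ι)) (z i ^ p ^ e * (show B from m))).1 hm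
    rw [himg] at h1
    have h2 := h.nzd_pow S (fun _ => p ^ e) (fun _ _ => hq) i hi (p ^ e) _ h1
    rw [← himg] at h2
    exact (mem_smul_top_iff p e (z '' (S : Set ι)) (show B from m)).2 h2
  · rw [hmax, mem_smul_top_iff, ← fp_span, ← hmax]
    exact hc

end Local

section Global

variable {R : Type u} [CommRing R] [IsNoetherianRing R] (p e : ℕ) [hp : Fact p.Prime] [CharP R p]

omit [IsNoetherianRing R] in
lemma charP_of_algebra (A : Type v) [CommRing A] [Nontrivial A] [Algebra R A] : CharP A p := by
  rw [CharP.charP_iff_prime_eq_zero hp.out]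
  have : ((p : R) : R) = 0 := CharP.cast_eq_zero R p
  rw [← map_natCast (algebraMap R A), this, map_zero]

/-- The property of being a regular local ring with its given system of parameters, at the prime `m`. -/
lemma pure_global (c : R)
    (hloc : ∀ (m : Ideal R) [m.IsMaximal], algebraMap R (Localization.AtPrime m) c ∉
      fp (p ^ e) (maximalIdeal (Localization.AtPrime m)))
    (hreg : ∀ (m : Ideal R) [m.IsMaximal], ∃ (n : ℕ) (z : Fin n → Localization.AtPrime m),
      RSP (Localization.AtPrime m) z)
    {P : Type w} [AddCommGroup P] [Module R P] (y : P)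
    (hy : y ⊗ₜ[R] (FPush.of p e R c) = 0) : y = 0 := by
  by_contra hne
  have hann : Submodule.annihilator (Submodule.span R {y}) ≠ ⊤ := by
    intro h0
    rw [Submodule.annihilator_eq_top_iff] at h0
    exact hne (by simpa using h0)
  obtain ⟨m, hm, hle⟩ := Ideal.exists_le_maximal _ hann
  have hcp : CharP (Localization.AtPrime m) p := charP_of_algebra (R := R) p _
  have : IsNoetherianRing (Localization.AtPrime m) := IsLocalization.isNoetherianRing m.primeCompl _ inferInstance
  let f : P →+ FPush p e R →+ (LocalizedModule m.primeCompl P) ⊗[Localization.AtPrime m]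
      (FPush p e (Localization.AtPrime m)) :=
    { toFun := fun x =>
        { toFun := fun s => (LocalizedModule.mkLinearMap m.primeCompl P x) ⊗ₜ
            (FPush.of p e (Localization.AtPrime m) (algebraMap R (Localization.AtPrime m) (show R from s)))
          map_zero' := by
            have : algebraMap R (Localization.AtPrime m) (show R from (0 : FPush p e R)) = 0 :=
              map_zero (algebraMap R (Localization.AtPrime m))
            rw [this, map_zero, TensorProduct.tmul_zero]
          map_add' := by
            intro s t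
            have : algebraMap R (Localization.AtPrime m) (show R from (s + t : FPush p e R)) =
                algebraMap R (Localization.AtPrime m) (show R from s) +
                algebraMap R (Localization.AtPrime m) (show R from t) :=
              map_add (algebraMap R (Localization.AtPrime m)) _ _
            rw [this, map_add, TensorProduct.tmul_add] }
      map_zero' := by
        ext s
        change (LocalizedModule.mkLinearMap m.primeCompl P 0) ⊗ₜ _ = _
        rw [map_zero, TensorProduct.zero_tmul]
        rfl
      map_add' := by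
        intro x x'
        ext s
        change (LocalizedModule.mkLinearMap m.primeCompl P (x + x')) ⊗ₜ _ =
          (LocalizedModule.mkLinearMap m.primeCompl P x) ⊗ₜ _ +
          (LocalizedModule.mkLinearMap m.primeCompl P x') ⊗ₜ _
        rw [map_add, TensorProduct.add_tmul] }
  have hf : ∀ (r : R) (x : P) (s : FPush p e R), f (r • x) s = f x (r • s) := by
    intro r x s
    change (LocalizedModule.mkLinearMap m.primeCompl P (r • x)) ⊗ₜ
            (FPush.of p e (Localization.AtPrime m) (algebraMap R (Localization.AtPrime m) (show R from s))) =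
      (LocalizedModule.mkLinearMap m.primeCompl P x) ⊗ₜ
            (FPush.of p e (Localization.AtPrime m) (algebraMap R (Localization.AtPrime m)
              (r ^ p ^ e * (show R from s))))
    rw [map_smul, map_mul, map_pow, ← FPush.smul_def, ← TensorProduct.smul_tmul,
      algebraMap_smul]
  have h1 := congrArg (TensorProduct.liftAddHom f hf) hy
  rw [map_zero, TensorProduct.liftAddHom_tmul] at h1
  obtain ⟨n, z, hz⟩ := hreg m
  have h2 := hz.pure p e (algebraMap R (Localization.AtPrime m) c) (hloc m)
    (LocalizedModule.mkLinearMap m.primeCompl P y) h1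
  rw [IsLocalizedModule.eq_zero_iff m.primeCompl] at h2
  obtain ⟨⟨s, hs⟩, hsy⟩ := h2
  apply hs
  apply hle
  rw [Submodule.mem_annihilator_span_singleton]
  exact hsy

end Global

end Pool.Agent.W417.FPR
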