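import Mathlib
import Pool.Agent.W417.FPR3

set_option autoImplicit false

open IsLocalRing TensorProduct

namespace Pool.Agent.W417.FPR

universe u v w

variable {R : Type u} [CommRing R] [IsNoetherianRing R]

/-- `x` extends to a regular system of parameters at `m` -/
def Good {h : ℕ} (x : Fin h → R) (m : Ideal R) [m.IsPrime] : Prop :=
  ∃ (D : ℕ) (y : Fin D → Localization.AtPrime m),
    RSP (Localization.AtPrime m) (Sum.elim (fun i => algebraMap R (Localization.AtPrime m) (x i)) y)

/-- separate the order of `c` along `t` modulo `I` -/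
lemma exists_order {B : Type u} [CommRing B] [IsLocalRing B] [IsNoetherianRing B] (I : Ideal B)
    (t : B) (ht : t ∈ maximalIdeal B) (c : B) (hc : c ∉ I) :
    ∃ (j : ℕ) (a w : B), w ∈ I ∧ c = a * t ^ j + w ∧ a ∉ Ideal.span {t} ⊔ I := by
  classical
  have hex : ∃ N : ℕ, c ∉ Ideal.span {t ^ N} ⊔ I := by
    by_contra hcon
    push Not at hcon
    have hK := Ideal.iInf_pow_smul_eq_bot_of_isLocalRing (M := B ⧸ I) (maximalIdeal B)
      (maximalIdeal.isMaximal B).ne_top
    have : I.mkQ c ∈ (⨅ i : ℕ, (maximalIdeal B) ^ i • (⊤ : Submodule B (B ⧸ I))) := by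
      rw [Submodule.mem_iInf]
      intro N
      obtain ⟨y, hy, w, hw, hyw⟩ := Submodule.mem_sup.1 (hcon N)
      obtain ⟨r, rfl⟩ := Ideal.mem_span_singleton'.1 hy
      have h1 : I.mkQ c = (t ^ N) • I.mkQ r := by
        rw [← map_smul, ← hyw, map_add]
        have : I.mkQ w = 0 := by
          rw [Submodule.mkQ_apply, Submodule.Quotient.mk_eq_zero]
          exact hw
        rw [this, add_zero, smul_eq_mul, mul_comm]
      rw [h1]
      exact Submodule.smul_mem_smul (Ideal.pow_mem_pow ht N) trivial
    rw [hK] at this
    rw [Submodule.mem_bot, Submodule.mkQ_apply, Submodule.Quotient.mk_eq_zero] at this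
    exact hc this
  have hspec := Nat.find_spec hex
  have hpos : Nat.find hex ≠ 0 := by
    intro h0
    rw [h0, pow_zero, Ideal.span_singleton_one, top_sup_eq] at hspec
    exact hspec trivial
  obtain ⟨j, hj⟩ := Nat.exists_eq_succ_of_ne_zero hpos
  have hmin := Nat.find_min hex (m := j) (by omega)
  rw [hj] at hspec
  push Not at hmin
  obtain ⟨y, hy, w, hw, hyw⟩ := Submodule.mem_sup.1 hmin
  obtain ⟨a, rfl⟩ := Ideal.mem_span_singleton'.1 hy
  refine ⟨j, a, w, hw, hyw.symm, ?_⟩
  intro ha
  apply hspec
  obtain ⟨y', hy', w', hw', hyw'⟩ := Submodule.mem_sup.1 ha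
  obtain ⟨b, rfl⟩ := Ideal.mem_span_singleton'.1 hy'
  have : c = b * t ^ (j + 1) + (t ^ j * w' + w) := by
    rw [← hyw, ← hyw']; ring
  rw [this]
  exact Ideal.add_mem _ (Ideal.mem_sup_left (Ideal.mul_mem_left _ _ (Ideal.mem_span_singleton_self _)))
    (Ideal.mem_sup_right (Ideal.add_mem _ (Ideal.mul_mem_left _ _ hw') hw))

lemma claimT (p : ℕ) [hp : Fact p.Prime] [CharP R p] {h : ℕ} (x : Fin h → R) (P : Ideal R) [P.IsPrime]
    (hxP : Ideal.span (Set.range fun i => algebraMap R (Localization.AtPrime P) (x i)) =
      maximalIdeal (Localization.AtPrime P))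
    (g : R) (hg : g ∉ P) (hgood : ∀ (m : Ideal R) [m.IsPrime], P ≤ m → g ∉ m → Good x m) :
    ∀ (n : ℕ) (S : Finset (Fin h)) (_ : Sᶜ.card = n) (c : R)
      (_ : algebraMap R (Localization.AtPrime P) c ∉
        Ideal.span ((fun i => algebraMap R (Localization.AtPrime P) (x i)) '' (S : Set (Fin h)))),
      ∃ f : R, f ∉ P ∧ ∃ e0 : ℕ, ∀ (m : Ideal R) [m.IsPrime], P ≤ m → f ∉ m → ∀ e ≥ e0,
        algebraMap R (Localization.AtPrime m) c ∉
          Ideal.span ((fun i => algebraMap R (Localization.AtPrime m) (x i)) '' (S : Set (Fin h))) ⊔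
            fp (p ^ e) (maximalIdeal (Localization.AtPrime m)) := by
  classical
  have hxmem : ∀ i, x i ∈ P := by
    intro i
    have h1 : algebraMap R (Localization.AtPrime P) (x i) ∈ maximalIdeal (Localization.AtPrime P) := by
      rw [← hxP]
      exact Ideal.subset_span ⟨i, rfl⟩
    exact (IsLocalization.AtPrime.to_map_mem_maximal_iff (Localization.AtPrime P) P (x i)).1 h1
  intro n
  induction n with
  | zero =>
    intro S hS c hc
    have hSu : S = Finset.univ := by
      rw [← Finset.compl_eq_empty_iff]
      exact Finset.card_eq_zero.1 hS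
    subst hSu
    rw [Finset.coe_univ, Set.image_univ, hxP] at hc
    have hcP : c ∉ P := fun h0 =>
      hc ((IsLocalization.AtPrime.to_map_mem_maximal_iff (Localization.AtPrime P) P c).2 h0)
    refine ⟨c, hcP, 0, ?_⟩
    intro m _ hPm hcm e _ hmem
    apply hcm
    rw [← IsLocalization.AtPrime.to_map_mem_maximal_iff (Localization.AtPrime m) m c]
    have hle : Ideal.span ((fun i => algebraMap R (Localization.AtPrime m) (x i)) ''
        ((Finset.univ : Finset (Fin h)) : Set (Fin h))) ⊔
            fp (p ^ e) (maximalIdeal (Localization.AtPrime m)) ≤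
        maximalIdeal (Localization.AtPrime m) := by
      refine sup_le ?_ (fp_le _ (pow_ne_zero _ hp.out.ne_zero) _)
      rw [Ideal.span_le]
      rintro _ ⟨i, _, rfl⟩
      exact (IsLocalization.AtPrime.to_map_mem_maximal_iff (Localization.AtPrime m) m (x i)).2
        (hPm (hxmem i))
    exact hle hmem
  | succ n ih =>
    intro S hS c hc
    obtain ⟨i, hi⟩ : ∃ i, i ∉ S := by
      by_contra hcon
      push Not at hcon
      have : S = Finset.univ := Finset.eq_univ_iff_forall.2 hcon
      rw [this] at hS
      simp at hS
    have hNoe : IsNoetherianRing (Localization.AtPrime P) :=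
      IsLocalization.isNoetherianRing P.primeCompl _ inferInstance
    obtain ⟨j, a, w, hw, hcaw, ha⟩ := exists_order _ (algebraMap R (Localization.AtPrime P) (x i))
      ((IsLocalization.AtPrime.to_map_mem_maximal_iff (Localization.AtPrime P) P (x i)).2 (hxmem i)) _ hc
    -- clear denominators
    obtain ⟨⟨a0, s⟩, has⟩ := IsLocalization.surj P.primeCompl a
    have himg : Ideal.span ((fun i => algebraMap R (Localization.AtPrime P) (x i)) '' (S : Set (Fin h))) =
        (Ideal.span (x '' (S : Set (Fin h)))).map (algebraMap R (Localization.AtPrime P)) := by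
      rw [Ideal.map_span, Set.image_image]
    rw [himg, IsLocalization.mem_map_algebraMap_iff P.primeCompl] at hw
    obtain ⟨⟨⟨w0, hw0⟩, s'⟩, hws⟩ := hw
    have has' : a * algebraMap R (Localization.AtPrime P) s = algebraMap R (Localization.AtPrime P) a0 := has
    have hws' : w * algebraMap R (Localization.AtPrime P) s' = algebraMap R (Localization.AtPrime P) w0 := hws
    have heq : algebraMap R (Localization.AtPrime P) ((s : R) * s' * c) =
        algebraMap R (Localization.AtPrime P) ((s' : R) * a0 * x i ^ j + s * w0) := by
      rw [map_mul, map_add, map_mul, map_mul, map_mul, map_mul, ← has', ← hws', hcaw, map_pow]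
      ring
    obtain ⟨t, ht⟩ := (IsLocalization.eq_iff_exists P.primeCompl (Localization.AtPrime P)).1 heq
    set σ : R := (t : R) * s * s' with hσ
    have hσP : σ ∉ P := (P.primeCompl.mul_mem (P.primeCompl.mul_mem t.2 s.2) s'.2)
    set c' : R := (t : R) * s' * a0 with hc'
    have hrel : σ * c = c' * x i ^ j + t * s * w0 := by
      rw [hσ, hc']
      linear_combination ht
    have hc'mem : algebraMap R (Localization.AtPrime P) c' ∉
        Ideal.span ((fun i => algebraMap R (Localization.AtPrime P) (x i)) ''
          ((insert i S : Finset (Fin h)) : Set (Fin h))) := by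
      intro h0
      apply ha
      have h1 : Ideal.span ((fun i => algebraMap R (Localization.AtPrime P) (x i)) ''
          ((insert i S : Finset (Fin h)) : Set (Fin h))) =
          Ideal.span {algebraMap R (Localization.AtPrime P) (x i)} ⊔
          Ideal.span ((fun i => algebraMap R (Localization.AtPrime P) (x i)) '' (S : Set (Fin h))) := by
        rw [← Ideal.span_union, Finset.coe_insert, Set.image_insert_eq, Set.insert_eq]
      rw [h1] at h0
      have h2 : algebraMap R (Localization.AtPrime P) c' = algebraMap R (Localization.AtPrime P) σ * a := by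
        rw [hc', hσ, map_mul, map_mul, map_mul, map_mul, ← has']
        ring
      rw [h2] at h0
      exact (Ideal.unit_mul_mem_iff_mem _ (IsLocalization.map_units (Localization.AtPrime P)
        (⟨σ, hσP⟩ : P.primeCompl))).1 h0
    obtain ⟨f', hf', e0', hih⟩ := ih (insert i S) (by
      rw [Finset.compl_insert, Finset.card_erase_of_mem (by simpa using hi), hS]
      rfl) c' hc'mem
    refine ⟨σ * f' * g, ?_, max e0' j, ?_⟩
    · exact P.primeCompl.mul_mem (P.primeCompl.mul_mem hσP hf') hg
    · intro m _ hPm hfm e he hmem
      have hσm : σ ∉ m := fun h0 => hfm (Ideal.mul_mem_right _ _ (Ideal.mul_mem_right _ _ h0))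
      have hf'm : f' ∉ m := fun h0 => hfm (Ideal.mul_mem_right _ _ (Ideal.mul_mem_left _ _ h0))
      have hgm : g ∉ m := fun h0 => hfm (Ideal.mul_mem_left _ _ h0)
      apply hih m hPm hf'm e (le_trans (le_max_left _ _) he)
      obtain ⟨D, y, hz⟩ := hgood m hPm hgm
      have hNoem : IsNoetherianRing (Localization.AtPrime m) :=
        IsLocalization.isNoetherianRing m.primeCompl _ inferInstance
      have hcpm : CharP (Localization.AtPrime m) p := charP_of_algebra (R := R) p _
      set q := p ^ e with hq
      have hjq : j < q := by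
        have h1 : j ≤ e := le_trans (le_max_right _ _) he
        exact lt_of_le_of_lt h1 (Nat.lt_pow_self hp.out.one_lt)
      set X : Fin h → Localization.AtPrime m := fun i => algebraMap R (Localization.AtPrime m) (x i) with hX
      set z : Fin h ⊕ Fin D → Localization.AtPrime m := Sum.elim X y with hzdef
      set E : Fin h ⊕ Fin D → ℕ := fun l => if l ∈ S.map Function.Embedding.inl then 1 else q with hE
      set T : Finset (Fin h ⊕ Fin D) := Finset.univ.erase (Sum.inl i) with hT
      set J : Ideal (Localization.AtPrime m) := Ideal.span ((fun l => z l ^ E l) '' (T : Set (Fin h ⊕ Fin D))) with hJ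
      have hfp : fp q (maximalIdeal (Localization.AtPrime m)) =
          Ideal.span ((fun x => x ^ q) '' (Set.range z)) := by
        rw [← hz.span, hq, fp_span]
      have hXmem : ∀ l ∈ S, X l ∈ J := by
        intro l hl
        apply Ideal.subset_span
        refine ⟨Sum.inl l, ?_, ?_⟩
        · rw [hT, Finset.coe_erase]
          refine ⟨by simp, ?_⟩
          intro h0
          have : l = i := by simpa using h0
          exact hi (this ▸ hl)
        · have : E (Sum.inl l) = 1 := by simp [hE, hl]
          change z (Sum.inl l) ^ E (Sum.inl l) = X l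
          rw [this, pow_one]
          rfl
      have hSJ : Ideal.span (X '' (S : Set (Fin h))) ≤ J := by
        rw [Ideal.span_le]
        rintro _ ⟨l, hl, rfl⟩
        exact hXmem l hl
      have hle1 : Ideal.span (X '' (S : Set (Fin h))) ⊔ fp q (maximalIdeal (Localization.AtPrime m)) ≤
          Ideal.span {X i ^ q} ⊔ J := by
        refine sup_le (hSJ.trans le_sup_right) ?_
        rw [hfp, Ideal.span_le]
        rintro _ ⟨_, ⟨l, rfl⟩, rfl⟩
        by_cases hli : l = Sum.inl i
        · subst hli
          exact Ideal.mem_sup_left (Ideal.mem_span_singleton_self _)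
        · apply Ideal.mem_sup_right
          by_cases hl : l ∈ S.map Function.Embedding.inl
          · obtain ⟨l', hl', rfl⟩ := Finset.mem_map.1 hl
            exact Ideal.pow_mem_of_mem _ (hXmem l' hl') q (Nat.pos_of_ne_zero (by omega))
          · apply Ideal.subset_span
            refine ⟨l, ?_, ?_⟩
            · rw [hT, Finset.coe_erase]
              exact ⟨by simp, hli⟩
            · have : E l = q := by simp only [hE, if_neg hl]
              change z l ^ E l = z l ^ q
              rw [this]
      have hle2 : J ≤ Ideal.span (X '' ((insert i S : Finset (Fin h)) : Set (Fin h))) ⊔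
          fp q (maximalIdeal (Localization.AtPrime m)) := by
        rw [hJ, Ideal.span_le]
        rintro _ ⟨l, _, rfl⟩
        by_cases hl : l ∈ S.map Function.Embedding.inl
        · obtain ⟨l', hl', rfl⟩ := Finset.mem_map.1 hl
          apply Ideal.mem_sup_left
          have : E (Function.Embedding.inl l') = 1 := by simp only [hE, if_pos hl]
          change z (Function.Embedding.inl l') ^ E (Function.Embedding.inl l') ∈ _
          rw [this, pow_one]
          apply Ideal.subset_span
          exact ⟨l', by simp [hl'], rfl⟩
        · apply Ideal.mem_sup_right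
          have : E l = q := by simp only [hE, if_neg hl]
          change z l ^ E l ∈ _
          rw [this, hfp]
          exact Ideal.subset_span ⟨_, ⟨l, rfl⟩, rfl⟩
      -- the main computation
      have h1 : algebraMap R (Localization.AtPrime m) (c' * x i ^ j) ∈ Ideal.span {X i ^ q} ⊔ J := by
        have h2 : c' * x i ^ j = σ * c - t * s * w0 := by rw [hrel]; ring
        rw [h2, map_sub, map_mul]
        refine Ideal.sub_mem _ (Ideal.mul_mem_left _ _ (hle1 hmem)) ?_
        apply Ideal.mem_sup_right
        apply hSJ
        rw [map_mul]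
        apply Ideal.mul_mem_left
        have h3 : Ideal.span (X '' (S : Set (Fin h))) =
            (Ideal.span (x '' (S : Set (Fin h)))).map (algebraMap R (Localization.AtPrime m)) := by
          rw [Ideal.map_span, Set.image_image]
        rw [h3]
        exact Ideal.mem_map_of_mem _ hw0
      obtain ⟨b1, hb1, b, hb, hbb⟩ := Submodule.mem_sup.1 h1
      obtain ⟨r, rfl⟩ := Ideal.mem_span_singleton'.1 hb1
      have h4 : z (Sum.inl i) ^ j * (algebraMap R (Localization.AtPrime m) c' - r * X i ^ (q - j)) ∈ J := by
        have h5 : z (Sum.inl i) ^ j * (algebraMap R (Localization.AtPrime m) c' - r * X i ^ (q - j)) = b := by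
          have h6 : X i ^ q = X i ^ j * X i ^ (q - j) := by
            rw [← pow_add]; congr 1; omega
          change X i ^ j * (algebraMap R (Localization.AtPrime m) c' - r * X i ^ (q - j)) = b
          rw [map_mul, map_pow] at hbb
          have h7 : algebraMap R (Localization.AtPrime m) (x i) = X i := rfl
          rw [h7] at hbb
          rw [h6] at hbb
          linear_combination -hbb
        rw [h5]
        exact hb
      have h8 := hz.nzd_pow T E (by
        intro l _
        simp only [hE]
        split_ifs
        · exact le_rfl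
        · omega) (Sum.inl i) (by simp [hT]) j _ h4
      have h9 : algebraMap R (Localization.AtPrime m) c' =
          (algebraMap R (Localization.AtPrime m) c' - r * X i ^ (q - j)) + r * X i ^ (q - j) := by ring
      rw [h9]
      refine Ideal.add_mem _ (hle2 h8) ?_
      apply Ideal.mem_sup_left
      apply Ideal.mul_mem_left
      apply Ideal.pow_mem_of_mem _ _ _ (by omega)
      exact Ideal.subset_span ⟨i, by simp, rfl⟩

end Pool.Agent.W417.FPR
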