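import Mathlib
import Pool.Agent.W417.FPR4

set_option autoImplicit false

open IsLocalRing TensorProduct

namespace Pool.Agent.W417.FPR

universe u v w

lemma height_add_dim_quotient_le {A : Type u} [CommRing A] (𝔭 : Ideal A) [h𝔭 : 𝔭.IsPrime] :
    (𝔭.height : WithBot ℕ∞) + ringKrullDim (A ⧸ 𝔭) ≤ ringKrullDim A := by
  set a : PrimeSpectrum A := ⟨𝔭, h𝔭⟩ with ha
  have h1 : 𝔭.height = Order.height a := PrimeSpectrum.height_eq_orderHeight a
  have h2 : ringKrullDim (A ⧸ 𝔭) = (Order.coheight a : ℕ∞) := by
    rw [ringKrullDim_quotient, Order.coheight_eq_krullDim_Ici]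
    have : (PrimeSpectrum.zeroLocus (𝔭 : Set A)) = Set.Ici a := by
      ext q
      rfl
    rw [this]
  have : Nonempty (PrimeSpectrum A) := ⟨a⟩
  rw [h1, h2, ringKrullDim, Order.krullDim_eq_iSup_height_add_coheight_of_nonempty, ← WithBot.coe_add,
    WithBot.coe_le_coe]
  exact le_iSup (fun b => Order.height b + Order.coheight b) a

lemma exists_rsp {B : Type u} [CommRing B] [IsRegularLocalRing B] :
    ∃ (n : ℕ) (z : Fin n → B), Ideal.span (Set.range z) = maximalIdeal B ∧
      (n : WithBot ℕ∞) = ringKrullDim B := by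
  obtain ⟨s, hs, hs2⟩ := (IsNoetherian.noetherian (maximalIdeal B)).exists_span_finset_card_eq_spanFinrank
  refine ⟨s.card, fun i => (s.equivFin.symm i : B), ?_, ?_⟩
  · rw [← hs2]
    congr 1
    ext v
    constructor
    · rintro ⟨i, rfl⟩
      exact (s.equivFin.symm i).2
    · intro hv
      exact ⟨s.equivFin ⟨v, hv⟩, by simp⟩
  · rw [hs]
    exact (isRegularLocalRing_iff _).1 inferInstance

variable {R : Type u} [CommRing R] [IsNoetherianRing R]

omit [IsNoetherianRing R] in
lemma exists_x (P : Ideal R) [P.IsPrime] [IsRegularLocalRing (Localization.AtPrime P)] :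
    ∃ (h : ℕ) (x : Fin h → R),
      Ideal.span (Set.range fun i => algebraMap R (Localization.AtPrime P) (x i)) =
        maximalIdeal (Localization.AtPrime P) ∧
      (h : WithBot ℕ∞) = ringKrullDim (Localization.AtPrime P) := by
  obtain ⟨h, z, hz, hh⟩ := exists_rsp (B := Localization.AtPrime P)
  have h1 : ∀ i, ∃ (a : R) (s : P.primeCompl), z i * algebraMap R (Localization.AtPrime P) s =
      algebraMap R (Localization.AtPrime P) a := by
    intro i
    obtain ⟨⟨a, s⟩, has⟩ := IsLocalization.surj P.primeCompl (z i)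
    exact ⟨a, s, has⟩
  choose a s has using h1
  refine ⟨h, a, ?_, hh⟩
  rw [← hz]
  apply le_antisymm
  · rw [Ideal.span_le]
    rintro _ ⟨i, rfl⟩
    change algebraMap R (Localization.AtPrime P) (a i) ∈ _
    rw [← has i]
    exact Ideal.mul_mem_right _ _ (Ideal.subset_span ⟨i, rfl⟩)
  · rw [Ideal.span_le]
    rintro _ ⟨i, rfl⟩
    have h2 : z i * algebraMap R (Localization.AtPrime P) (s i) ∈
        Ideal.span (Set.range fun i => algebraMap R (Localization.AtPrime P) (a i)) := by
      rw [has i]
      exact Ideal.subset_span ⟨i, rfl⟩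
    exact (Ideal.mul_unit_mem_iff_mem _ (IsLocalization.map_units (Localization.AtPrime P) (s i))).1 h2

lemma exists_g1 (P : Ideal R) [P.IsPrime] {h : ℕ} (x : Fin h → R)
    (hx : Ideal.span (Set.range fun i => algebraMap R (Localization.AtPrime P) (x i)) =
        maximalIdeal (Localization.AtPrime P)) :
    ∃ g : R, g ∉ P ∧ ∀ a ∈ P, g * a ∈ Ideal.span (Set.range x) := by
  classical
  have hmap : (Ideal.span (Set.range x)).map (algebraMap R (Localization.AtPrime P)) =
      maximalIdeal (Localization.AtPrime P) := by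
    rw [Ideal.map_span, ← Set.range_comp]
    exact hx
  have h1 : ∀ a ∈ P, ∃ s : R, s ∉ P ∧ s * a ∈ Ideal.span (Set.range x) := by
    intro a ha
    have h2 : algebraMap R (Localization.AtPrime P) a ∈
        (Ideal.span (Set.range x)).map (algebraMap R (Localization.AtPrime P)) := by
      rw [hmap]
      exact (IsLocalization.AtPrime.to_map_mem_maximal_iff (Localization.AtPrime P) P a).2 ha
    rw [IsLocalization.algebraMap_mem_map_algebraMap_iff P.primeCompl] at h2
    obtain ⟨s, hs, hsa⟩ := h2
    exact ⟨s, hs, hsa⟩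
  obtain ⟨T, hT⟩ := (IsNoetherian.noetherian P)
  have hTP : ∀ t ∈ T, t ∈ P := fun t ht => by
    rw [← hT]; exact Submodule.subset_span ht
  choose! s hs hsa using h1
  refine ⟨∏ t ∈ T, s t, ?_, ?_⟩
  · exact P.primeCompl.prod_mem (fun t ht => hs t (hTP t ht))
  · intro a ha
    rw [← hT] at ha
    refine Submodule.span_induction (p := fun a _ => (∏ t ∈ T, s t) * a ∈ Ideal.span (Set.range x))
      ?_ ?_ ?_ ?_ ha
    · intro t ht
      rw [← Finset.prod_erase_mul T s ht, mul_assoc]
      exact Ideal.mul_mem_left _ _ (hsa t (hTP t ht))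
    · rw [mul_zero]; exact Ideal.zero_mem _
    · intro y z _ _ hy hz
      rw [mul_add]; exact Ideal.add_mem _ hy hz
    · intro r y _ hy
      rw [smul_eq_mul, mul_left_comm]
      exact Ideal.mul_mem_left _ _ hy

omit [IsNoetherianRing R] in
/-- transfer of regularity to `R_m / P R_m`. -/
lemma regular_quot (P m : Ideal R) [P.IsPrime] [m.IsPrime] (hPm : P ≤ m)
    (hreg : ∀ (Q : Ideal (R ⧸ P)) [Q.IsPrime], Q.comap (Ideal.Quotient.mk P) = m →
      IsRegularLocalRing (Localization.AtPrime Q)) :
    IsRegularLocalRing (Localization.AtPrime m ⧸ P.map (algebraMap R (Localization.AtPrime m))) := by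
  have hcomap : (m.map (Ideal.Quotient.mk P)).comap (Ideal.Quotient.mk P) = m := by
    rw [Ideal.comap_map_of_surjective _ Ideal.Quotient.mk_surjective]
    apply sup_eq_left.2
    intro a ha
    rw [Ideal.mem_comap, Ideal.mem_bot] at ha
    exact hPm (Ideal.Quotient.eq_zero_iff_mem.1 ha)
  have hQ : (m.map (Ideal.Quotient.mk P)).IsPrime :=
    Ideal.map_isPrime_of_surjective Ideal.Quotient.mk_surjective (by rw [Ideal.mk_ker]; exact hPm)
  have h1 := hreg (m.map (Ideal.Quotient.mk P)) hcomap
  have hsub : Algebra.algebraMapSubmonoid (R ⧸ P) m.primeCompl = (m.map (Ideal.Quotient.mk P)).primeCompl := by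
    ext v
    constructor
    · rintro ⟨a, ha, rfl⟩
      intro h0
      apply ha
      rw [← hcomap]
      exact h0
    · intro hv
      obtain ⟨a, rfl⟩ := Ideal.Quotient.mk_surjective v
      refine ⟨a, ?_, rfl⟩
      intro h0
      exact hv (Ideal.mem_map_of_mem _ h0)
  have hloc : IsLocalization (m.map (Ideal.Quotient.mk P)).primeCompl
      (Localization.AtPrime m ⧸ P.map (algebraMap R (Localization.AtPrime m))) := by
    rw [← hsub]
    infer_instance
  exact IsRegularLocalRing.of_ringEquiv (IsLocalization.algEquiv (m.map (Ideal.Quotient.mk P)).primeCompl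
    (Localization.AtPrime (m.map (Ideal.Quotient.mk P)))
    (Localization.AtPrime m ⧸ P.map (algebraMap R (Localization.AtPrime m)))).toRingEquiv

lemma good_of (P m : Ideal R) [P.IsPrime] [m.IsPrime] (hPm : P ≤ m) {h : ℕ} (x : Fin h → R)
    (hh : (h : WithBot ℕ∞) = ringKrullDim (Localization.AtPrime P))
    (hxP : ∀ i, x i ∈ P)
    (g : R) (hg : g ∉ m) (hgP : ∀ a ∈ P, g * a ∈ Ideal.span (Set.range x))
    (hreg : IsRegularLocalRing
      (Localization.AtPrime m ⧸ P.map (algebraMap R (Localization.AtPrime m)))) : Good x m := by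
  set A := Localization.AtPrime m with hA
  set 𝔭 : Ideal A := P.map (algebraMap R A) with h𝔭
  have hNoe : IsNoetherianRing A := IsLocalization.isNoetherianRing m.primeCompl _ inferInstance
  have hdisj : Disjoint (m.primeCompl : Set R) (P : Set R) := by
    rw [Set.disjoint_left]
    intro a ha haP
    exact ha (hPm haP)
  have hprime : 𝔭.IsPrime := IsLocalization.isPrime_of_isPrime_disjoint m.primeCompl A P inferInstance hdisj
  obtain ⟨D, y', hy', hD⟩ := exists_rsp (B := A ⧸ 𝔭)
  choose y hy using fun i => Ideal.Quotient.mk_surjective (y' i)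
  refine ⟨D, y, ?_, ?_⟩
  · apply le_antisymm
    · rw [Ideal.span_le]
      rintro _ ⟨l, rfl⟩
      rcases l with i | i
      · exact (IsLocalization.AtPrime.to_map_mem_maximal_iff A m (x i)).2 (hPm (hxP i))
      · change y i ∈ maximalIdeal A
        have h1 : Ideal.Quotient.mk 𝔭 (y i) ∈ maximalIdeal (A ⧸ 𝔭) := by
          rw [hy, ← hy']
          exact Ideal.subset_span ⟨i, rfl⟩
        rw [mem_maximalIdeal, mem_nonunits_iff] at h1 ⊢
        intro h0
        exact h1 (h0.map _)
    · intro a ha
      have h1 : Ideal.Quotient.mk 𝔭 a ∈ maximalIdeal (A ⧸ 𝔭) := by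
        rw [← Pool.Agent.H379R3.map_mk_maximalIdeal]
        exact Ideal.mem_map_of_mem _ ha
      have h2 : Ideal.span (Set.range y') = (Ideal.span (Set.range y)).map (Ideal.Quotient.mk 𝔭) := by
        rw [Ideal.map_span, ← Set.range_comp]
        congr 2
        ext i
        exact (hy i).symm
      rw [← hy', h2, Ideal.mem_map_iff_of_surjective _ Ideal.Quotient.mk_surjective] at h1
      obtain ⟨b, hb, hba⟩ := h1
      have h3 : a - b ∈ 𝔭 := by
        rw [← Ideal.Quotient.eq_zero_iff_mem, map_sub, hba, sub_self]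
      have h4 : 𝔭 ≤ Ideal.span (Set.range fun i => algebraMap R A (x i)) := by
        rw [h𝔭, Ideal.map_le_iff_le_comap]
        intro r hr
        rw [Ideal.mem_comap]
        have h5 : algebraMap R A (g * r) ∈ Ideal.span (Set.range fun i => algebraMap R A (x i)) := by
          have h6 : (Ideal.span (Set.range x)).map (algebraMap R A) =
              Ideal.span (Set.range fun i => algebraMap R A (x i)) := by
            rw [Ideal.map_span, ← Set.range_comp]
            rfl
          rw [← h6]
          exact Ideal.mem_map_of_mem _ (hgP r hr)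
        rw [map_mul] at h5
        exact (Ideal.unit_mul_mem_iff_mem _ (IsLocalization.map_units A (⟨g, hg⟩ : m.primeCompl))).1 h5
      have h7 : a = (a - b) + b := by ring
      rw [h7]
      refine Ideal.add_mem _ (Ideal.span_mono ?_ (h4 h3)) (Ideal.span_mono ?_ hb)
      · rintro _ ⟨i, rfl⟩
        exact ⟨Sum.inl i, rfl⟩
      · rintro _ ⟨i, rfl⟩
        exact ⟨Sum.inr i, rfl⟩
  · have h1 := height_add_dim_quotient_le 𝔭
    have h2 : 𝔭.height = P.height := by
      have h3 : 𝔭.comap (algebraMap R A) = P :=
        IsLocalization.under_map_of_isPrime_disjoint m.primeCompl A inferInstance hdisj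
      have h4 := IsLocalization.height_under m.primeCompl 𝔭
      rw [← h4]
      congr 1
    rw [h2, ← hD, ← IsLocalization.AtPrime.ringKrullDim_eq_height P (Localization.AtPrime P), ← hh] at h1
    refine le_trans ?_ h1
    rw [Fintype.card_sum, Fintype.card_fin, Fintype.card_fin]
    push_cast
    exact le_rfl

/-- `R / P` is regular on a neighbourhood of the generic point. -/
def JZero (R : Type u) [CommRing R] : Prop :=
  ∀ (P : Ideal R) [P.IsPrime], ∃ f : R, f ∉ P ∧ ∀ (Q : Ideal (R ⧸ P)) [Q.IsPrime],
    Ideal.Quotient.mk P f ∉ Q → IsRegularLocalRing (Localization.AtPrime Q)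

theorem uniform (p : ℕ) [hp : Fact p.Prime] [CharP R p]
    (hreg : ∀ (m : Ideal R) [m.IsPrime], IsRegularLocalRing (Localization.AtPrime m))
    (hJ : JZero R) (c : R) (hc : ∀ P ∈ minimalPrimes R, c ∉ P) (I : Ideal R) :
    ∃ e0 : ℕ, ∀ (m : Ideal R) [m.IsPrime], I ≤ m → ∀ e ≥ e0,
      algebraMap R (Localization.AtPrime m) c ∉ fp (p ^ e) (maximalIdeal (Localization.AtPrime m)) := by
  refine IsNoetherian.induction (P := fun (I : Ideal R) => ∃ e0 : ℕ, ∀ (m : Ideal R) [m.IsPrime],
    I ≤ m → ∀ e ≥ e0, algebraMap R (Localization.AtPrime m) c ∉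
      fp (p ^ e) (maximalIdeal (Localization.AtPrime m))) ?_ I
  · intro (I : Ideal R) ih
    by_cases hI : I.IsPrime
    · have := hreg I
      obtain ⟨h, x, hx, hh⟩ := exists_x I
      obtain ⟨g, hg, hgP⟩ := exists_g1 I x hx
      obtain ⟨f0, hf0, hf0Q⟩ := hJ I
      have hxI : ∀ i, x i ∈ I := by
        intro i
        have h1 : algebraMap R (Localization.AtPrime I) (x i) ∈ maximalIdeal (Localization.AtPrime I) := by
          rw [← hx]
          exact Ideal.subset_span ⟨i, rfl⟩
        exact (IsLocalization.AtPrime.to_map_mem_maximal_iff (Localization.AtPrime I) I (x i)).1 h1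
      have hgood : ∀ (m : Ideal R) [m.IsPrime], I ≤ m → g * f0 ∉ m → Good x m := by
        intro m hm hIm hgf
        have hgm : g ∉ m := fun h0 => hgf (Ideal.mul_mem_right _ _ h0)
        have hf0m : f0 ∉ m := fun h0 => hgf (Ideal.mul_mem_left _ _ h0)
        refine good_of I m hIm x hh hxI g hgm hgP ?_
        apply regular_quot I m hIm
        intro Q hQ hQm
        apply hf0Q Q
        intro h0
        apply hf0m
        rw [← hQm]
        exact h0
      have hc0 : algebraMap R (Localization.AtPrime I) c ∉
          Ideal.span ((fun i => algebraMap R (Localization.AtPrime I) (x i)) ''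
            ((∅ : Finset (Fin h)) : Set (Fin h))) := by
        rw [Finset.coe_empty, Set.image_empty, Ideal.span_empty, Ideal.mem_bot]
        intro h0
        rw [IsLocalization.map_eq_zero_iff I.primeCompl] at h0
        obtain ⟨s, hs⟩ := h0
        obtain ⟨P0, hP0, hP0I⟩ := Ideal.exists_minimalPrimes_le (J := I) (I := ⊥) bot_le
        have hP0p : P0.IsPrime := hP0.1.1
        have h1 : (s : R) * c ∈ P0 := by rw [hs]; exact P0.zero_mem
        rcases hP0p.mem_or_mem h1 with h2 | h2
        · exact s.2 (hP0I h2)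
        · exact hc P0 hP0 h2
      obtain ⟨f, hf, e0, he0⟩ := claimT p x I hx (g * f0) (I.primeCompl.mul_mem hg hf0) hgood _ ∅ rfl c hc0
      obtain ⟨e1, he1⟩ := ih (I ⊔ Ideal.span {f}) (by
        refine lt_of_le_of_ne le_sup_left ?_
        intro h0
        apply hf
        rw [h0]
        exact Ideal.mem_sup_right (Ideal.mem_span_singleton_self f))
      refine ⟨max e0 e1, ?_⟩
      intro m hm hIm e he
      by_cases hfm : f ∈ m
      · apply he1 m _ e (le_trans (le_max_right _ _) he)
        refine sup_le hIm ?_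
        rw [Ideal.span_le]
        intro t ht
        rw [Set.mem_singleton_iff.1 ht]
        exact hfm
      · have h1 := he0 m hIm hfm e (le_trans (le_max_left _ _) he)
        intro h2
        exact h1 (Ideal.mem_sup_right h2)
    · rw [Ideal.isPrime_iff] at hI
      by_cases htop : I = ⊤
      · refine ⟨0, ?_⟩
        intro m hm hIm
        exact absurd (top_le_iff.1 (htop ▸ hIm)) hm.ne_top
      · have h1 : ∃ a b : R, a * b ∈ I ∧ a ∉ I ∧ b ∉ I := by
          by_contra hcon
          push Not at hcon
          apply hI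
          refine ⟨htop, ?_⟩
          intro a b hab
          by_contra hcon2
          push Not at hcon2
          exact hcon2.2 (hcon a b hab hcon2.1)
        obtain ⟨a, b, hab, ha, hb⟩ := h1
        have hlt : ∀ t : R, t ∉ I → I < I ⊔ Ideal.span {t} := by
          intro t ht
          refine lt_of_le_of_ne le_sup_left ?_
          intro h0
          apply ht
          rw [h0]
          exact Ideal.mem_sup_right (Ideal.mem_span_singleton_self t)
        obtain ⟨e1, he1⟩ := ih _ (hlt a ha)
        obtain ⟨e2, he2⟩ := ih _ (hlt b hb)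
        refine ⟨max e1 e2, ?_⟩
        intro m hm hIm e he
        rcases hm.mem_or_mem (hIm hab) with h | h
        · apply he1 m _ e (le_trans (le_max_left _ _) he)
          refine sup_le hIm ?_
          rw [Ideal.span_le]
          intro t ht
          rw [Set.mem_singleton_iff.1 ht]
          exact h
        · apply he2 m _ e (le_trans (le_max_right _ _) he)
          refine sup_le hIm ?_
          rw [Ideal.span_le]
          intro t ht
          rw [Set.mem_singleton_iff.1 ht]
          exact h

end Pool.Agent.W417.FPR
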