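import Pool.Agent.W842.BV.Stms

/-!
# The choice of the parameters
-/

set_option autoImplicit false

open Finset

namespace Pool.Agent.W417.BV

theorem t_ASY : Pool.Agent.W842.BV.S_ASY := by
  intro D hD
  have hD0 : (0 : ℝ) < D := by exact_mod_cast (by omega : 0 < D)
  have hD1 : (1 : ℝ) ≤ D := by exact_mod_cast hD
  refine ⟨((64 * (D : ℝ)) ^ (2 * D - 2))⁻¹, by positivity, (32 * D) ^ D, ?_⟩
  intro n hn
  set x : ℝ := (n : ℝ) ^ (1 / (D : ℝ)) with hx
  have hn0 : (0 : ℝ) ≤ n := Nat.cast_nonneg n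
  have hxD : x ^ D = n := by
    rw [hx, ← Real.rpow_natCast, ← Real.rpow_mul hn0, one_div, inv_mul_cancel₀ hD0.ne',
      Real.rpow_one]
  have hx0 : 0 ≤ x := Real.rpow_nonneg hn0 _
  have hx32 : 32 * (D : ℝ) ≤ x := by
    by_contra hcon
    push Not at hcon
    have h1 : x ^ D < (32 * (D : ℝ)) ^ D := pow_lt_pow_left₀ hcon hx0 (by omega)
    rw [hxD] at h1
    have h2 : ((32 * D : ℕ) : ℝ) ^ D ≤ n := by exact_mod_cast hn
    push_cast at h2
    linarith
  set m : ℕ := ⌊x / (32 * D)⌋₊ with hm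
  have hm1 : 1 ≤ m := by
    rw [hm, Nat.one_le_floor_iff, le_div_iff₀ (by positivity), one_mul]
    exact hx32
  have hm1' : (1 : ℝ) ≤ m := by exact_mod_cast hm1
  have hm2 : (m : ℝ) ≤ x / (32 * D) := Nat.floor_le (by positivity)
  have hm3 : x / (32 * D) < m + 1 := Nat.lt_floor_add_one _
  have hm4 : x / (64 * D) ≤ m := by
    have : x / (64 * D) = (x / (32 * D)) / 2 := by
      field_simp
      ring
    rw [this]
    linarith
  have hm5 : 32 * (D : ℝ) * m ≤ x := by
    rw [le_div_iff₀ (by positivity)] at hm2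
    linarith
  refine ⟨m, hm1, ?_, ?_⟩
  · have h1 : 2 * (8 * D * m) ^ D + (2 * (8 * D * m)) ^ D ≤ (32 * D * m) ^ D := by
      have h2 : (32 * D * m) ^ D = 4 ^ D * (8 * D * m) ^ D := by
        rw [← mul_pow]; congr 1; ring
      have h3 : (2 * (8 * D * m)) ^ D = 2 ^ D * (8 * D * m) ^ D := by
        rw [← mul_pow]
      rw [h2, h3, ← add_mul]
      apply Nat.mul_le_mul_right
      have h4 : (4 : ℕ) ^ D = 2 ^ D * 2 ^ D := by
        rw [← mul_pow]
        norm_num
      have h5 : 2 ≤ 2 ^ D := by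
        calc 2 = 2 ^ 1 := rfl
          _ ≤ 2 ^ D := Nat.pow_le_pow_right (by norm_num) hD
      rw [h4]
      nlinarith
    have h2 : (((32 * D * m) ^ D : ℕ) : ℝ) ≤ n := by
      push_cast
      rw [← hxD]
      exact pow_le_pow_left₀ (by positivity) hm5 D
    exact h1.trans (by exact_mod_cast h2)
  · intro q hq
    have h1 : m ^ (2 * D - 2) ≤ (8 * D * m) ^ D * q := by
      have h2 : D ≤ 8 ^ D * D ^ D := by
        calc D = 1 * D ^ 1 := by ring
          _ ≤ 8 ^ D * D ^ D := Nat.mul_le_mul (Nat.one_le_pow _ _ (by norm_num))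
              (Nat.pow_le_pow_right hD hD)
      have h3 : m ^ (2 * D - 2) * m ^ 2 ≤ (8 * D * m) ^ D * q * m ^ 2 := by
        calc m ^ (2 * D - 2) * m ^ 2 = m ^ D * m ^ D := by
              rw [← pow_add, ← pow_add]; congr 1; omega
          _ ≤ m ^ D * (D * m ^ 2 * q) := Nat.mul_le_mul_left _ hq
          _ = D * (m ^ D * m ^ 2 * q) := by ring
          _ ≤ (8 ^ D * D ^ D) * (m ^ D * m ^ 2 * q) := Nat.mul_le_mul_right _ h2
          _ = (8 * D * m) ^ D * q * m ^ 2 := by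
              rw [mul_pow, mul_pow]; ring
      exact Nat.le_of_mul_le_mul_right h3 (by positivity)
    have h2 : (n : ℝ) ^ (2 - 2 / (D : ℝ)) = x ^ (2 * D - 2) := by
      rw [hx, ← Real.rpow_natCast, ← Real.rpow_mul hn0]
      congr 1
      rw [Nat.cast_sub (by omega)]
      push_cast
      field_simp
    calc ((64 * (D : ℝ)) ^ (2 * D - 2))⁻¹ * (n : ℝ) ^ (2 - 2 / (D : ℝ)) =
        (x / (64 * D)) ^ (2 * D - 2) := by
          rw [h2, div_pow, div_eq_mul_inv, mul_comm]
      _ ≤ (m : ℝ) ^ (2 * D - 2) := pow_le_pow_left₀ (by positivity) hm4 _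
      _ ≤ (((8 * D * m) ^ D * q : ℕ) : ℝ) := by exact_mod_cast h1

end Pool.Agent.W417.BV
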