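import Pool.Agent.W842.BV.Stms

/-!
# The dyadic sum
-/

set_option autoImplicit false

open Finset

namespace Pool.Agent.W417.BV

theorem dya_pt (n s r0 fb : ℕ) (hs : 1 ≤ s) (hr : 1 ≤ r0) (hfb : fb ≤ n) :
    fb ≤ 2 * s * r0 + ∑ j ∈ range n, if 2 * s * (r0 * 2 ^ j) ≤ fb then
      2 ^ (j + 1) * (2 * s * r0) else 0 := by
  by_cases h : 2 * s * r0 ≤ fb
  · have hpos : 0 < 2 * s * r0 := by positivity
    set q := fb / (2 * s * r0) with hq
    have hq1 : 1 ≤ q := (Nat.one_le_div_iff hpos).2 h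
    set j := Nat.log 2 q with hj
    have h1 : 2 ^ j ≤ q := Nat.pow_log_le_self 2 (by omega)
    have h2 : q < 2 ^ (j + 1) := Nat.lt_pow_succ_log_self (by norm_num) q
    have h3 : 2 * s * r0 * q ≤ fb := Nat.mul_div_le fb _
    have h4 : fb < 2 * s * r0 * (q + 1) := by
      have := Nat.lt_mul_div_succ fb hpos
      exact this
    have h5 : 2 * s * (r0 * 2 ^ j) ≤ fb := by
      calc 2 * s * (r0 * 2 ^ j) = 2 * s * r0 * 2 ^ j := by ring
        _ ≤ 2 * s * r0 * q := Nat.mul_le_mul_left _ h1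
        _ ≤ fb := h3
    have h6 : fb ≤ 2 ^ (j + 1) * (2 * s * r0) := by
      calc fb ≤ 2 * s * r0 * (q + 1) := h4.le
        _ ≤ 2 * s * r0 * 2 ^ (j + 1) := Nat.mul_le_mul_left _ h2
        _ = _ := by ring
    have h7 : j < n := by
      have h8 : j < 2 ^ j := Nat.lt_two_pow_self
      have h9 : q ≤ fb := Nat.div_le_self _ _
      omega
    have h10 : (if 2 * s * (r0 * 2 ^ j) ≤ fb then 2 ^ (j + 1) * (2 * s * r0) else 0) ≤
        ∑ j ∈ range n, if 2 * s * (r0 * 2 ^ j) ≤ fb then 2 ^ (j + 1) * (2 * s * r0) else 0 :=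
      Finset.single_le_sum (f := fun j => if 2 * s * (r0 * 2 ^ j) ≤ fb then
        2 ^ (j + 1) * (2 * s * r0) else 0) (fun _ _ => Nat.zero_le _) (Finset.mem_range.2 h7)
    rw [if_pos h5] at h10
    omega
  · omega

theorem t_DYA : Pool.Agent.W842.BV.S_DYA := by
  intro n d s f hn hd hs hf hcount
  have hn0 : (0 : ℝ) < n := by exact_mod_cast hn
  have hn1 : (1 : ℝ) ≤ n := by exact_mod_cast hn
  have hd0 : (0 : ℝ) < d := by
    have : 0 < d := by omega
    exact_mod_cast this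
  have hd1 : (1 : ℝ) ≤ d := by
    have : 1 ≤ d := by omega
    exact_mod_cast this
  have hs1 : (1 : ℝ) ≤ s := by exact_mod_cast hs
  set x : ℝ := (n : ℝ) ^ (1 - 1 / (d : ℝ)) with hx
  have hexp : 0 ≤ 1 - 1 / (d : ℝ) := by
    rw [sub_nonneg, div_le_one hd0]
    exact hd1
  have hx1 : 1 ≤ x := Real.one_le_rpow hn1 hexp
  have hx0 : 0 < x := by linarith
  have hxd : x ^ d * n = (n : ℝ) ^ d := by
    rw [hx, ← Real.rpow_natCast, ← Real.rpow_mul hn0.le, ← Real.rpow_natCast (n : ℝ) d]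
    nth_rewrite 2 [← Real.rpow_one (n : ℝ)]
    rw [← Real.rpow_add hn0]
    congr 1
    field_simp
    ring
  have hxn : (n : ℝ) ^ (2 - 1 / (d : ℝ)) = x * n := by
    rw [hx]
    nth_rewrite 3 [← Real.rpow_one (n : ℝ)]
    rw [← Real.rpow_add hn0]
    congr 1
    ring
  set r0 : ℕ := ⌈22 * x⌉₊ + s with hr0
  have hc1 : 22 * x ≤ (⌈22 * x⌉₊ : ℝ) := Nat.le_ceil _
  have hc2 : (⌈22 * x⌉₊ : ℝ) < 22 * x + 1 := Nat.ceil_lt_add_one (by positivity)
  have hc3 : 1 ≤ ⌈22 * x⌉₊ := Nat.one_le_ceil_iff.2 (by positivity)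
  have h1 : s + 1 ≤ r0 := by omega
  have hr1 : 1 ≤ r0 := by omega
  have hr0' : (r0 : ℝ) = (⌈22 * x⌉₊ : ℝ) + s := by rw [hr0]; push_cast; ring
  have h2 : 22 * x ≤ r0 := by rw [hr0']; linarith
  have h3 : (r0 : ℝ) ≤ 24 * s * x := by
    rw [hr0']
    nlinarith
  have hr0pos : (0 : ℝ) < r0 := by linarith
  have key : ∀ j : ℕ, ((univ.filter (fun b => 2 * s * (r0 * 2 ^ j) ≤ f b)).card : ℝ) ≤
      n * (1 / 4) ^ j := by
    intro j
    have hp : (0 : ℝ) < 2 ^ j := by positivity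
    by_cases hle : r0 * 2 ^ j ≤ n
    · have h4 := hcount (r0 * 2 ^ j) (by nlinarith [Nat.one_le_two_pow (n := j)]) hle
      refine h4.trans ?_
      have h5 : 22 * (n : ℝ) / ((r0 * 2 ^ j : ℕ) : ℝ) ≤ n / x * (1 / 2 ^ j) := by
        push_cast
        rw [div_mul_div_comm, mul_one, div_le_div_iff₀ (by positivity) (by positivity)]
        have : 22 * (n : ℝ) * (x * 2 ^ j) = (22 * x) * (n * 2 ^ j) := by ring
        rw [this]
        have : (n : ℝ) * (r0 * 2 ^ j) = r0 * (n * 2 ^ j) := by ring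
        rw [this]
        exact mul_le_mul_of_nonneg_right h2 (by positivity)
      have h6 : (22 * (n : ℝ) / ((r0 * 2 ^ j : ℕ) : ℝ)) ^ d ≤ (n / x * (1 / 2 ^ j)) ^ d :=
        pow_le_pow_left₀ (by positivity) h5 d
      refine h6.trans ?_
      rw [mul_pow, div_pow, ← hxd]
      have h7 : x ^ d * (n : ℝ) / x ^ d = n := by
        field_simp
      rw [h7]
      refine mul_le_mul_of_nonneg_left ?_ hn0.le
      rw [one_div, one_div, inv_pow, inv_pow, ← pow_mul]
      apply inv_anti₀ (by positivity)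
      have : (4 : ℝ) = 2 ^ 2 := by norm_num
      rw [this, ← pow_mul]
      apply pow_le_pow_right₀ (by norm_num)
      nlinarith
    · have h4 : (univ.filter (fun b => 2 * s * (r0 * 2 ^ j) ≤ f b)) = ∅ := by
        apply Finset.filter_false_of_mem
        intro b _ hb
        have := hf b
        have h5 : 1 * (r0 * 2 ^ j) ≤ 2 * s * (r0 * 2 ^ j) := Nat.mul_le_mul_right _ (by omega)
        omega
      rw [h4]
      simp only [Finset.card_empty, Nat.cast_zero]
      positivity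
  have hsum : ((∑ b, f b : ℕ) : ℝ) ≤ 2 * s * r0 * n + ∑ j ∈ range n,
      2 ^ (j + 1) * (2 * s * r0) * ((univ.filter (fun b => 2 * s * (r0 * 2 ^ j) ≤ f b)).card : ℝ) := by
    have h4 : ∑ b, f b ≤ ∑ b : Fin n, (2 * s * r0 + ∑ j ∈ range n,
        if 2 * s * (r0 * 2 ^ j) ≤ f b then 2 ^ (j + 1) * (2 * s * r0) else 0) :=
      Finset.sum_le_sum fun b _ => dya_pt n s r0 (f b) hs hr1 (hf b)
    rw [Finset.sum_add_distrib, Finset.sum_comm] at h4
    have h5 : ∀ j, (∑ b : Fin n, if 2 * s * (r0 * 2 ^ j) ≤ f b then 2 ^ (j + 1) * (2 * s * r0)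
        else 0) = 2 ^ (j + 1) * (2 * s * r0) *
          (univ.filter (fun b => 2 * s * (r0 * 2 ^ j) ≤ f b)).card := by
      intro j
      rw [← Finset.sum_filter, Finset.sum_const, smul_eq_mul, mul_comm]
    simp only [h5, Finset.sum_const, Finset.card_univ, Fintype.card_fin, smul_eq_mul] at h4
    have h6 : ((∑ b, f b : ℕ) : ℝ) ≤ ((n * (2 * s * r0) + ∑ j ∈ range n,
        2 ^ (j + 1) * (2 * s * r0) *
          (univ.filter (fun b => 2 * s * (r0 * 2 ^ j) ≤ f b)).card : ℕ) : ℝ) := by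
      exact_mod_cast h4
    refine h6.trans (le_of_eq ?_)
    push_cast
    ring
  have hsum2 : ∑ j ∈ range n, 2 ^ (j + 1) * (2 * (s : ℝ) * r0) *
      ((univ.filter (fun b => 2 * s * (r0 * 2 ^ j) ≤ f b)).card : ℝ) ≤ 8 * s * r0 * n := by
    calc _ ≤ ∑ j ∈ range n, 2 ^ (j + 1) * (2 * (s : ℝ) * r0) * (n * (1 / 4) ^ j) := by
          refine Finset.sum_le_sum fun j _ => mul_le_mul_of_nonneg_left (key j) (by positivity)
      _ = (4 * s * r0 * n) * ∑ j ∈ range n, (1 / 2 : ℝ) ^ j := by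
          rw [Finset.mul_sum]
          refine Finset.sum_congr rfl fun j _ => ?_
          have : (1 / 4 : ℝ) = (1 / 2) * (1 / 2) := by norm_num
          rw [this, mul_pow]
          have h2' : (2 : ℝ) ^ (j + 1) * (1 / 2) ^ j = 2 := by
            rw [pow_succ, mul_right_comm, ← mul_pow]
            norm_num
          calc (2 : ℝ) ^ (j + 1) * (2 * (s : ℝ) * r0) * (n * ((1 / 2) ^ j * (1 / 2) ^ j)) =
              (2 ^ (j + 1) * (1 / 2) ^ j) * (2 * (s : ℝ) * r0 * n) * (1 / 2) ^ j := by ring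
            _ = _ := by rw [h2']; ring
      _ ≤ (4 * s * r0 * n) * 2 := by
          refine mul_le_mul_of_nonneg_left ?_ (by positivity)
          have h8 : ∀ m : ℕ, ∑ j ∈ range m, (1 / 2 : ℝ) ^ j = 2 - 2 * (1 / 2) ^ m := by
            intro m
            induction m with
            | zero => simp
            | succ m ih => rw [Finset.sum_range_succ, ih, pow_succ]; ring
          rw [h8]
          have : (0 : ℝ) ≤ (1 / 2) ^ n := by positivity
          linarith
      _ = 8 * s * r0 * n := by ring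
  rw [hxn]
  calc ((∑ b, f b : ℕ) : ℝ) ≤ 2 * s * r0 * n + 8 * s * r0 * n := hsum.trans (by linarith)
    _ = 10 * s * n * r0 := by ring
    _ ≤ 10 * s * n * (24 * s * x) := mul_le_mul_of_nonneg_left h3 (by positivity)
    _ = 240 * (s : ℝ) ^ 2 * (x * n) := by ring

end Pool.Agent.W417.BV
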