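import Mathlib

set_option autoImplicit false
open Polynomial

namespace Pool.Agent.W417.Pyth

/-- evaluation at `0` and `i ↦ 1` modulo `2` -/
noncomputable def phiG : GaussianInt →+* ZMod 2 :=
  Zsqrtd.lift (d := -1) ⟨(1 : ZMod 2), by decide⟩

noncomputable def phi : GaussianInt[X] →+* ZMod 2 := phiG.comp (Polynomial.evalRingHom 0)

lemma phiG_apply (z : GaussianInt) : phiG z = (z.re : ZMod 2) + z.im := by
  simp [phiG, Zsqrtd.lift]

lemma mem_ker_phiG (z : GaussianInt) : phiG z = 0 ↔ (⟨1, 1⟩ : GaussianInt) ∣ z := by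
  rw [phiG_apply]
  constructor
  · intro h
    have h2 : ((z.re + z.im : ℤ) : ZMod 2) = 0 := by push_cast; exact h
    rw [ZMod.intCast_zmod_eq_zero_iff_dvd] at h2
    obtain ⟨k, hk⟩ := h2
    push_cast at hk
    refine ⟨⟨k, k - z.re⟩, ?_⟩
    ext
    · simp [Zsqrtd.re_mul]
    · simp [Zsqrtd.im_mul]; omega
  · rintro ⟨w, rfl⟩
    simp only [Zsqrtd.re_mul, Zsqrtd.im_mul]
    push_cast
    have h2 : (2 : ZMod 2) = 0 := by decide
    linear_combination (w.re : ZMod 2) * h2

noncomputable abbrev P : Ideal GaussianInt[X] := RingHom.ker phi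

instance : P.IsPrime := RingHom.ker_isPrime phi

lemma P_eq : P = Ideal.span {C (⟨1, 1⟩ : GaussianInt), X} := by
  apply le_antisymm
  · intro f hf
    have h0 : phiG (f.coeff 0) = 0 := by
      have : phi f = 0 := hf
      simpa [phi, Polynomial.coeff_zero_eq_eval_zero] using this
    obtain ⟨w, hw⟩ := (mem_ker_phiG _).1 h0
    rw [Ideal.mem_span_pair]
    refine ⟨C w, f.divX, ?_⟩
    conv_rhs => rw [← Polynomial.divX_mul_X_add f]
    rw [hw, C_mul]
    ring
  · rw [Ideal.span_le]
    rintro x (rfl | rfl)
    · change phi _ = 0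
      simp [phi, phiG_apply]
      decide
    · change phi _ = 0
      simp [phi]

abbrev R : Type := Localization.AtPrime P

lemma height_P : P.height = 2 := by
  apply le_antisymm
  · have h := Ideal.height_le_card_of_mem_minimalPrimes_span (R := GaussianInt[X]) (p := P)
      (s := {C (⟨1, 1⟩ : GaussianInt), X}) (Set.toFinite _) (by
        rw [← P_eq]
        rw [Ideal.minimalPrimes_eq_subsingleton_self]
        rfl)
    refine h.trans ?_
    exact_mod_cast Set.ncard_insert_le _ _ |>.trans (by simp)
  · have hX : (Ideal.span {(X : GaussianInt[X])}).IsPrime := by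
      rw [Ideal.span_singleton_prime X_ne_zero]
      exact Polynomial.prime_X
    have h1 : (⊥ : Ideal GaussianInt[X]) < Ideal.span {(X : GaussianInt[X])} := by
      rw [bot_lt_iff_ne_bot, Ne, Ideal.span_singleton_eq_bot]
      exact X_ne_zero
    have h2 : Ideal.span {(X : GaussianInt[X])} < P := by
      rw [lt_iff_le_and_ne]
      refine ⟨?_, ?_⟩
      · rw [P_eq]
        exact Ideal.span_mono (by simp)
      · intro h
        have h3 : C (⟨1, 1⟩ : GaussianInt) ∈ Ideal.span {(X : GaussianInt[X])} := by
          rw [h, P_eq]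
          exact Ideal.subset_span (by simp)
        rw [Ideal.mem_span_singleton, Polynomial.X_dvd_iff] at h3
        simp only [coeff_C_zero] at h3
        have := congrArg Zsqrtd.re h3
        simp at this
    have a1 := Ideal.height_add_one_le_of_lt_of_isPrime h1
    have a2 := Ideal.height_add_one_le_of_lt_of_isPrime h2
    calc (2 : ℕ∞) = 0 + 1 + 1 := by norm_num
      _ ≤ (⊥ : Ideal GaussianInt[X]).height + 1 + 1 := by gcongr; exact zero_le
      _ ≤ (Ideal.span {(X : GaussianInt[X])}).height + 1 := by gcongr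
      _ ≤ P.height := a2

lemma dim_R : ringKrullDim R = 2 := by
  rw [IsLocalization.AtPrime.ringKrullDim_eq_height P R, height_P]
  rfl

lemma max_R : ∃ a b : R, IsLocalRing.maximalIdeal R = Ideal.span {a, b} := by
  refine ⟨algebraMap GaussianInt[X] R (C (⟨1, 1⟩ : GaussianInt)),
    algebraMap GaussianInt[X] R X, ?_⟩
  rw [← Localization.AtPrime.map_eq_maximalIdeal (I := P)]
  have h : ∀ I : Ideal GaussianInt[X], I = P → Ideal.map (algebraMap GaussianInt[X] R) P =
      Ideal.map (algebraMap GaussianInt[X] R) I := by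
    rintro I rfl
    rfl
  rw [h _ P_eq.symm, Ideal.map_span, Set.image_pair]

/-- `X ^ 2 + 2` is irreducible over the Gaussian integers. -/
lemma prime_f : Prime (X ^ 2 + 2 : GaussianInt[X]) := by
  have hm : (X ^ 2 + C 2 : GaussianInt[X]).Monic := monic_X_pow_add_C 2 (by norm_num)
  have h2 : (C 2 : GaussianInt[X]) = 2 := rfl
  rw [h2] at hm
  apply Irreducible.prime
  rw [hm.irreducible_iff_roots_eq_zero_of_degree_le_three]
  · rw [Multiset.eq_zero_iff_forall_notMem]
    intro z hz
    rw [mem_roots hm.ne_zero, IsRoot.def] at hz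
    simp only [eval_add, eval_pow, eval_X, eval_ofNat] at hz
    have hre := congrArg Zsqrtd.re hz
    have him := congrArg Zsqrtd.im hz
    have e1 : (2 : GaussianInt).re = 2 := rfl
    have e2 : (2 : GaussianInt).im = 0 := rfl
    simp [pow_two, Zsqrtd.re_mul, Zsqrtd.im_mul] at hre him
    have h3 : z.re * z.im = 0 := by linarith
    rcases mul_eq_zero.1 h3 with h | h
    · rw [h] at hre
      have : z.im * z.im = 2 := by linarith
      have h4 : z.im ≤ 1 := by nlinarith
      have h5 : -1 ≤ z.im := by nlinarith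
      interval_cases hh : z.im <;> omega
    · rw [h] at hre
      nlinarith
  · rw [← h2, natDegree_X_pow_add_C]
  · rw [← h2, natDegree_X_pow_add_C]
    norm_num

noncomputable def iR : R := algebraMap GaussianInt[X] R (C (⟨0, 1⟩ : GaussianInt))

lemma iR_sq : iR * iR = -1 := by
  rw [iR, ← map_mul, ← C_mul]
  have : (⟨0, 1⟩ : GaussianInt) * ⟨0, 1⟩ = -1 := by decide
  rw [this]
  simp

/-- `X ^ 2 + 2` is not a sum of two squares in `R`. -/
lemma not_two (a b : R) (h : algebraMap GaussianInt[X] R (X ^ 2 + 2) = a ^ 2 + b ^ 2) : False := by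
  have h1 : algebraMap GaussianInt[X] R (X ^ 2 + 2) = (a + iR * b) * (a - iR * b) := by
    rw [h]
    linear_combination b ^ 2 * iR_sq
  obtain ⟨⟨A, s⟩, hA⟩ := IsLocalization.surj P.primeCompl (a + iR * b)
  obtain ⟨⟨B, t⟩, hB⟩ := IsLocalization.surj P.primeCompl (a - iR * b)
  simp only at hA hB
  have h2 : (X ^ 2 + 2) * ((s : GaussianInt[X]) * (t : GaussianInt[X])) = A * B := by
    apply IsLocalization.injective R P.primeCompl_le_nonZeroDivisors
    rw [map_mul, map_mul, map_mul, h1, ← hA, ← hB]
    ring
  have hs : (s : GaussianInt[X]) ∉ P := s.2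
  have ht : (t : GaussianInt[X]) ∉ P := t.2
  have hf : (X ^ 2 + 2 : GaussianInt[X]) ∈ P := by
    change phi _ = 0
    simp [phi]
    decide
  -- `A ∈ P ↔ B ∈ P`
  have hmem : ∀ (x y : R) (A B : GaussianInt[X]) (s t : P.primeCompl),
      x * algebraMap GaussianInt[X] R s = algebraMap GaussianInt[X] R A →
      y * algebraMap GaussianInt[X] R t = algebraMap GaussianInt[X] R B →
      x - y ∈ IsLocalRing.maximalIdeal R → A ∈ P → B ∈ P := by
    intro x y A B s t hx hy hxy hA
    have hxm : x ∈ IsLocalRing.maximalIdeal R := by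
      have : x * algebraMap GaussianInt[X] R s ∈ IsLocalRing.maximalIdeal R := by
        rw [hx, ← Localization.AtPrime.map_eq_maximalIdeal]
        exact Ideal.mem_map_of_mem _ hA
      rcases (IsLocalRing.maximalIdeal.isMaximal R).isPrime.mem_or_mem this with h | h
      · exact h
      · exfalso
        exact h (IsLocalization.map_units R s)
    have hym : y ∈ IsLocalRing.maximalIdeal R := by
      have := (IsLocalRing.maximalIdeal R).sub_mem hxm hxy
      simpa using this
    have hBm : algebraMap GaussianInt[X] R B ∈ IsLocalRing.maximalIdeal R := by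
      rw [← hy]
      exact Ideal.mul_mem_right _ _ hym
    have := IsLocalization.AtPrime.under_maximalIdeal R P
    rw [← this]
    exact hBm
  have h2m : (2 : R) ∈ IsLocalRing.maximalIdeal R := by
    have : (2 : R) = algebraMap GaussianInt[X] R 2 := by rw [map_ofNat]
    rw [this, ← Localization.AtPrime.map_eq_maximalIdeal]
    apply Ideal.mem_map_of_mem
    change phi 2 = 0
    rw [map_ofNat]
    decide
  rcases prime_f.dvd_or_dvd (Dvd.intro _ h2) with hd | hd
  · obtain ⟨A', rfl⟩ := hd
    have hAP : (X ^ 2 + 2) * A' ∈ P := Ideal.mul_mem_right _ _ hf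
    have hBP := hmem _ _ _ _ s t hA hB (by
      have : a + iR * b - (a - iR * b) = 2 * (iR * b) := by ring
      rw [this]
      exact Ideal.mul_mem_right _ _ h2m) hAP
    have h3 : (s : GaussianInt[X]) * (t : GaussianInt[X]) = A' * B := by
      apply mul_left_cancel₀ prime_f.ne_zero
      rw [h2]; ring
    have h4 : (s : GaussianInt[X]) * (t : GaussianInt[X]) ∈ P := by
      rw [h3]; exact Ideal.mul_mem_left _ _ hBP
    rcases (inferInstance : P.IsPrime).mem_or_mem h4 with h | h
    · exact hs h
    · exact ht h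
  · obtain ⟨B', rfl⟩ := hd
    have hBP : (X ^ 2 + 2) * B' ∈ P := Ideal.mul_mem_right _ _ hf
    have hAP := hmem _ _ _ _ t s hB hA (by
      have : a - iR * b - (a + iR * b) = 2 * (- (iR * b)) := by ring
      rw [this]
      exact Ideal.mul_mem_right _ _ h2m) hBP
    have h3 : (s : GaussianInt[X]) * (t : GaussianInt[X]) = A * B' := by
      apply mul_left_cancel₀ prime_f.ne_zero
      rw [h2]; ring
    have h4 : (s : GaussianInt[X]) * (t : GaussianInt[X]) ∈ P := by
      rw [h3]; exact Ideal.mul_mem_right _ _ hAP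
    rcases (inferInstance : P.IsPrime).mem_or_mem h4 with h | h
    · exact hs h
    · exact ht h

lemma sumsq_R : IsSumSq (algebraMap GaussianInt[X] R (X ^ 2 + 2)) := by
  have h : algebraMap GaussianInt[X] R (X ^ 2 + 2) =
      algebraMap GaussianInt[X] R X * algebraMap GaussianInt[X] R X + (1 * 1 + (1 * 1 + 0)) := by
    rw [map_add, map_pow, map_ofNat]
    ring
  rw [h]
  exact .sq_add _ (.sq_add _ (.sq_add _ .zero))

lemma two_ne : (2 : R) ≠ 0 := by
  intro h0
  have h5 : algebraMap GaussianInt[X] R 2 = algebraMap GaussianInt[X] R 0 := by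
    rw [map_ofNat, map_zero]; exact h0
  have h6 := IsLocalization.injective R P.primeCompl_le_nonZeroDivisors h5
  have h7 := congrArg (fun p => Polynomial.coeff p 0) h6
  simp only [Polynomial.coeff_zero, Polynomial.coeff_ofNat_zero] at h7
  have h8 := congrArg Zsqrtd.re h7
  exact absurd h8 (by decide)

/-- In a field of characteristic different from two which contains a square root of `-1`, every
element is a sum of two squares. -/
lemma two_squares (K : Type) [Field K] (i : K) (hi : i * i = -1) (h2 : (2 : K) ≠ 0) (x : K) :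
    ∃ f : Fin 2 → K, x = ∑ j, f j ^ 2 := by
  refine ⟨![(x + 1) / 2, i * ((x - 1) / 2)], ?_⟩
  rw [Fin.sum_univ_two]
  simp only [Matrix.cons_val_zero, Matrix.cons_val_one]
  field_simp
  linear_combination (-(x - 1) ^ 2) * hi

/-- If the two-dimensional regular local domain `A` contains a square root of `-1` and a sum of
squares which is not a sum of two squares, then the Pythagoras numbers of `A` and of its field of
fractions differ. -/
lemma disagree (A : Type) [CommRing A] [IsDomain A] [IsLocalRing A] [IsNoetherianRing A]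
    (hd : ringKrullDim A = 2) (hm : ∃ a b : A, IsLocalRing.maximalIdeal A = Ideal.span {a, b})
    (i : A) (hi : i * i = -1) (h2 : (2 : A) ≠ 0) (x : A) (hx : IsSumSq x)
    (hn : ∀ a b : A, x = a ^ 2 + b ^ 2 → False) :
    ¬ (∀ (R : Type) [CommRing R] [IsDomain R] [IsLocalRing R] [IsNoetherianRing R],
      ringKrullDim R = 2 →
      (∃ a b : R, IsLocalRing.maximalIdeal R = Ideal.span {a, b}) →
      ∀ (K : Type) [Field K] [Algebra R K] [IsFractionRing R K],
      ∀ n : ℕ,
        ((∀ x : R, IsSumSq x → ∃ f : Fin n → R, x = ∑ i, f i ^ 2) ↔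
          (∀ x : K, IsSumSq x → ∃ f : Fin n → K, x = ∑ i, f i ^ 2))) := by
  intro H
  have h := (H A hd hm (FractionRing A) 2).2 ?_
  · obtain ⟨f, hf⟩ := h _ hx
    rw [Fin.sum_univ_two] at hf
    exact hn _ _ hf
  · intro y _
    refine two_squares _ (algebraMap A (FractionRing A) i) ?_ ?_ y
    · rw [← map_mul, hi, map_neg, map_one]
    · intro h0
      apply h2
      apply IsFractionRing.injective A (FractionRing A)
      rw [map_ofNat, map_zero]; exact h0

end Pool.Agent.W417.Pyth
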