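import Pool.Agent.W417.FS5

set_option autoImplicit false

namespace Pool.Agent.W417.FS

open Polynomial

variable {K : Type} [Field K] (T : Tower K)

/-- the three constants -/
noncomputable def Tower.lam (i : Fin 3) (t : ℕ) : K := if i = 0 then 0 else if i = 1 then 1 else T.p t

lemma Tower.lam_mem (i : Fin 3) (t : ℕ) : T.lam i t ∈ T.kn (t + 1) := by
  unfold Tower.lam
  split_ifs
  · exact zero_mem _
  · exact one_mem _
  · exact T.p_mem t

theorem Tower.no_psi [CharP K 2] (q : ℕ) (hq : 1 ≤ q) (ψ : T.R →+ T.R)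
    (hψ : ∀ r x : T.R, ψ (r ^ q * x) = r * ψ x) (h1 : ψ T.x = 1) : False := by
  choose α hα β hβ Q hQ hdiv using fun t => T.exists_div t q
  have hdeg : ∀ t, (T.G t * Q t).natDegree ≤ q + 1 := by
    intro t
    have : T.G t * Q t = X ^ q - (C (β t) * X + C (α t)) := by rw [hdiv t]; ring
    rw [this]
    refine (natDegree_sub_le _ _).trans (max_le ?_ ?_)
    · rw [natDegree_X_pow]; omega
    · exact natDegree_linear_le.trans (by omega)
  have hEm : ∀ t, PowerSeries.C (T.G t * Q t) * PowerSeries.X ^ (q + 1) ∈ T.Rn 0 := by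
    intro t
    rw [← monomial_eq]
    exact monomial_mem_Rs (hdeg t) (T.U_le_V (T.G_mul_mem_U (Nat.zero_le _) (hQ t)))
  set E : ℕ → T.R := fun t => ⟨_, T.Rn_le_R 0 (hEm t)⟩ with hE
  have hcm : ∀ t, PowerSeries.C (C (α t) + C (β t) * X) * PowerSeries.X ^ 1 ∈ T.Rn (t + 1) := by
    intro t
    rw [← monomial_eq]
    refine monomial_mem_Rs ?_ ?_
    · rw [add_comm]
      exact natDegree_linear_le
    · exact T.Kz_le_V _ (add_mem (T.C_mem_Kz (hα t)) (mul_mem (T.C_mem_Kz (hβ t)) (T.X_mem_Kz _)))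
  set c' : ℕ → T.R := fun t => ⟨_, T.Rn_le_R (t + 1) (hcm t)⟩ with hc'
  have hy : T.y.1 = PowerSeries.C X * PowerSeries.X := by
    show PowerSeries.monomial 1 (X : K[X]) = _
    rw [monomial_eq, pow_one]
  have hx : T.x.1 = PowerSeries.X := rfl
  have hEeq : ∀ t, E t = T.y ^ q * T.x - T.x ^ q * c' t := by
    intro t
    apply Subtype.ext
    show PowerSeries.C (T.G t * Q t) * PowerSeries.X ^ (q + 1) =
      T.y.1 ^ q * T.x.1 - T.x.1 ^ q * (PowerSeries.C (C (α t) + C (β t) * X) * PowerSeries.X ^ 1)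
    have h2 : T.G t * Q t = X ^ q - (C (α t) + C (β t) * X) := by rw [hdiv t]; ring
    rw [hy, hx, h2, map_sub, map_pow]
    ring
  have hW : ∀ t, ψ (E t) = T.y - T.x * ψ (c' t) := by
    intro t
    rw [hEeq, map_sub, hψ, hψ, h1, mul_one]
  -- constants
  have hlm : ∀ i t, (PowerSeries.C (C (T.lam i t)) : PowerSeries K[X]) ∈ T.Rn (t + 1) := by
    intro i t
    have : (PowerSeries.C (C (T.lam i t)) : PowerSeries K[X]) =
        PowerSeries.monomial 0 (C (T.lam i t)) := by rw [monomial_eq, pow_zero, mul_one]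
    rw [this]
    exact monomial_mem_Rs (by simp) (T.Kz_le_V _ (T.C_mem_Kz (T.lam_mem i t)))
  set cst : Fin 3 → ℕ → T.R := fun i t => ⟨_, T.Rn_le_R (t + 1) (hlm i t)⟩ with hcst
  -- the sequences
  have hZ : ∀ ω : ℕ → Fin 3, ∃ Z : ℕ → T.R,
      ∀ s, Z s = (cst (ω s) s) ^ q * E s + (T.x ^ 2) ^ q * Z (s + 1) := by
    intro ω
    obtain ⟨Z, hZ, hZs⟩ := exists_sum2 (T.V 0)
      (fun s => (PowerSeries.C (C (T.lam (ω s) s))) ^ q *
        (PowerSeries.C (T.G s * Q s) * PowerSeries.X ^ (q + 1))) (fun s => by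
          have : (PowerSeries.C (C (T.lam (ω s) s)) : PowerSeries K[X]) ^ q *
              (PowerSeries.C (T.G s * Q s) * PowerSeries.X ^ (q + 1)) =
              PowerSeries.monomial (q + 1) (T.G s * (C (T.lam (ω s) s) ^ q * Q s)) := by
            rw [monomial_eq, map_mul, map_mul, map_mul, map_pow]
            ring
          rw [this]
          refine monomial_mem_Rs ?_ ?_
          · have h3 : T.G s * (C (T.lam (ω s) s) ^ q * Q s) =
                C (T.lam (ω s) s ^ q) * (T.G s * Q s) := by rw [C_pow]; ring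
            rw [h3]
            exact (natDegree_C_mul_le _ _).trans (hdeg s)
          · exact T.U_le_V (T.G_mul_mem_U (Nat.zero_le _)
              (mul_mem (pow_mem (T.C_mem_Kz (T.lam_mem _ _)) _) (hQ s)))) (2 * q) (by omega)
    refine ⟨fun s => ⟨Z s, T.Rn_le_R 0 (hZ s)⟩, ?_⟩
    intro s
    apply Subtype.ext
    show Z s = (PowerSeries.C (C (T.lam (ω s) s))) ^ q *
        (PowerSeries.C (T.G s * Q s) * PowerSeries.X ^ (q + 1)) +
        (PowerSeries.X ^ 2) ^ q * Z (s + 1)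
    rw [hZs s, ← pow_mul]
  choose Z hZs using hZ
  have hψZ : ∀ ω s, ψ (Z ω s) = cst (ω s) s * ψ (E s) + T.x ^ 2 * ψ (Z ω (s + 1)) := by
    intro ω s
    rw [hZs ω s, map_add, hψ, hψ]
  have hdiff : ∀ (t : ℕ) (ω ω' : ℕ → Fin 3), (∀ i < t, ω i = ω' i) →
      ψ (Z ω 0) - ψ (Z ω' 0) = T.x ^ (2 * t) * (ψ (Z ω t) - ψ (Z ω' t)) := by
    intro t
    induction t with
    | zero => intro ω ω' _; rw [mul_zero, pow_zero, one_mul]
    | succ t ih =>
      intro ω ω' h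
      rw [ih ω ω' (fun i hi => h i (by omega)), hψZ ω t, hψZ ω' t, h t (by omega)]
      ring
  -- Baire
  obtain ⟨n, ω₀, T0, hB⟩ := baire (fun n ω => T.Cls n (ψ (Z ω 0)).1)
    (fun ω => T.exists_Cls (ψ (Z ω 0)).2)
  set t := max n T0 with ht
  have hchoose : ∀ i : Fin 3, ∃ ω : ℕ → Fin 3, (∀ s < t, ω s = ω₀ s) ∧ ω t = i ∧
      T.Cls n (ψ (Z ω 0)).1 := by
    intro i
    obtain ⟨ω, hω, hcl⟩ := hB (fun s => if s < t then ω₀ s else i) (by
      intro s hs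
      have : s < t := lt_of_lt_of_le hs (le_max_right _ _)
      rw [if_pos this]) (t + 1)
    refine ⟨ω, fun s hs => ?_, ?_, hcl⟩
    · rw [hω s (by omega), if_pos hs]
    · rw [hω t (by omega), if_neg (lt_irrefl t)]
  obtain ⟨ω0, ha0, hb0, hc0⟩ := hchoose 0
  obtain ⟨ω1, ha1, hb1, hc1⟩ := hchoose 1
  obtain ⟨ω2, ha2, hb2, hc2⟩ := hchoose 2
  -- constants
  have hC0 : ∃ γ : K, PowerSeries.coeff 0 (ψ (c' t)).1 = C γ := by
    have h3 := ((ψ (c' t)).2.1 0).1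
    rw [Nat.le_zero] at h3
    exact ⟨_, eq_C_of_natDegree_eq_zero h3⟩
  obtain ⟨γ, hγ⟩ := hC0
  have hcst0 : cst 0 t = 0 := by
    apply Subtype.ext
    show (PowerSeries.C (C (T.lam 0 t)) : PowerSeries K[X]) = 0
    simp [Tower.lam]
  have hcst1 : cst 1 t = 1 := by
    apply Subtype.ext
    show (PowerSeries.C (C (T.lam 1 t)) : PowerSeries K[X]) = 1
    simp [Tower.lam]
  have hcst2 : (cst 2 t).1 = PowerSeries.C (C (T.p t)) := by
    show (PowerSeries.C (C (T.lam 2 t)) : PowerSeries K[X]) = _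
    simp [Tower.lam]
  have hW' : (ψ (E t)).1 = PowerSeries.X * (PowerSeries.C X - (ψ (c' t)).1) := by
    rw [hW t]
    show T.y.1 - T.x.1 * (ψ (c' t)).1 = _
    rw [hy, hx]
    ring
  have hd1 : ψ (Z ω1 0) - ψ (Z ω0 0) = T.x ^ (2 * t) * (ψ (E t) + T.x ^ 2 *
      (ψ (Z ω1 (t + 1)) - ψ (Z ω0 (t + 1)))) := by
    rw [hdiff t ω1 ω0 (fun i hi => by rw [ha1 i hi, ha0 i hi]), hψZ ω1 t, hψZ ω0 t, hb1, hb0,
      hcst0, hcst1]
    ring
  have hd2 : ψ (Z ω2 0) - ψ (Z ω0 0) = T.x ^ (2 * t) * (cst 2 t * ψ (E t) + T.x ^ 2 *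
      (ψ (Z ω2 (t + 1)) - ψ (Z ω0 (t + 1)))) := by
    rw [hdiff t ω2 ω0 (fun i hi => by rw [ha2 i hi, ha0 i hi]), hψZ ω2 t, hψZ ω0 t, hb2, hb0,
      hcst0]
    ring
  refine T.final (le_max_left n T0 : n ≤ t) (m := 2 * t + 1) hc0 hc1 hc2 hγ
    (A1 := (ψ (Z ω1 (t + 1))).1 - (ψ (Z ω0 (t + 1))).1)
    (A2 := (ψ (Z ω2 (t + 1))).1 - (ψ (Z ω0 (t + 1))).1) ?_ ?_
  · have h3 := congrArg Subtype.val hd1
    have h4 : (ψ (Z ω1 0)).1 - (ψ (Z ω0 0)).1 = PowerSeries.X ^ (2 * t) * ((ψ (E t)).1 +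
      PowerSeries.X ^ 2 * ((ψ (Z ω1 (t + 1))).1 - (ψ (Z ω0 (t + 1))).1)) := h3
    rw [h4, hW']
    ring
  · have h3 := congrArg Subtype.val hd2
    have h4 : (ψ (Z ω2 0)).1 - (ψ (Z ω0 0)).1 = PowerSeries.X ^ (2 * t) *
      ((cst 2 t).1 * (ψ (E t)).1 +
      PowerSeries.X ^ 2 * ((ψ (Z ω2 (t + 1))).1 - (ψ (Z ω0 (t + 1))).1)) := h3
    rw [h4, hW', hcst2]
    ring

end Pool.Agent.W417.FS
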