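import Pool.Agent.W417.FS7

set_option autoImplicit false
set_option linter.unusedSectionVars false

namespace Pool.Agent.W417.FS

open MvPolynomial

variable (K : Type) [Field K] [Algebra PA K] [IsFractionRing PA K]

/-- exponents supported in the indices `< n` -/
def Below (n : ℕ) (e : (ℕ × Bool) →₀ ℕ) : Prop := ∀ i : ℕ × Bool, n ≤ i.1 → e i = 0

/-- the vector attached to a monomial, at level `n` -/
noncomputable def vv : ℕ → ((ℕ × Bool) →₀ ℕ) → (Fin 3 → K)
  | 0, _ => ![1, 0, 0]
  | n + 1, e => stp (algebraMap PA K (X (n, false))) (algebraMap PA K (X (n, true)))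
      (e (n, false)) (e (n, true)) (vv n e)

lemma vv_succ (n : ℕ) (e : (ℕ × Bool) →₀ ℕ) : vv K (n + 1) e =
    stp (algebraMap PA K (X (n, false))) (algebraMap PA K (X (n, true)))
      (e (n, false)) (e (n, true)) (vv K n e) := rfl

lemma vv_stable {n m : ℕ} {e : (ℕ × Bool) →₀ ℕ} (he : Below n e) (hm : n ≤ m) :
    vv K m e = vv K n e := by
  induction hm with
  | refl => rfl
  | @step m hm ih =>
    rw [vv_succ, he (m, false) hm, he (m, true) hm, stp_zero, ih]

/-- the vector attached to a monomial -/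
noncomputable def vinf (e : (ℕ × Bool) →₀ ℕ) : Fin 3 → K :=
  vv K (e.support.sup (fun i => i.1 + 1)) e

lemma vinf_eq {n : ℕ} {e : (ℕ × Bool) →₀ ℕ} (he : Below n e) : vinf K e = vv K n e := by
  have h1 : Below (e.support.sup (fun i => i.1 + 1)) e := by
    intro i hi
    by_contra hne
    have : i.1 + 1 ≤ e.support.sup (fun i => i.1 + 1) :=
      Finset.le_sup (f := fun i : ℕ × Bool => i.1 + 1) (Finsupp.mem_support_iff.mpr hne)
    omega
  unfold vinf
  rw [← vv_stable K h1 (le_max_left _ n), ← vv_stable K he (le_max_right _ n)]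

lemma vv_congr {n : ℕ} {e e' : (ℕ × Bool) →₀ ℕ} (h : ∀ i : ℕ × Bool, i.1 < n → e i = e' i) :
    vv K n e = vv K n e' := by
  induction n with
  | zero => rfl
  | succ n ih =>
    rw [vv_succ, vv_succ, h (n, false) (by simp), h (n, true) (by simp),
      ih fun i hi => h i (by omega)]

lemma vv_add_two (n : ℕ) (i : ℕ × Bool) (e : (ℕ × Bool) →₀ ℕ) :
    vv K n (e + Finsupp.single i 2) =
      (if i.1 < n then algebraMap PA K (X i) else 1) • vv K n e := by
  induction n with
  | zero => simp [vv]
  | succ n ih =>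
    obtain ⟨m, s⟩ := i
    rw [vv_succ, vv_succ, ih]
    simp only
    rcases lt_trichotomy m n with h | h | h
    · have h1 : ((m, s) : ℕ × Bool) ≠ (n, false) := by simp [h.ne]
      have h2 : ((m, s) : ℕ × Bool) ≠ (n, true) := by simp [h.ne]
      rw [Finsupp.add_apply, Finsupp.add_apply, Finsupp.single_apply, Finsupp.single_apply,
        if_neg h1, if_neg h2, add_zero, add_zero, if_pos h, if_pos (by omega), stp_smul]
    · subst h
      rw [if_neg (lt_irrefl m), if_pos (by omega), one_smul]
      cases s with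
      | false =>
        rw [Finsupp.add_apply, Finsupp.add_apply, Finsupp.single_apply, Finsupp.single_apply,
          if_pos rfl, if_neg (by simp), add_zero, stp_add_two_left]
      | true =>
        rw [Finsupp.add_apply, Finsupp.add_apply, Finsupp.single_apply, Finsupp.single_apply,
          if_neg (by simp), if_pos rfl, add_zero, stp_add_two_right]
    · have h1 : ((m, s) : ℕ × Bool) ≠ (n, false) := by simp [h.ne']
      have h2 : ((m, s) : ℕ × Bool) ≠ (n, true) := by simp [h.ne']
      rw [Finsupp.add_apply, Finsupp.add_apply, Finsupp.single_apply, Finsupp.single_apply,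
        if_neg h1, if_neg h2, add_zero, add_zero, if_neg (by omega), if_neg (by omega),
        one_smul, one_smul]

lemma vinf_add_two (i : ℕ × Bool) (e : (ℕ × Bool) →₀ ℕ) :
    vinf K (e + Finsupp.single i 2) = algebraMap PA K (X i) • vinf K e := by
  obtain ⟨n, hn⟩ : ∃ n, Below n e := by
    refine ⟨e.support.sup (fun i => i.1 + 1), fun i hi => ?_⟩
    by_contra hne
    have : i.1 + 1 ≤ e.support.sup (fun i => i.1 + 1) :=
      Finset.le_sup (f := fun i : ℕ × Bool => i.1 + 1) (Finsupp.mem_support_iff.mpr hne)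
    omega
  set m := max n (i.1 + 1) with hm
  have h1 : Below m e := fun j hj => hn j (le_trans (le_max_left _ _) hj)
  have h2 : Below m (e + Finsupp.single i 2) := by
    intro j hj
    have hne : i ≠ j := by
      rintro rfl
      have := le_max_right n (i.1 + 1)
      omega
    rw [Finsupp.add_apply, h1 j hj, Finsupp.single_apply, if_neg hne, add_zero]
  rw [vinf_eq K h1, vinf_eq K h2, vv_add_two, if_pos]
  have := le_max_right n (i.1 + 1)
  omega

variable [Algebra (ZMod 2) K]

/-- the vector-valued operator on polynomials -/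
noncomputable def lamA : PA →ₗ[ZMod 2] (Fin 3 → K) :=
  (basisMonomials (ℕ × Bool) (ZMod 2)).constr (ZMod 2) (vinf K)

lemma lamA_monomial (e : (ℕ × Bool) →₀ ℕ) : lamA K (monomial e 1) = vinf K e := by
  have := (basisMonomials (ℕ × Bool) (ZMod 2)).constr_basis (ZMod 2) (vinf K) e
  rwa [coe_basisMonomials] at this

/-- extensionality for additive maps on `R0 n` -/
lemma add_ext {M : Type} [AddCommMonoid M] (n : ℕ) (F G : PA → M)
    (hF0 : F 0 = 0) (hF : ∀ a b, F (a + b) = F a + F b)
    (hG0 : G 0 = 0) (hG : ∀ a b, G (a + b) = G a + G b)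
    (h : ∀ e, Below n e → F (monomial e 1) = G (monomial e 1)) : ∀ a ∈ R0 n, F a = G a := by
  intro a ha
  let F' : PA →+ M := ⟨⟨F, hF0⟩, hF⟩
  let G' : PA →+ M := ⟨⟨G, hG0⟩, hG⟩
  have key : F' a = G' a := by
    rw [a.as_sum, map_sum, map_sum]
    refine Finset.sum_congr rfl fun e he => ?_
    have h1 : coeff e a = 1 := by
      have h2 : coeff e a ≠ 0 := mem_support_iff.mp he
      generalize coeff e a = c at h2 ⊢
      revert c
      decide
    rw [h1]
    exact h e (mem_R0_support ha he)
  exact key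

lemma add_ext' {M : Type} [AddCommMonoid M] (F G : PA → M)
    (hF0 : F 0 = 0) (hF : ∀ a b, F (a + b) = F a + F b)
    (hG0 : G 0 = 0) (hG : ∀ a b, G (a + b) = G a + G b)
    (h : ∀ e, F (monomial e 1) = G (monomial e 1)) : ∀ a, F a = G a := by
  intro a
  obtain ⟨n, hn⟩ := exists_R0 a
  exact add_ext n F G hF0 hF hG0 hG (fun e _ => h e) a hn

lemma lamA_X_sq_mul (i : ℕ × Bool) (b : PA) :
    lamA K (X i ^ 2 * b) = algebraMap PA K (X i) • lamA K b := by
  refine add_ext' (fun b => lamA K (X i ^ 2 * b)) (fun b => algebraMap PA K (X i) • lamA K b)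
    ?_ ?_ ?_ ?_ ?_ b
  · simp only [mul_zero, map_zero]
  · intro a b
    simp only [mul_add, map_add]
  · simp only [map_zero, smul_zero]
  · intro a b
    simp only [map_add, smul_add]
  · intro e
    rw [lamA_monomial, ← vinf_add_two, ← lamA_monomial]
    congr 1
    rw [X_pow_eq_monomial, monomial_mul, one_mul, add_comm]

lemma lamA_sq_mul (a b : PA) : lamA K (a ^ 2 * b) = algebraMap PA K a • lamA K b := by
  induction a using MvPolynomial.induction_on generalizing b with
  | C c =>
    have hc : c = 0 ∨ c = 1 := by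
      revert c
      decide
    rcases hc with rfl | rfl
    · rw [map_zero]; simp
    · rw [map_one]; simp
  | add a a' ha ha' =>
    have : (a + a') ^ 2 * b = a ^ 2 * b + a' ^ 2 * b := by
      have h2 : (2 : PA) = 0 := CharTwo.two_eq_zero
      linear_combination (a * a' * b) * h2
    rw [this, map_add, ha, ha', map_add, add_smul]
  | mul_X a i ha =>
    have : (a * X i) ^ 2 * b = a ^ 2 * (X i ^ 2 * b) := by ring
    rw [this, ha, lamA_X_sq_mul, smul_smul, map_mul]

/-- components -/
noncomputable def lamC (s : Fin 3) : PA →+ K := (Pi.evalAddMonoidHom (fun _ => K) s).comp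
  (lamA K).toAddMonoidHom

lemma lamC_apply (s : Fin 3) (a : PA) : lamC K s a = lamA K a s := rfl

lemma lamC_sq_mul (s : Fin 3) (a b : PA) :
    lamC K s (a ^ 2 * b) = algebraMap PA K a * lamC K s b := by
  rw [lamC_apply, lamA_sq_mul, Pi.smul_apply, smul_eq_mul, lamC_apply]

lemma lamC_monomial (s : Fin 3) (e : (ℕ × Bool) →₀ ℕ) :
    lamC K s (monomial e 1) = vinf K e s := by
  rw [lamC_apply, lamA_monomial]

omit [Algebra (ZMod 2) K] in
/-- extension to the fraction field -/
lemma exists_ext (f : PA →+ K) (hf : ∀ a b, f (a ^ 2 * b) = algebraMap PA K a * f b) :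
    ∃ g : K →+ K, ∀ a b : PA, b ≠ 0 →
      g (algebraMap PA K a / algebraMap PA K b) = f (a * b) / algebraMap PA K b := by
  have hne : ∀ {b : PA}, b ≠ 0 → algebraMap PA K b ≠ 0 := fun hb h0 =>
    hb ((map_eq_zero_iff _ (inj K)).mp h0)
  have wd : ∀ a b a' b' : PA, b ≠ 0 → b' ≠ 0 →
      algebraMap PA K a / algebraMap PA K b = algebraMap PA K a' / algebraMap PA K b' →
      f (a * b) / algebraMap PA K b = f (a' * b') / algebraMap PA K b' := by
    intro a b a' b' hb hb' h
    rw [div_eq_div_iff (hne hb) (hne hb'), ← map_mul, ← map_mul] at h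
    have h' := inj K h
    rw [div_eq_div_iff (hne hb) (hne hb')]
    have h1 : b' ^ 2 * (a * b) = b ^ 2 * (a' * b') := by linear_combination (b * b') * h'
    have h2 := congrArg f h1
    rw [hf, hf] at h2
    linear_combination h2
  have hex : ∀ x : K, ∃ a b : PA, b ≠ 0 ∧ algebraMap PA K a / algebraMap PA K b = x := by
    intro x
    obtain ⟨a, b, hb, h⟩ := IsFractionRing.div_surjective PA x
    exact ⟨a, b, nonZeroDivisors.ne_zero hb, h⟩
  choose N D hD hND using hex
  have key : ∀ a b : PA, b ≠ 0 → ∀ x, x = algebraMap PA K a / algebraMap PA K b →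
      f (N x * D x) / algebraMap PA K (D x) = f (a * b) / algebraMap PA K b := by
    intro a b hb x hx
    exact wd _ _ _ _ (hD x) hb (by rw [hND, hx])
  refine ⟨⟨⟨fun x => f (N x * D x) / algebraMap PA K (D x), ?_⟩, ?_⟩, ?_⟩
  · rw [key 0 1 one_ne_zero 0 (by simp)]
    simp
  · intro x y
    have hx := hND x
    have hy := hND y
    show f (N (x + y) * D (x + y)) / algebraMap PA K (D (x + y)) =
      f (N x * D x) / algebraMap PA K (D x) + f (N y * D y) / algebraMap PA K (D y)
    rw [key (N x * D y + N y * D x) (D x * D y) (mul_ne_zero (hD x) (hD y)) (x + y) ?_]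
    · have h1 : (N x * D y + N y * D x) * (D x * D y) =
          D y ^ 2 * (N x * D x) + D x ^ 2 * (N y * D y) := by ring
      rw [h1, map_add, hf, hf, map_mul (algebraMap PA K)]
      have h2 := hne (hD x)
      have h3 := hne (hD y)
      field_simp
    · have h2 := hne (hD x)
      have h3 := hne (hD y)
      conv_lhs => rw [← hx, ← hy]
      rw [map_add, map_mul, map_mul, map_mul]
      field_simp
  · intro a b hb
    exact key a b hb _ rfl

/-- the operator on the fraction field -/
noncomputable def lamK (s : Fin 3) : K →+ K :=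
  Classical.choose (exists_ext K (lamC K s) (lamC_sq_mul K s))

lemma lamK_div (s : Fin 3) (a b : PA) (hb : b ≠ 0) :
    lamK K s (algebraMap PA K a / algebraMap PA K b) = lamC K s (a * b) / algebraMap PA K b :=
  Classical.choose_spec (exists_ext K (lamC K s) (lamC_sq_mul K s)) a b hb

lemma lamK_sq (s : Fin 3) (x y : K) : lamK K s (x ^ 2 * y) = x * lamK K s y := by
  obtain ⟨a, b, hb, rfl⟩ := IsFractionRing.div_surjective PA x
  obtain ⟨a', b', hb', rfl⟩ := IsFractionRing.div_surjective PA y
  have hb := nonZeroDivisors.ne_zero hb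
  have hb' := nonZeroDivisors.ne_zero hb'
  have h1 : algebraMap PA K b ≠ 0 := fun h0 => hb ((map_eq_zero_iff _ (inj K)).mp h0)
  have h2 : algebraMap PA K b' ≠ 0 := fun h0 => hb' ((map_eq_zero_iff _ (inj K)).mp h0)
  have h3 : (algebraMap PA K a / algebraMap PA K b) ^ 2 *
      (algebraMap PA K a' / algebraMap PA K b') =
      algebraMap PA K (a ^ 2 * a') / algebraMap PA K (b ^ 2 * b') := by
    rw [map_mul, map_mul, map_pow, map_pow]
    field_simp
  rw [h3, lamK_div K s _ _ (mul_ne_zero (pow_ne_zero _ hb) hb'), lamK_div K s _ _ hb']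
  have h4 : a ^ 2 * a' * (b ^ 2 * b') = (a * b) ^ 2 * (a' * b') := by ring
  rw [h4, lamC_sq_mul, map_mul (algebraMap PA K), map_mul (algebraMap PA K),
    map_pow (algebraMap PA K)]
  field_simp

lemma vv_mem (n : ℕ) (e : (ℕ × Bool) →₀ ℕ) (s : Fin 3) : vv K n e s ∈ kn K n := by
  induction n generalizing s with
  | zero =>
    show (![1, 0, 0] : Fin 3 → K) s ∈ kn K 0
    fin_cases s
    · exact one_mem _
    · exact zero_mem _
    · exact zero_mem _
  | succ n ih =>
    rw [vv_succ]
    exact stp_mem _ (algebraMap_mem_kn K (X_mem_R0 (by simp)))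
      (algebraMap_mem_kn K (X_mem_R0 (by simp))) _ _
      (fun s => (tower K).mono n (ih s)) s

lemma lamC_mem {n : ℕ} (s : Fin 3) {a : PA} (ha : a ∈ R0 n) : lamC K s a ∈ kn K n := by
  rw [a.as_sum, map_sum]
  refine sum_mem fun e he => ?_
  have h1 : coeff e a = 1 := by
    have h2 : coeff e a ≠ 0 := mem_support_iff.mp he
    generalize coeff e a = c at h2 ⊢
    revert c
    decide
  rw [h1, lamC_monomial, vinf_eq K (mem_R0_support ha he)]
  exact vv_mem K n e s

lemma lamK_mem (n : ℕ) (s : Fin 3) {x : K} (hx : x ∈ kn K n) : lamK K s x ∈ kn K n := by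
  obtain ⟨a, ha, b, hb, hb0, h⟩ := hx
  have h1 : algebraMap PA K b ≠ 0 := fun h0 => hb0 ((map_eq_zero_iff _ (inj K)).mp h0)
  have h2 : x = algebraMap PA K a / algebraMap PA K b := by
    rw [eq_div_iff h1, h]
  rw [h2, lamK_div K s a b hb0]
  exact div_mem (lamC_mem K s (mul_mem ha hb)) (algebraMap_mem_kn K hb)

/-- transfer of identities from monomials to the fraction field -/
lemma lamK_one : lamK K 0 1 = 1 := by
  have h := lamK_div K 0 1 1 one_ne_zero
  rw [map_one, div_one, div_one, mul_one] at h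
  rw [h, show (1 : PA) = monomial 0 1 from rfl, lamC_monomial,
    vinf_eq K (n := 0) (fun _ _ => rfl)]
  rfl

lemma lamK_X_mul (s : Fin 3) (i : ℕ × Bool) (a b : PA) (hb : b ≠ 0) :
    lamK K s (algebraMap PA K (X i) * (algebraMap PA K a / algebraMap PA K b)) =
      lamC K s (X i * (a * b)) / algebraMap PA K b := by
  rw [← mul_div_assoc, ← map_mul, lamK_div K s _ _ hb, mul_assoc]

lemma vinf_single {n : ℕ} {e : (ℕ × Bool) →₀ ℕ} (he : Below (n + 1) e) (s : Bool) :
    Below (n + 1) (Finsupp.single (n, s) 1 + e) := by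
  intro i hi
  rw [Finsupp.add_apply, he i hi, Finsupp.single_apply, if_neg]
  rintro rfl
  simp at hi

lemma lamC_X_false {n : ℕ} {e : (ℕ × Bool) →₀ ℕ} (he : Below (n + 1) e) (s : Fin 3) :
    lamC K s (X (n, false) * monomial e 1) =
      stp (algebraMap PA K (X (n, false))) (algebraMap PA K (X (n, true)))
      (e (n, false) + 1) (e (n, true)) (vv K n e) s := by
  have h1 : (X (n, false) * monomial e 1 : PA) = monomial (Finsupp.single (n, false) 1 + e) 1 := by
    rw [X, monomial_mul, one_mul]
  rw [h1, lamC_monomial, vinf_eq K (vinf_single he false), vv_succ]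
  have h2 : (Finsupp.single (n, false) 1 + e : (ℕ × Bool) →₀ ℕ) (n, false) = e (n, false) + 1 := by
    rw [Finsupp.add_apply, Finsupp.single_apply, if_pos rfl, add_comm]
  have h3 : (Finsupp.single (n, false) 1 + e : (ℕ × Bool) →₀ ℕ) (n, true) = e (n, true) := by
    rw [Finsupp.add_apply, Finsupp.single_apply, if_neg (by simp), zero_add]
  have h4 : vv K n (Finsupp.single (n, false) 1 + e) = vv K n e := by
    apply vv_congr
    intro i hi
    rw [Finsupp.add_apply, Finsupp.single_apply, if_neg, zero_add]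
    rintro rfl
    exact lt_irrefl _ hi
  rw [h2, h3, h4]

lemma lamC_X_true {n : ℕ} {e : (ℕ × Bool) →₀ ℕ} (he : Below (n + 1) e) (s : Fin 3) :
    lamC K s (X (n, true) * monomial e 1) =
      stp (algebraMap PA K (X (n, false))) (algebraMap PA K (X (n, true)))
      (e (n, false)) (e (n, true) + 1) (vv K n e) s := by
  have h1 : (X (n, true) * monomial e 1 : PA) = monomial (Finsupp.single (n, true) 1 + e) 1 := by
    rw [X, monomial_mul, one_mul]
  rw [h1, lamC_monomial, vinf_eq K (vinf_single he true), vv_succ]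
  have h2 : (Finsupp.single (n, true) 1 + e : (ℕ × Bool) →₀ ℕ) (n, true) = e (n, true) + 1 := by
    rw [Finsupp.add_apply, Finsupp.single_apply, if_pos rfl, add_comm]
  have h3 : (Finsupp.single (n, true) 1 + e : (ℕ × Bool) →₀ ℕ) (n, false) = e (n, false) := by
    rw [Finsupp.add_apply, Finsupp.single_apply, if_neg (by simp), zero_add]
  have h4 : vv K n (Finsupp.single (n, true) 1 + e) = vv K n e := by
    apply vv_congr
    intro i hi
    rw [Finsupp.add_apply, Finsupp.single_apply, if_neg, zero_add]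
    rintro rfl
    exact lt_irrefl _ hi
  rw [h2, h3, h4]

lemma lamC_mon {n : ℕ} {e : (ℕ × Bool) →₀ ℕ} (he : Below (n + 1) e) (s : Fin 3) :
    lamC K s (monomial e 1) =
      stp (algebraMap PA K (X (n, false))) (algebraMap PA K (X (n, true)))
      (e (n, false)) (e (n, true)) (vv K n e) s := by
  rw [lamC_monomial, vinf_eq K he, vv_succ]

lemma lamC_zero' (s : Fin 3) (x : PA) : lamC K s (x * 0) = 0 := by rw [mul_zero, map_zero]

lemma lamC_add' (s : Fin 3) (x a b : PA) :
    lamC K s (x * (a + b)) = lamC K s (x * a) + lamC K s (x * b) := by rw [mul_add, map_add]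

lemma lamC_c1 {n : ℕ} {a : PA} (ha : a ∈ R0 (n + 1)) :
    lamC K 2 (X (n, false) * a) = lamC K 0 a := by
  refine add_ext (n + 1) (fun a => lamC K 2 (X (n, false) * a)) (fun a => lamC K 0 a)
    (lamC_zero' K _ _) (lamC_add' K _ _) (map_zero _) (map_add _) ?_ a ha
  intro e he
  rw [lamC_X_false K he, lamC_mon K he, stp_c1]

lemma lamC_c2 {n : ℕ} {a : PA} (ha : a ∈ R0 (n + 1)) :
    lamC K 0 (X (n, true) * a) = lamC K 1 (X (n, false) * a) := by
  refine add_ext (n + 1) (fun a => lamC K 0 (X (n, true) * a))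
    (fun a => lamC K 1 (X (n, false) * a))
    (lamC_zero' K _ _) (lamC_add' K _ _) (lamC_zero' K _ _) (lamC_add' K _ _) ?_ a ha
  intro e he
  rw [lamC_X_false K he, lamC_X_true K he, stp_c2]

lemma lamC_c3 [CharP K 2] {n : ℕ} {a : PA} (ha : a ∈ R0 (n + 1)) :
    lamC K 1 a + lamC K 0 (X (n, false) * a) + lamC K 2 (X (n, true) * a) =
      algebraMap PA K (X (n, false)) * lamC K 2 a := by
  refine add_ext (n + 1)
    (fun a => lamC K 1 a + lamC K 0 (X (n, false) * a) + lamC K 2 (X (n, true) * a))
    (fun a => algebraMap PA K (X (n, false)) * lamC K 2 a) ?_ ?_ ?_ ?_ ?_ a ha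
  · simp only [mul_zero, map_zero, add_zero]
  · intro a b
    simp only [lamC_add', map_add]
    ring
  · simp only [mul_zero, map_zero]
  · intro a b
    simp only [map_add, mul_add]
  · intro e he
    rw [lamC_X_false K he, lamC_X_true K he, lamC_mon K he, lamC_mon K he, stp_c3]

lemma lamC_c4 {n : ℕ} {a : PA} (ha : a ∈ R0 (n + 1)) :
    lamC K 1 (X (n, true) * a) = algebraMap PA K (X (n, true)) * lamC K 2 a := by
  refine add_ext (n + 1) (fun a => lamC K 1 (X (n, true) * a))
    (fun a => algebraMap PA K (X (n, true)) * lamC K 2 a)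
    (lamC_zero' K _ _) (lamC_add' K _ _) ?_ ?_ ?_ a ha
  · simp only [mul_zero, map_zero]
  · intro a b
    simp only [map_add, mul_add]
  · intro e he
    rw [lamC_X_true K he, lamC_mon K he, stp_c4]

/-- the operators on the tower -/
noncomputable def cart [CharP K 2] : Cart (tower K) where
  l0 := lamK K 0
  l1 := lamK K 1
  l2 := lamK K 2
  sq0 a b := lamK_sq K 0 a b
  sq1 a b := lamK_sq K 1 a b
  sq2 a b := lamK_sq K 2 a b
  mem0 n _ hc := lamK_mem K n 0 hc
  mem1 n _ hc := lamK_mem K n 1 hc
  mem2 n _ hc := lamK_mem K n 2 hc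
  one0 := lamK_one K
  c1 := by
    rintro n h ⟨a, ha, b, hb, hb0, hab⟩
    have h1 : algebraMap PA K b ≠ 0 := fun h0 => hb0 ((map_eq_zero_iff _ (inj K)).mp h0)
    have h2 : h = algebraMap PA K a / algebraMap PA K b := by rw [eq_div_iff h1, hab]
    rw [h2]
    show lamK K 2 (algebraMap PA K (X (n, false)) * _) = _
    rw [lamK_X_mul K _ _ _ _ hb0, lamK_div K _ _ _ hb0, lamC_c1 K (mul_mem ha hb)]
  c2 := by
    rintro n h ⟨a, ha, b, hb, hb0, hab⟩
    have h1 : algebraMap PA K b ≠ 0 := fun h0 => hb0 ((map_eq_zero_iff _ (inj K)).mp h0)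
    have h2 : h = algebraMap PA K a / algebraMap PA K b := by rw [eq_div_iff h1, hab]
    rw [h2]
    show lamK K 0 (algebraMap PA K (X (n, true)) * _) =
      lamK K 1 (algebraMap PA K (X (n, false)) * _)
    rw [lamK_X_mul K _ _ _ _ hb0, lamK_X_mul K _ _ _ _ hb0, lamC_c2 K (mul_mem ha hb)]
  c3 := by
    rintro n h ⟨a, ha, b, hb, hb0, hab⟩
    have h1 : algebraMap PA K b ≠ 0 := fun h0 => hb0 ((map_eq_zero_iff _ (inj K)).mp h0)
    have h2 : h = algebraMap PA K a / algebraMap PA K b := by rw [eq_div_iff h1, hab]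
    rw [h2]
    show lamK K 1 _ + lamK K 0 (algebraMap PA K (X (n, false)) * _) +
      lamK K 2 (algebraMap PA K (X (n, true)) * _) = algebraMap PA K (X (n, false)) * lamK K 2 _
    rw [lamK_X_mul K _ _ _ _ hb0, lamK_X_mul K _ _ _ _ hb0, lamK_div K _ _ _ hb0,
      lamK_div K _ _ _ hb0, ← add_div, ← add_div, lamC_c3 K (mul_mem ha hb), mul_div_assoc]
  c4 := by
    rintro n h ⟨a, ha, b, hb, hb0, hab⟩
    have h1 : algebraMap PA K b ≠ 0 := fun h0 => hb0 ((map_eq_zero_iff _ (inj K)).mp h0)
    have h2 : h = algebraMap PA K a / algebraMap PA K b := by rw [eq_div_iff h1, hab]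
    rw [h2]
    show lamK K 1 (algebraMap PA K (X (n, true)) * _) =
      algebraMap PA K (X (n, true)) * lamK K 2 _
    rw [lamK_X_mul K _ _ _ _ hb0, lamK_div K _ _ _ hb0, lamC_c4 K (mul_mem ha hb),
      mul_div_assoc]

end Pool.Agent.W417.FS
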