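import Mathlib

set_option autoImplicit false

open Matrix Kronecker

namespace Pool.Agent.W417.TS

variable {R : Type*} [CommRing R] {n : ℕ}

/-- The swap of the two tensor factors. -/
def tau (R : Type*) [CommRing R] (n : ℕ) : Matrix (Fin n × Fin n) (Fin n × Fin n) R :=
  (1 : Matrix (Fin n × Fin n) (Fin n × Fin n) R).submatrix Prod.swap id

lemma tau_mul (M : Matrix (Fin n × Fin n) (Fin n × Fin n) R) :
    tau R n * M = M.submatrix Prod.swap id := by
  ext i j
  simp [tau, Matrix.mul_apply, Matrix.one_apply]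

lemma mul_tau (M : Matrix (Fin n × Fin n) (Fin n × Fin n) R) :
    M * tau R n = M.submatrix id Prod.swap := by
  ext i j
  simp only [tau, Matrix.mul_apply, Matrix.one_apply, Matrix.submatrix_apply, id]
  rw [Finset.sum_eq_single j.swap]
  · simp
  · intro b _ hb
    rw [if_neg, mul_zero]
    rintro rfl
    exact hb (by simp)
  · simp

lemma tau_tau : tau R n * tau R n = 1 := by
  rw [tau_mul]
  ext i j
  simp [tau, Matrix.one_apply]

lemma tau_kron (A B : Matrix (Fin n) (Fin n) R) :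
    tau R n * (A ⊗ₖ B) = (B ⊗ₖ A) * tau R n := by
  rw [tau_mul, mul_tau]
  ext ⟨a, b⟩ ⟨c, d⟩
  simp [mul_comm]

/-- The total Tate differential of the tensor square of the differential module `D`. -/
def delta (D : Matrix (Fin n) (Fin n) R) : Matrix (Fin n × Fin n) (Fin n × Fin n) R :=
  (D ⊗ₖ (1 : Matrix (Fin n) (Fin n) R) + (1 : Matrix (Fin n) (Fin n) R) ⊗ₖ D) + (1 + tau R n)

/-- The key homotopy. -/
lemma key (h2 : (2 : R) = 0) (D A : Matrix (Fin n) (Fin n) R) (hDA : D * A + A * D = 0) :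
    delta D * (tau R n * (A ⊗ₖ 1)) + (tau R n * (A ⊗ₖ 1)) * delta D =
      A ⊗ₖ (1 : Matrix (Fin n) (Fin n) R) + (1 : Matrix (Fin n) (Fin n) R) ⊗ₖ A := by
  have e2 : ∀ M : Matrix (Fin n × Fin n) (Fin n × Fin n) R, M + M = 0 := by
    intro M
    rw [← two_smul R, h2, zero_smul]
  have e1 : (D ⊗ₖ (1 : Matrix (Fin n) (Fin n) R)) * tau R n = tau R n * (1 ⊗ₖ D) := (tau_kron _ _).symm
  have e3 : ((1 : Matrix (Fin n) (Fin n) R) ⊗ₖ D) * tau R n = tau R n * (D ⊗ₖ 1) := (tau_kron _ _).symm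
  have e4 : tau R n * (A ⊗ₖ (1 : Matrix (Fin n) (Fin n) R)) * tau R n = 1 ⊗ₖ A := by
    rw [mul_assoc, ← tau_kron 1 A, ← mul_assoc, tau_tau, one_mul]
  have e5 : (D ⊗ₖ (1 : Matrix (Fin n) (Fin n) R)) * (A ⊗ₖ 1) + (A ⊗ₖ 1) * (D ⊗ₖ 1) = 0 := by
    rw [← Matrix.mul_kronecker_mul, ← Matrix.mul_kronecker_mul, mul_one,
      ← Matrix.add_kronecker, hDA, Matrix.zero_kronecker]
  have e6 : ((1 : Matrix (Fin n) (Fin n) R) ⊗ₖ D) * (A ⊗ₖ 1) = (A ⊗ₖ 1) * (1 ⊗ₖ D) := by
    rw [← Matrix.mul_kronecker_mul, ← Matrix.mul_kronecker_mul, one_mul, mul_one, one_mul, mul_one]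
  have l : delta D * (tau R n * (A ⊗ₖ 1)) = tau R n * ((1 ⊗ₖ D) * (A ⊗ₖ 1)) +
      tau R n * ((D ⊗ₖ 1) * (A ⊗ₖ 1)) + tau R n * (A ⊗ₖ 1) + (A ⊗ₖ 1) := by
    rw [delta, add_mul, add_mul, add_mul, one_mul, ← mul_assoc (tau R n) (tau R n), tau_tau, one_mul,
      ← mul_assoc, ← mul_assoc, e1, e3, mul_assoc, mul_assoc]
    abel
  have r : (tau R n * (A ⊗ₖ 1)) * delta D = tau R n * ((A ⊗ₖ 1) * (D ⊗ₖ 1)) +
      tau R n * ((A ⊗ₖ 1) * (1 ⊗ₖ D)) + tau R n * (A ⊗ₖ 1) + (1 ⊗ₖ A) := by
    rw [delta, mul_add, mul_add, mul_add, mul_one, e4, mul_assoc, mul_assoc]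
    abel
  rw [l, r, e6]
  have : ∀ a b c d e f : Matrix (Fin n × Fin n) (Fin n × Fin n) R,
      a + b + c + d + (e + a + c + f) = (b + e) + (a + a) + (c + c) + (d + f) := by
    intros; abel
  rw [this, e2, e2, ← mul_add, e5, mul_zero]
  abel

/-- Conjugation step. -/
lemma conj_step (h2 : (2 : R) = 0) (x : R) (hx : x * x = 0) (D A : Matrix (Fin n) (Fin n) R)
    (hDA : D * A + A * D = 0) :
    delta (D + x • A) * (1 + x • (tau R n * (A ⊗ₖ 1))) =
      (1 + x • (tau R n * (A ⊗ₖ 1))) * delta D := by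
  have e2 : ∀ M : Matrix (Fin n × Fin n) (Fin n × Fin n) R, M + M = 0 := by
    intro M
    rw [← two_smul R, h2, zero_smul]
  have hd : delta (D + x • A) = delta D + x • (A ⊗ₖ (1 : Matrix (Fin n) (Fin n) R) + (1 : Matrix (Fin n) (Fin n) R) ⊗ₖ A) := by
    rw [delta, delta, Matrix.add_kronecker, Matrix.kronecker_add, Matrix.smul_kronecker,
      Matrix.kronecker_smul, smul_add]
    abel
  rw [hd, ← key h2 D A hDA]
  set h := tau R n * (A ⊗ₖ (1 : Matrix (Fin n) (Fin n) R))
  set δ := delta D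
  simp only [mul_add, add_mul, one_mul, mul_one, Algebra.mul_smul_comm, Algebra.smul_mul_assoc,
    smul_add, smul_smul, hx, zero_smul]
  have : δ + (x • (δ * h) + x • (h * δ)) + (x • (δ * h) + (0 + 0)) =
     (δ + x • (h * δ)) + (x • (δ * h) + x • (δ * h)) := by abel
  rw [this, e2, add_zero]

/-- The operator `delta D` is conjugate to `1 + tau`. -/
def Good (R : Type*) [CommRing R] : Prop :=
  ∀ (n : ℕ) (D : Matrix (Fin n) (Fin n) R), D * D = 0 → (∀ i j, IsNilpotent (D i j)) →
    ∃ G G' : Matrix (Fin n × Fin n) (Fin n × Fin n) R, G * G' = 1 ∧ G' * G = 1 ∧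
      delta D * G = G * delta (0 : Matrix (Fin n) (Fin n) R)

lemma map_tau {S : Type*} [CommRing S] (f : R →+* S) : (tau R n).map f = tau S n := by
  ext i j
  simp [tau, Matrix.one_apply, apply_ite f]

lemma map_delta {S : Type*} [CommRing S] (f : R →+* S) (D : Matrix (Fin n) (Fin n) R) :
    (delta D).map f = delta (D.map f) := by
  ext i j
  have h1 : ∀ {ι : Type} [DecidableEq ι] (a b : ι), f ((1 : Matrix ι ι R) a b) = (1 : Matrix ι ι S) a b := by
    intro ι _ a b
    simp [Matrix.one_apply, apply_ite f]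
  have h2 := congrFun (congrFun (map_tau (n := n) f) i) j
  rw [Matrix.map_apply] at h2
  simp only [delta, Matrix.map_apply, Matrix.add_apply, Matrix.kroneckerMap_apply, map_add, map_mul,
    h1, h2]

lemma Good.of_equiv {S : Type*} [CommRing S] (e : R ≃+* S) (h : Good R) : Good S := by
  intro n D hD hn
  have hD' : (D.map e.symm) * (D.map e.symm) = 0 := by
    have := congrArg (fun M => M.map e.symm) hD
    simpa [Matrix.map_mul] using this
  obtain ⟨G, G', h1, h2, h3⟩ := h n (D.map e.symm) hD' (fun i j => (hn i j).map e.symm)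
  have hmap : ∀ M N : Matrix (Fin n × Fin n) (Fin n × Fin n) R, (M * N).map e = M.map e * N.map e :=
    fun M N => Matrix.map_mul
  refine ⟨G.map e, G'.map e, ?_, ?_, ?_⟩
  · rw [← hmap, h1]; simp [Matrix.map_one]
  · rw [← hmap, h2]; simp [Matrix.map_one]
  · have := congrArg (fun M => M.map e) h3
    simp only [hmap] at this
    have a1 : (delta (D.map e.symm)).map e = delta D := by
      have := map_delta (n := n) (e : R →+* S) (D.map e.symm)
      simp only [RingEquiv.coe_toRingHom] at this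
      rw [this]
      congr 1
      ext i j
      simp
    have a2 : (delta (0 : Matrix (Fin n) (Fin n) R)).map e = delta 0 := by
      have := map_delta (n := n) (e : R →+* S) 0
      simp only [RingEquiv.coe_toRingHom] at this
      rw [this]
      congr 1
      ext i j
      simp
    rw [a1, a2] at this
    exact this

lemma Good.dual (h2 : (2 : R) = 0) (h : Good R) : Good (DualNumber R) := by
  intro n D hD hn
  set D' : Matrix (Fin n) (Fin n) R := D.map TrivSqZeroExt.fst with hD'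
  set A : Matrix (Fin n) (Fin n) R := D.map TrivSqZeroExt.snd with hA
  have hf : D' * D' = 0 := by
    have := congrArg (fun M => M.map (TrivSqZeroExt.fstHom R R R).toRingHom) hD
    simp only [Matrix.map_mul] at this
    ext i j
    have h3 := congrFun (congrFun this i) j
    simpa [hD'] using! h3
  have hs : D' * A + A * D' = 0 := by
    ext i j
    have h3 := congrArg TrivSqZeroExt.snd (congrFun (congrFun hD i) j)
    simp only [Matrix.mul_apply, TrivSqZeroExt.snd_sum, TrivSqZeroExt.snd_mul, Matrix.zero_apply,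
      TrivSqZeroExt.snd_zero, smul_eq_mul, MulOpposite.smul_eq_mul_unop, MulOpposite.unop_op] at h3
    simp only [Matrix.add_apply, Matrix.mul_apply, ← Finset.sum_add_distrib, Matrix.zero_apply, hD', hA,
      Matrix.map_apply]
    exact h3
  obtain ⟨G, G', g1, g2, g3⟩ := h n D' hf (fun i j => (hn i j).map (TrivSqZeroExt.fstHom R R R))
  let ι : R →+* DualNumber R := TrivSqZeroExt.inlHom R R
  have hDe : D = D'.map ι + (DualNumber.eps : DualNumber R) • A.map ι := by
    ext i j
    · simp [hD', hA, ι]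
    · simp [hD', hA, ι]
  have heps : (DualNumber.eps : DualNumber R) * DualNumber.eps = 0 := by simp
  have h2' : (2 : DualNumber R) = 0 := by
    have := congrArg ι h2
    rwa [map_ofNat, map_zero] at this
  have hs' : D'.map ι * A.map ι + A.map ι * D'.map ι = 0 := by
    rw [← Matrix.map_mul, ← Matrix.map_mul, ← Matrix.map_add _ (map_add ι), hs]
    ext i j <;> simp
  have hc := conj_step h2' _ heps _ _ hs'
  rw [← hDe] at hc
  set H : Matrix (Fin n × Fin n) (Fin n × Fin n) (DualNumber R) :=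
    (DualNumber.eps : DualNumber R) • (tau (DualNumber R) n * (A.map ι ⊗ₖ 1)) with hH
  have hHH : H * H = 0 := by
    rw [hH]
    simp only [Matrix.smul_mul, Matrix.mul_smul, smul_smul, heps, zero_smul]
  have e2 : H + H = 0 := by
    rw [← two_smul (DualNumber R), h2', zero_smul]
  have hinv : (1 + H) * (1 + H) = 1 := by
    rw [mul_add, mul_one, add_mul, one_mul, hHH, add_zero, add_assoc, e2, add_zero]
  refine ⟨(1 + H) * G.map ι, G'.map ι * (1 + H), ?_, ?_, ?_⟩
  · rw [mul_assoc, ← mul_assoc (G.map ι), ← Matrix.map_mul, g1,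
      Matrix.map_one _ (map_zero ι) (map_one ι), one_mul, hinv]
  · rw [mul_assoc, ← mul_assoc (1 + H), hinv, one_mul, ← Matrix.map_mul, g2,
      Matrix.map_one _ (map_zero ι) (map_one ι)]
  · rw [← mul_assoc, hc, mul_assoc, ← map_delta, ← Matrix.map_mul, g3, Matrix.map_mul, map_delta,
      mul_assoc]
    congr 3

end Pool.Agent.W417.TS
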