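import Mathlib
import Pool.Agent.W417.TensorSquare1

set_option autoImplicit false

open Matrix Kronecker

namespace Pool.Agent.W417.TS

section

variable (k : Type) [Field k]

/-- The ideal of the squares of the variables. -/
noncomputable def sqIdeal (d : ℕ) : Ideal (MvPolynomial (Fin d) k) :=
  Ideal.span (Set.range (fun i : Fin d => (MvPolynomial.X i : MvPolynomial (Fin d) k) ^ 2))

/-- `k[x_1, …, x_d] / (x_1 ^ 2, …, x_d ^ 2)` -/
abbrev Q (d : ℕ) : Type := MvPolynomial (Fin d) k ⧸ sqIdeal k d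

variable {k}

/-- the variables -/
noncomputable def xq {d : ℕ} (i : Fin d) : Q k d := Ideal.Quotient.mk _ (MvPolynomial.X i)

lemma xq_sq {d : ℕ} (i : Fin d) : (xq i : Q k d) * xq i = 0 := by
  rw [xq, ← map_mul, Ideal.Quotient.eq_zero_iff_mem, ← pow_two]
  exact Ideal.subset_span ⟨i, rfl⟩

lemma le_ker {d : ℕ} {B : Type} [CommRing B] [Algebra k B] (y : Fin d → B)
    (hy : ∀ i, y i * y i = 0) :
    sqIdeal k d ≤ RingHom.ker (MvPolynomial.aeval (R := k) y).toRingHom := by
  rw [sqIdeal, Ideal.span_le]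
  rintro _ ⟨i, rfl⟩
  simp [RingHom.mem_ker, pow_two, hy]

/-- the algebra map out of `Q` given by square-zero elements. -/
noncomputable def liftQ {d : ℕ} {B : Type} [CommRing B] [Algebra k B] (y : Fin d → B)
    (hy : ∀ i, y i * y i = 0) : Q k d →ₐ[k] B :=
  Ideal.Quotient.liftₐ _ (MvPolynomial.aeval y) (fun _ ha => le_ker y hy ha)

@[simp] lemma liftQ_xq {d : ℕ} {B : Type} [CommRing B] [Algebra k B] (y : Fin d → B)
    (hy : ∀ i, y i * y i = 0) (i : Fin d) : liftQ (k := k) y hy (xq i) = y i := by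
  have : liftQ (k := k) y hy (xq i) = MvPolynomial.aeval y (MvPolynomial.X i : MvPolynomial (Fin d) k) := rfl
  rw [this, MvPolynomial.aeval_X]

lemma hom_ext {d : ℕ} {B : Type} [CommRing B] [Algebra k B] {f g : Q k d →ₐ[k] B}
    (h : ∀ i, f (xq i) = g (xq i)) : f = g := by
  apply Ideal.Quotient.algHom_ext
  apply MvPolynomial.algHom_ext
  intro i
  exact h i

/-- forward map -/
noncomputable def fwd (d : ℕ) : Q k (d + 1) →ₐ[k] DualNumber (Q k d) :=
  liftQ (B := DualNumber (Q k d))
    (Fin.cons (DualNumber.eps : DualNumber (Q k d)) (fun i => (TrivSqZeroExt.inl (xq i) : DualNumber (Q k d)))) (by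
      intro i
      refine Fin.cases ?_ (fun i => ?_) i
      · simp
      · rw [Fin.cons_succ, TrivSqZeroExt.inl_mul_inl, xq_sq, TrivSqZeroExt.inl_zero])

/-- backward map -/
noncomputable def bwd (d : ℕ) : DualNumber (Q k d) →ₐ[k] Q k (d + 1) :=
  (DualNumber.lift (R := k) (A := Q k d) (B := Q k (d + 1)))
    ⟨(liftQ (B := Q k (d + 1)) (fun i : Fin d => xq i.succ) (fun _ => xq_sq _), xq 0), xq_sq 0,
      fun _ => Commute.all _ _⟩

lemma bwd_eps (d : ℕ) : bwd (k := k) d DualNumber.eps = xq 0 := by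
  rw [bwd, DualNumber.lift_apply_eps]

lemma bwd_inl (d : ℕ) (a : Q k d) : bwd (k := k) d (TrivSqZeroExt.inl a) =
    liftQ (B := Q k (d + 1)) (fun i : Fin d => xq i.succ) (fun _ => xq_sq _) a := by
  rw [bwd, DualNumber.lift_apply_inl]

lemma fwd_zero (d : ℕ) : fwd (k := k) d (xq 0) = DualNumber.eps := by
  rw [fwd, liftQ_xq, Fin.cons_zero]

lemma fwd_succ (d : ℕ) (i : Fin d) : fwd (k := k) d (xq i.succ) = TrivSqZeroExt.inl (xq i) := by
  rw [fwd, liftQ_xq, Fin.cons_succ]

lemma bwd_fwd (d : ℕ) (a : Q k (d + 1)) : bwd (k := k) d (fwd d a) = a := by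
  have h : (bwd (k := k) d).comp (fwd d) = AlgHom.id k (Q k (d + 1)) := by
    apply hom_ext
    intro i
    refine Fin.cases ?_ (fun i => ?_) i
    · simp only [AlgHom.comp_apply, AlgHom.id_apply]
      rw [fwd_zero, bwd_eps]
    · simp only [AlgHom.comp_apply, AlgHom.id_apply]
      rw [fwd_succ, bwd_inl, liftQ_xq]
  exact DFunLike.congr_fun h a

lemma fwd_lift (d : ℕ) (a : Q k d) :
    fwd (k := k) d (liftQ (B := Q k (d + 1)) (fun i : Fin d => xq i.succ) (fun _ => xq_sq _) a) =
      TrivSqZeroExt.inl a := by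
  obtain ⟨p, rfl⟩ := Ideal.Quotient.mk_surjective a
  induction p using MvPolynomial.induction_on with
  | C c =>
    have h : (Ideal.Quotient.mk (sqIdeal k d)) (MvPolynomial.C c) = algebraMap k (Q k d) c := rfl
    rw [h, AlgHom.commutes, AlgHom.commutes]
    rfl
  | add p q hp hq => rw [map_add, map_add, map_add, hp, hq, TrivSqZeroExt.inl_add]
  | mul_X p i hp =>
    have h : (Ideal.Quotient.mk (sqIdeal k d)) (MvPolynomial.X i) = xq i := rfl
    rw [map_mul, map_mul, map_mul, hp, h, liftQ_xq, fwd_succ, TrivSqZeroExt.inl_mul]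

lemma fwd_surj (d : ℕ) : Function.Surjective (fwd (k := k) d) := by
  intro a
  refine ⟨liftQ (B := Q k (d + 1)) (fun i : Fin d => xq i.succ) (fun _ => xq_sq _) a.fst +
    xq 0 * liftQ (B := Q k (d + 1)) (fun i : Fin d => xq i.succ) (fun _ => xq_sq _) a.snd, ?_⟩
  rw [map_add, map_mul, fwd_lift, fwd_lift, fwd_zero]
  ext <;> simp

/-- `Q (d+1)` is the algebra of dual numbers over `Q d`. -/
noncomputable def QEquiv (d : ℕ) : Q k (d + 1) ≃ₐ[k] DualNumber (Q k d) :=
  AlgEquiv.ofBijective (fwd d) ⟨Function.LeftInverse.injective (bwd_fwd d), fwd_surj d⟩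

/-- `Q 0` is the field `k`. -/
lemma q0_bij : Function.Bijective (algebraMap k (Q k 0)) := by
  constructor
  · have hnt : Nontrivial (Q k 0) := by
      apply Ideal.Quotient.nontrivial_iff.2
      rw [sqIdeal, Set.range_eq_empty, Ideal.span_empty]
      exact bot_ne_top
    exact (algebraMap k (Q k 0)).injective
  · intro a
    obtain ⟨p, rfl⟩ := Ideal.Quotient.mk_surjective a
    induction p using MvPolynomial.induction_on with
    | C c => exact ⟨c, rfl⟩
    | add p q hp hq =>
      obtain ⟨a, ha⟩ := hp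
      obtain ⟨b, hb⟩ := hq
      exact ⟨a + b, by rw [map_add, map_add, ha, hb]⟩
    | mul_X p i hp => exact i.elim0

lemma good_field : Good k := by
  intro n D _ hn
  have : D = 0 := by
    ext i j
    exact (hn i j).eq_zero
  subst this
  exact ⟨1, 1, one_mul _, one_mul _, by rw [mul_one, one_mul]⟩

lemma good_Q (h2 : (2 : k) = 0) (d : ℕ) : Good (Q k d) := by
  induction d with
  | zero => exact good_field.of_equiv (RingEquiv.ofBijective (algebraMap k (Q k 0)) q0_bij)
  | succ d ih =>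
    have h2' : (2 : Q k d) = 0 := by
      have := congrArg (algebraMap k (Q k d)) h2
      rwa [map_ofNat, map_zero] at this
    exact (ih.dual h2').of_equiv (QEquiv d).symm.toRingEquiv

lemma finite_Q (d : ℕ) : Module.Finite k (Q k d) ∧ Module.finrank k (Q k d) = 2 ^ d := by
  induction d with
  | zero =>
    have e : k ≃ₗ[k] Q k 0 := LinearEquiv.ofBijective (Algebra.linearMap k (Q k 0)) q0_bij
    exact ⟨Module.Finite.equiv e, by rw [← e.finrank_eq]; simp⟩
  | succ d ih =>
    obtain ⟨h1, h2⟩ := ih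
    have e : (Q k d × Q k d) ≃ₗ[k] Q k (d + 1) := (QEquiv d).symm.toLinearEquiv
    exact ⟨Module.Finite.equiv e, by rw [← e.finrank_eq, Module.finrank_prod, h2]; ring⟩

end

end Pool.Agent.W417.TS
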