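import Mathlib
import Pool.Agent.W417.TensorSquare2

set_option autoImplicit false

open Matrix Kronecker

namespace Pool.Agent.W417.TS

section LinAlg

variable {k V W : Type*} [Field k] [AddCommGroup V] [Module k V] [AddCommGroup W] [Module k W]

lemma finrank_map_add [FiniteDimensional k V] (p : Submodule k V) (f : V →ₗ[k] W) :
    Module.finrank k (p.map f) + Module.finrank k (p ⊓ LinearMap.ker f : Submodule k V) =
      Module.finrank k p := by
  have h := LinearMap.finrank_range_add_finrank_ker (f.domRestrict p)
  rw [LinearMap.range_domRestrict] at h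
  have h2 : Module.finrank k (LinearMap.ker (f.domRestrict p)) =
      Module.finrank k (p ⊓ LinearMap.ker f : Submodule k V) := by
    rw [LinearMap.ker_domRestrict]
    have e : (Submodule.comap p.subtype (LinearMap.ker f)).map p.subtype = p ⊓ LinearMap.ker f := by
      rw [Submodule.map_comap_subtype]
    rw [← e]
    exact (LinearEquiv.finrank_eq (Submodule.equivMapOfInjective p.subtype p.injective_subtype _))
  rw [h2] at h
  exact h

end LinAlg

section Graded

variable {k : Type} [Field k] {R : Type} [CommRing R] [Algebra k R] [Module.Finite k R]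
variable {E : Type} [Fintype E] [DecidableEq E] (deg : E → ℕ)

/-- the linear map over `k` given by a matrix over `R` -/
noncomputable def lin (k : Type) [Field k] {R : Type} [CommRing R] [Algebra k R] {E : Type}
    [Fintype E] (A : Matrix E E R) : (E → R) →ₗ[k] (E → R) :=
  (Matrix.mulVecLin A).restrictScalars k

omit [Module.Finite k R] [DecidableEq E] in
lemma lin_apply (A : Matrix E E R) (v : E → R) : lin k A v = A.mulVec v := rfl

/-- the vectors supported in degrees at least `m` -/
def fil (k : Type) [Field k] {R : Type} [CommRing R] [Algebra k R] {E : Type} (deg : E → ℕ) (m : ℕ) :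
    Submodule k (E → R) where
  carrier := {v | ∀ e, deg e < m → v e = 0}
  add_mem' := by
    intro a b ha hb e he
    rw [Pi.add_apply, ha e he, hb e he, add_zero]
  zero_mem' := fun _ _ => rfl
  smul_mem' := by
    intro c a ha e he
    rw [Pi.smul_apply, ha e he, smul_zero]

/-- the truncation to degree `m` -/
def trunc (k : Type) [Field k] {R : Type} [CommRing R] [Algebra k R] {E : Type} (deg : E → ℕ) (m : ℕ) :
    (E → R) →ₗ[k] (E → R) where
  toFun v e := if deg e = m then v e else 0
  map_add' := by
    intro a b
    ext e
    by_cases h : deg e = m <;> simp [h]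
  map_smul' := by
    intro c a
    ext e
    by_cases h : deg e = m <;> simp [h]

omit [Module.Finite k R] [Fintype E] [DecidableEq E] in
lemma fil_inf_ker (m : ℕ) : fil k (R := R) deg m ⊓ LinearMap.ker (trunc k deg m) = fil k deg (m + 1) := by
  ext v
  simp only [Submodule.mem_inf, LinearMap.mem_ker]
  constructor
  · rintro ⟨h1, h2⟩ e he
    rcases Nat.lt_succ_iff_lt_or_eq.1 he with h | h
    · exact h1 e h
    · have := congrFun h2 e
      simpa [trunc, h] using this
  · intro h
    refine ⟨fun e he => h e (by omega), ?_⟩
    ext e
    by_cases h' : deg e = m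
    · simp [trunc, h', h e (by omega)]
    · simp [trunc, h']

omit [DecidableEq E] in
lemma ker_le (A B : Matrix E E R) (hA : ∀ i j, A i j ≠ 0 → deg j = deg i + 1)
    (hB : ∀ i j, B i j ≠ 0 → deg j = deg i) (m : ℕ) :
    Module.finrank k (LinearMap.ker (lin k (A + B)) ⊓ fil k deg m : Submodule k (E → R)) ≤
      Module.finrank k (LinearMap.ker (lin k A) ⊓ fil k deg m : Submodule k (E → R)) := by
  obtain ⟨M, hM⟩ : ∃ M, ∀ e, deg e < M := by
    refine ⟨Finset.univ.sup deg + 1, fun e => ?_⟩
    exact Nat.lt_succ_of_le (Finset.le_sup (Finset.mem_univ e))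
  by_cases hm : M ≤ m
  · have : fil k (R := R) deg m = ⊥ := by
      rw [eq_bot_iff]
      intro v hv
      rw [Submodule.mem_bot]
      ext e
      exact hv e ((hM e).trans_le hm)
    rw [this, inf_bot_eq, inf_bot_eq]
  · push Not at hm
    obtain ⟨t, rfl⟩ : ∃ t, M = m + t := ⟨M - m, by omega⟩
    clear hm
    induction t generalizing m with
    | zero =>
      have : fil k (R := R) deg m = ⊥ := by
        rw [eq_bot_iff]
        intro v hv
        rw [Submodule.mem_bot]
        ext e
        exact hv e (by simpa using hM e)
      rw [this, inf_bot_eq, inf_bot_eq]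
    | succ t ih =>
      have ih' := ih (m + 1) (fun e => by have := hM e; omega)
      rw [← finrank_map_add (LinearMap.ker (lin k (A + B)) ⊓ fil k deg m) (trunc k deg m),
        ← finrank_map_add (LinearMap.ker (lin k A) ⊓ fil k deg m) (trunc k deg m),
        inf_assoc, inf_assoc, fil_inf_ker]
      refine add_le_add ?_ ih'
      apply Submodule.finrank_mono
      rintro _ ⟨v, ⟨hv1, hv2⟩, rfl⟩
      -- `A (trunc v) = 0`
      have hAv : lin k A (trunc k deg m v) = 0 := by
        ext e
        rw [lin_apply, Pi.zero_apply, Matrix.mulVec, dotProduct]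
        by_cases he : deg e + 1 = m
        · have h1 : (lin k (A + B) v) e = 0 := by
            have := LinearMap.mem_ker.1 hv1
            rw [this]; rfl
          rw [lin_apply, Matrix.mulVec, dotProduct] at h1
          rw [← h1]
          apply Finset.sum_congr rfl
          intro j _
          by_cases hj : deg j = m
          · have hBe : B e j = 0 := by
              by_contra hne
              have := hB e j hne
              omega
            simp [trunc, hj, Matrix.add_apply, hBe]
          · have hAe : A e j = 0 := by
              by_contra hne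
              have := hA e j hne
              omega
            rw [Matrix.add_apply, hAe, zero_mul, zero_add]
            by_cases hBe : B e j = 0
            · rw [hBe, zero_mul]
            · have := hB e j hBe
              rw [hv2 j (by omega), mul_zero]
        · apply Finset.sum_eq_zero
          intro j _
          by_cases hj : deg j = m
          · have hAe : A e j = 0 := by
              by_contra hne
              have := hA e j hne
              omega
            rw [hAe, zero_mul]
          · simp [trunc, hj]
      refine ⟨trunc k deg m v, ⟨LinearMap.mem_ker.2 hAv, ?_⟩, ?_⟩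
      · intro e he
        have : deg e ≠ m := by omega
        simp [trunc, this]
      · ext e
        by_cases he : deg e = m <;> simp [trunc, he]

omit [DecidableEq E] in
/-- The rank does not drop under the deformation of the differential. -/
lemma range_le (A B : Matrix E E R) (hA : ∀ i j, A i j ≠ 0 → deg j = deg i + 1)
    (hB : ∀ i j, B i j ≠ 0 → deg j = deg i) :
    Module.finrank k (LinearMap.range (lin k A)) ≤ Module.finrank k (LinearMap.range (lin k (A + B))) := by
  have h0 := ker_le (k := k) deg A B hA hB 0
  have hf : fil k (R := R) deg 0 = ⊤ := by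
    rw [eq_top_iff]
    intro v _ e he
    exact absurd he (Nat.not_lt_zero _)
  rw [hf, inf_top_eq, inf_top_eq] at h0
  have h1 := LinearMap.finrank_range_add_finrank_ker (lin k A)
  have h2 := LinearMap.finrank_range_add_finrank_ker (lin k (A + B))
  omega

end Graded

section Final

variable {k : Type} [Field k] {R : Type} [CommRing R] [Algebra k R] [Module.Finite k R]

omit [Module.Finite k R] in
lemma lin_mul {E : Type} [Fintype E] [DecidableEq E] (A B : Matrix E E R) :
    lin k (A * B) = lin k A ∘ₗ lin k B := by
  apply LinearMap.ext
  intro v
  rw [LinearMap.comp_apply, lin_apply, lin_apply, lin_apply, Matrix.mulVec_mulVec]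

omit [Module.Finite k R] in
lemma lin_one {E : Type} [Fintype E] [DecidableEq E] :
    lin k (1 : Matrix E E R) = LinearMap.id := by
  apply LinearMap.ext
  intro v
  rw [lin_apply, Matrix.one_mulVec, LinearMap.id_apply]

omit [Module.Finite k R] in
lemma delta_zero_apply {n : ℕ} (w : Fin n × Fin n → R) (e : Fin n × Fin n) :
    lin k (delta (0 : Matrix (Fin n) (Fin n) R)) w e = w e + w e.swap := by
  rw [lin_apply, delta]
  simp only [Matrix.zero_kronecker, Matrix.kronecker_zero, add_zero, zero_add, Matrix.add_mulVec,
    Matrix.one_mulVec, Pi.add_apply]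
  congr 1
  rw [Matrix.mulVec, dotProduct, Finset.sum_eq_single e.swap]
  · simp [tau, Matrix.one_apply]
  · intro b _ hb
    simp [tau, Ne.symm hb]
  · simp

/-- The homology of the norm map. -/
lemma ker_norm (h2 : (2 : R) = 0) (n : ℕ) :
    Module.finrank k (LinearMap.range (lin k (delta (0 : Matrix (Fin n) (Fin n) R)))) +
      n * Module.finrank k R ≤
      Module.finrank k (LinearMap.ker (lin k (delta (0 : Matrix (Fin n) (Fin n) R)))) := by
  set f := lin k (delta (0 : Matrix (Fin n) (Fin n) R)) with hf
  have e2 : ∀ x : R, x + x = 0 := by
    intro x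
    rw [← two_mul, h2, zero_mul]
  let dg : (Fin n → R) →ₗ[k] (Fin n × Fin n → R) :=
    { toFun := fun r e => if e.1 = e.2 then r e.1 else 0
      map_add' := by
        intro a b
        ext e
        by_cases h : e.1 = e.2 <;> simp [h]
      map_smul' := by
        intro c a
        ext e
        by_cases h : e.1 = e.2 <;> simp [h] }
  have hdg : ∀ r e, dg r e = if e.1 = e.2 then r e.1 else 0 := fun _ _ => rfl
  have hr : LinearMap.range f ≤ LinearMap.ker f := by
    rintro _ ⟨w, rfl⟩
    rw [LinearMap.mem_ker]
    ext e
    rw [delta_zero_apply, delta_zero_apply, delta_zero_apply, Prod.swap_swap, add_comm (w e.swap)]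
    exact e2 _
  have hd : ∀ r, dg r ∈ LinearMap.ker f := by
    intro r
    rw [LinearMap.mem_ker]
    ext e
    rw [delta_zero_apply, hdg, hdg]
    by_cases h : e.1 = e.2
    · simp only [h, if_true, Prod.fst_swap, Prod.snd_swap]
      exact e2 _
    · have h' : ¬ (e.swap.1 = e.swap.2) := fun h0 => h h0.symm
      rw [if_neg h, if_neg h']
      simp
  let φ : (LinearMap.range f) × (Fin n → R) →ₗ[k] LinearMap.ker f :=
    (Submodule.inclusion hr).coprod (dg.codRestrict _ hd)
  have hφ : Function.Injective φ := by
    rw [injective_iff_map_eq_zero]
    rintro ⟨⟨_, w, rfl⟩, r⟩ h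
    have h' : ∀ e, f w e + dg r e = 0 := by
      intro e
      exact congrFun (congrArg Subtype.val h) e
    have hr0 : r = 0 := by
      ext a
      have := h' (a, a)
      rw [delta_zero_apply, hdg] at this
      simp only [Prod.swap_prod_mk, if_true] at this
      rw [e2, zero_add] at this
      exact this
    subst hr0
    have : f w = 0 := by
      ext e
      have := h' e
      simpa using this
    simp [this]
  have := LinearMap.finrank_le_finrank_of_injective hφ
  rw [Module.finrank_prod, Module.finrank_pi_fintype] at this
  simpa using this

/-- **Main inequality.** -/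
theorem main (h2 : (2 : R) = 0) (hgood : Good R) (n : ℕ) (D : Matrix (Fin n) (Fin n) R)
    (hD : D * D = 0) (hdeg : ∃ deg : Fin n → ℕ, ∀ i j, D i j ≠ 0 → deg j = deg i + 1)
    (hn : ∀ i j, IsNilpotent (D i j)) :
    Module.finrank k R * n +
      Module.finrank k (LinearMap.range (lin k
        (D ⊗ₖ (1 : Matrix (Fin n) (Fin n) R) + (1 : Matrix (Fin n) (Fin n) R) ⊗ₖ D))) ≤
      Module.finrank k (LinearMap.ker (lin k
        (D ⊗ₖ (1 : Matrix (Fin n) (Fin n) R) + (1 : Matrix (Fin n) (Fin n) R) ⊗ₖ D))) := by
  obtain ⟨deg, hdeg⟩ := hdeg
  obtain ⟨G, G', h1, h1', h3⟩ := hgood n D hD hn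
  set A := D ⊗ₖ (1 : Matrix (Fin n) (Fin n) R) + (1 : Matrix (Fin n) (Fin n) R) ⊗ₖ D with hA
  have hr : Module.finrank k (LinearMap.range (lin k A)) ≤
      Module.finrank k (LinearMap.range (lin k (delta D))) := by
    apply range_le (fun e : Fin n × Fin n => deg e.1 + deg e.2)
    · rintro ⟨a, b⟩ ⟨c, d⟩ h
      simp only [hA, Matrix.add_apply, Matrix.kroneckerMap_apply] at h
      by_cases hbd : b = d
      · by_cases hac : a = c
        · subst hbd hac
          have h0 : D a a = 0 := by
            by_contra h0
            have := hdeg a a h0
            omega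
          have h0' : D b b = 0 := by
            by_contra h0
            have := hdeg b b h0
            omega
          simp [h0, h0'] at h
        · subst hbd
          have : D a c ≠ 0 := by
            intro h0
            apply h
            simp [h0, hac]
          have := hdeg a c this
          simp only
          omega
      · by_cases hac : a = c
        · subst hac
          have : D b d ≠ 0 := by
            intro h0
            apply h
            simp [h0, hbd]
          have := hdeg b d this
          simp only
          omega
        · exfalso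
          apply h
          simp [hbd, hac]
    · rintro ⟨a, b⟩ ⟨c, d⟩ h
      by_cases h5 : (a, b) = (c, d)
      · rw [h5]
      · by_cases h6 : (b, a) = (c, d)
        · simp only [Prod.mk.injEq] at h6
          simp only
          rw [← h6.1, ← h6.2]
          omega
        · exfalso
          apply h
          simp only [Matrix.add_apply, Matrix.one_apply, tau, Matrix.submatrix_apply, Prod.swap_prod_mk,
            id, if_neg h5, if_neg h6, add_zero]
  -- `delta D` and `delta 0` have the same rank
  have hiso : lin k (delta D) ∘ₗ lin k G = lin k G ∘ₗ lin k (delta 0) := by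
    rw [← lin_mul, ← lin_mul, h3]
  let g : (Fin n × Fin n → R) ≃ₗ[k] (Fin n × Fin n → R) :=
    LinearEquiv.ofLinearMap (lin k G) (lin k G') (by rw [← lin_mul, h1, lin_one])
      (by rw [← lin_mul, h1', lin_one])
  have hg : (g : (Fin n × Fin n → R) →ₗ[k] (Fin n × Fin n → R)) = lin k G := rfl
  have hrank : Module.finrank k (LinearMap.range (lin k (delta D))) =
      Module.finrank k (LinearMap.range (lin k (delta (0 : Matrix (Fin n) (Fin n) R)))) := by
    have e1 : LinearMap.range (lin k (delta D)) =
        (LinearMap.range (lin k (delta (0 : Matrix (Fin n) (Fin n) R)))).map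
          (g : (Fin n × Fin n → R) →ₗ[k] (Fin n × Fin n → R)) := by
      rw [← LinearMap.range_comp, hg, ← hiso, LinearMap.range_comp, ← hg, LinearEquiv.range,
        Submodule.map_top]
    rw [e1]
    exact LinearEquiv.finrank_map_eq g _
  have hk := ker_norm (k := k) h2 n
  have t1 := LinearMap.finrank_range_add_finrank_ker (lin k A)
  have t3 := LinearMap.finrank_range_add_finrank_ker (lin k (delta (0 : Matrix (Fin n) (Fin n) R)))
  rw [mul_comm]
  omega

end Final

end Pool.Agent.W417.TS
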