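import Pool.Agent.W722.Cq.Stm

/-! Linear algebra of one step of the normal form. -/

set_option autoImplicit false

namespace Pool.Agent.W417.CQ

open Pool.Agent.W722.Cq

theorem ALG : S_ALG := by
  intro k M
  let m : V k →ₗ[ℝ] ℂ := M.comp (LinearMap.inl ℝ (V k) ℝ)
  have hm : ∀ y, m y = M (y, 0) := fun _ => rfl
  have hI : ∀ y : V k, Complex.I • (Complex.I • y) = -y := by
    intro y
    rw [smul_smul, Complex.I_mul_I, neg_smul, one_smul]
  have hc : ∀ (c : ℂ) (y : V k), c • y = c.re • y + c.im • (Complex.I • y) := by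
    intro c y
    conv_lhs => rw [← Complex.re_add_im c]
    rw [add_smul, mul_smul]
    rfl
  have hmc : ∀ (c : ℂ) (y : V k), m (c • y) = c.re * m y + c.im * m (Complex.I • y) := by
    intro c y
    rw [hc, map_add, map_smul, map_smul, Complex.real_smul, Complex.real_smul]
  have hmI : ∀ (c : ℂ) (y : V k), m (Complex.I • (c • y)) =
      c.re * m (Complex.I • y) - c.im * m y := by
    intro c y
    rw [smul_comm, hmc, hI, map_neg]
    ring
  have hII := Complex.I_mul_I
  let L : V k →ₗ[ℂ] ℂ :=
    { toFun := fun y => (m y - Complex.I * m (Complex.I • y)) / 2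
      map_add' := fun x y => by
        rw [smul_add, map_add, map_add]
        ring
      map_smul' := fun c y => by
        rw [hmI, hmc, RingHom.id_apply, smul_eq_mul]
        conv_rhs => rw [← Complex.re_add_im c]
        linear_combination (c.im * m (Complex.I • y) / 2) * hII }
  let L' : V k →ₗ[ℂ] ℂ :=
    { toFun := fun y => (starRingEnd ℂ) ((m y + Complex.I * m (Complex.I • y)) / 2)
      map_add' := fun x y => by
        rw [smul_add, map_add m, map_add m, ← map_add (starRingEnd ℂ)]
        congr 1
        ring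
      map_smul' := fun c y => by
        rw [hmI, hmc, RingHom.id_apply, smul_eq_mul]
        have : c = (starRingEnd ℂ) (c.re - c.im * Complex.I) := by
          rw [map_sub, map_mul, Complex.conj_ofReal, Complex.conj_ofReal, Complex.conj_I]
          conv_lhs => rw [← Complex.re_add_im c]
          ring
        conv_rhs => rw [this]
        rw [← map_mul]
        congr 1
        linear_combination (c.im * m (Complex.I • y) / 2) * hII }
  let b' : V k := (InnerProductSpace.toDual ℂ (V k)).symm (LinearMap.toContinuousLinearMap L')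
  have hb' : ∀ y, inner ℂ b' y = L' y := by
    intro y
    rw [InnerProductSpace.toDual_symm_apply]
    rfl
  refine ⟨-((1 / 2 : ℂ) • b'), -(LinearMap.toContinuousLinearMap L), Complex.I * M (0, 1), ?_⟩
  intro ξ y σ
  have h1 : M (y, σ) = m y + σ * M (0, 1) := by
    have : ((y, σ) : V k × ℝ) = (y, 0) + σ • (0, 1) := by
      refine Prod.ext ?_ ?_
      · simp
      · simp
    rw [this, map_add, map_smul, Complex.real_smul, hm]
  have h2 : (inner ℂ y (ξ • -((1 / 2 : ℂ) • b')) : ℂ) =
      -(ξ * ((m y + Complex.I * m (Complex.I • y)) / 2) / 2) := by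
    rw [inner_smul_right, inner_neg_right, inner_smul_right, ← inner_conj_symm, hb']
    change ξ * -(1 / 2 * (starRingEnd ℂ) ((starRingEnd ℂ)
      ((m y + Complex.I * m (Complex.I • y)) / 2))) = _
    rw [Complex.conj_conj]
    ring
  have h3 : (-(LinearMap.toContinuousLinearMap L) : V k →L[ℂ] ℂ) y =
      -((m y - Complex.I * m (Complex.I • y)) / 2) := rfl
  have h4 : 2 * (inner ℂ y (ξ • -((1 / 2 : ℂ) • b')) : ℂ).re =
      (2 * (inner ℂ y (ξ • -((1 / 2 : ℂ) • b')) : ℂ)).re := by
    rw [Complex.mul_re]
    simp
  rw [h4, ← Complex.add_re, ← Complex.add_re, ← Complex.neg_re, h2, h3, h1]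
  congr 1
  linear_combination (M (0, 1) * ξ * σ) * hII

end Pool.Agent.W417.CQ
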