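import Pool.Agent.W722.Cq.Stm

/-! Smooth functions with vanishing order. -/

set_option autoImplicit false

open Metric Set Filter Topology Asymptotics

namespace Pool.Agent.W417.CQ

open Pool.Agent.W722.Cq

/-- weights of a differentiation formula -/
theorem weights (m : ℕ) (hm : m ≠ 0) : ∃ w : ℕ → ℝ, ∀ j < m,
    ∑ i ∈ Finset.range m, w i * ((i : ℝ) / m) ^ j = if j = 1 then 1 else 0 := by
  classical
  let v : ℕ → ℝ := fun i => (i : ℝ) / m
  have hm0 : (m : ℝ) ≠ 0 := by exact_mod_cast hm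
  have hv : Set.InjOn v (Finset.range m : Set ℕ) := by
    intro a _ b _ hab
    have h1 : (a : ℝ) / m = (b : ℝ) / m := hab
    rw [div_left_inj' hm0] at h1
    exact_mod_cast h1
  refine ⟨fun i => (Polynomial.derivative (Lagrange.basis (Finset.range m) v i)).eval 0, ?_⟩
  intro j hj
  have h1 := Lagrange.eq_interpolate (s := Finset.range m) (v := v)
    (f := (Polynomial.X ^ j : Polynomial ℝ)) hv (by
      rw [Polynomial.degree_X_pow, Finset.card_range]
      exact_mod_cast hj)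
  rw [Lagrange.interpolate_apply] at h1
  have h2 := congrArg (fun p : Polynomial ℝ => (Polynomial.derivative p).eval 0) h1
  simp only [Polynomial.derivative_X_pow, Polynomial.derivative_sum, Polynomial.eval_finsetSum,
    Polynomial.derivative_C_mul, Polynomial.eval_mul, Polynomial.eval_C, Polynomial.eval_pow,
    Polynomial.eval_X] at h2
  rw [Finset.sum_congr rfl fun i _ => mul_comm _ _]
  refine h2.symm.trans ?_
  split_ifs with h
  · rw [h]
    simp
  · rcases Nat.eq_zero_or_pos j with h0 | h0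
    · rw [h0]
      simp
    · have : j - 1 ≠ 0 := by omega
      simp [this]

/-- one-dimensional estimate of the first derivative -/
theorem one_dim (n : ℕ) (hn : 1 ≤ n) : ∃ A : ℝ, 0 ≤ A ∧ ∀ {F : Type} [NormedAddCommGroup F]
    [NormedSpace ℝ F] (φ : ℝ → F), ContDiff ℝ ((⊤ : ℕ∞) : WithTop ℕ∞) φ → ∀ S M : ℝ,
    (∀ s ∈ Icc (0 : ℝ) 1, ‖φ s‖ ≤ S) →
    (∀ s ∈ Icc (0 : ℝ) 1, ‖iteratedDeriv (n + 1) φ s‖ ≤ M) → ‖deriv φ 0‖ ≤ A * (S + M) := by
  obtain ⟨w, hw⟩ := weights (n + 1) (Nat.succ_ne_zero n)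
  refine ⟨∑ i ∈ Finset.range (n + 1), |w i|, Finset.sum_nonneg fun _ _ => abs_nonneg _, ?_⟩
  intro F _ _ φ hφ S M hS hM
  have huniq : UniqueDiffOn ℝ (Icc (0 : ℝ) 1) := uniqueDiffOn_Icc zero_lt_one
  have h0mem : (0 : ℝ) ∈ Icc (0 : ℝ) 1 := ⟨le_rfl, zero_le_one⟩
  have hM0 : 0 ≤ M := (norm_nonneg _).trans (hM 0 h0mem)
  have hid : ∀ j : ℕ, ∀ y ∈ Icc (0 : ℝ) 1,
      iteratedDerivWithin j φ (Icc (0 : ℝ) 1) y = iteratedDeriv j φ y := by
    intro j y hy
    exact iteratedDerivWithin_eq_iteratedDeriv huniq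
      ((hφ.of_le (WithTop.coe_le_coe.2 le_top)).contDiffAt) hy
  let t : ℕ → ℝ := fun i => (i : ℝ) / ((n + 1 : ℕ) : ℝ)
  have ht : ∀ i ∈ Finset.range (n + 1), t i ∈ Icc (0 : ℝ) 1 := by
    intro i hi
    have h1 : (i : ℝ) ≤ ((n + 1 : ℕ) : ℝ) := by
      exact_mod_cast (Finset.mem_range.1 hi).le
    refine ⟨by positivity, ?_⟩
    rw [div_le_one (by positivity)]
    exact h1
  have hrem : ∀ i ∈ Finset.range (n + 1),
      ‖φ (t i) - taylorWithinEval φ n (Icc 0 1) 0 (t i)‖ ≤ M := by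
    intro i hi
    have h1 := taylor_mean_remainder_bound (f := φ) (a := 0) (b := 1) (C := M) (n := n)
      zero_le_one ((hφ.of_le (by
        have : ((n : WithTop ℕ∞) + 1) = (((n + 1 : ℕ) : ℕ∞) : WithTop ℕ∞) := by
          norm_cast
        rw [this]
        exact WithTop.coe_le_coe.2 le_top)).contDiffOn) (ht i hi) (fun y hy => by
        rw [hid (n + 1) y hy]
        exact hM y hy)
    refine h1.trans ?_
    rw [sub_zero]
    have h2 : t i ^ (n + 1) ≤ 1 := pow_le_one₀ (ht i hi).1 (ht i hi).2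
    have h3 : (1 : ℝ) ≤ n.factorial := by
      exact_mod_cast Nat.one_le_iff_ne_zero.2 (Nat.factorial_ne_zero n)
    rw [div_le_iff₀ (by linarith)]
    have h4 : M * t i ^ (n + 1) ≤ M * 1 := mul_le_mul_of_nonneg_left h2 hM0
    have h5 : M * 1 ≤ M * n.factorial := mul_le_mul_of_nonneg_left h3 hM0
    linarith
  have hsum : ∑ i ∈ Finset.range (n + 1), w i • taylorWithinEval φ n (Icc 0 1) 0 (t i) =
      deriv φ 0 := by
    have h1 : ∀ i, w i • taylorWithinEval φ n (Icc 0 1) 0 (t i) =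
        ∑ j ∈ Finset.range (n + 1), (w i * t i ^ j) •
          (((j.factorial : ℝ)⁻¹) • iteratedDeriv j φ 0) := by
      intro i
      rw [taylor_within_apply, Finset.smul_sum]
      refine Finset.sum_congr rfl fun j _ => ?_
      rw [hid j 0 h0mem, sub_zero, smul_smul, smul_smul]
      congr 1
      ring
    rw [Finset.sum_congr rfl fun i _ => h1 i, Finset.sum_comm]
    have h2 : ∀ j ∈ Finset.range (n + 1), ∑ i ∈ Finset.range (n + 1), (w i * t i ^ j) •
        (((j.factorial : ℝ)⁻¹) • iteratedDeriv j φ 0) =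
        (if j = 1 then (1 : ℝ) else 0) • (((j.factorial : ℝ)⁻¹) • iteratedDeriv j φ 0) := by
      intro j hj
      rw [← Finset.sum_smul]
      congr 1
      exact hw j (Finset.mem_range.1 hj)
    rw [Finset.sum_congr rfl h2, Finset.sum_eq_single 1]
    · simp
    · intro j _ hj
      rw [if_neg hj, zero_smul]
    · intro h
      exact absurd (Finset.mem_range.2 (by omega)) h
  rw [← hsum]
  have h6 : ∑ i ∈ Finset.range (n + 1), w i • taylorWithinEval φ n (Icc 0 1) 0 (t i) =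
      ∑ i ∈ Finset.range (n + 1), w i •
        (φ (t i) - (φ (t i) - taylorWithinEval φ n (Icc 0 1) 0 (t i))) := by
    refine Finset.sum_congr rfl fun i _ => ?_
    rw [sub_sub_cancel]
  rw [h6, Finset.sum_mul]
  refine norm_sum_le_of_le _ fun i hi => ?_
  rw [norm_smul, Real.norm_eq_abs]
  refine mul_le_mul_of_nonneg_left ?_ (abs_nonneg _)
  exact (norm_sub_le _ _).trans (add_le_add (hS _ (ht i hi)) (hrem i hi))

/-- a function of order `k + 1` has a derivative of order `k` -/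
theorem fderiv_isBigO {E F : Type} [NormedAddCommGroup E] [NormedSpace ℝ E]
    [NormedAddCommGroup F] [NormedSpace ℝ F] (f : E → F)
    (hf : ContDiff ℝ ((⊤ : ℕ∞) : WithTop ℕ∞) f) (k : ℕ)
    (h : f =O[𝓝 (0 : E)] (fun x => ‖x‖ ^ (k + 1))) :
    (fun x => fderiv ℝ f x) =O[𝓝 (0 : E)] (fun x => ‖x‖ ^ k) := by
  rcases Nat.eq_zero_or_pos k with rfl | hk
  · simp only [pow_zero]
    have hc : Continuous (fun x => fderiv ℝ f x) :=
      hf.continuous_fderiv (by simp)
    exact (hc.tendsto 0).isBigO_one ℝ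
  obtain ⟨A, hA0, hA⟩ := one_dim k hk
  obtain ⟨C, hC⟩ := h.bound
  have hcont : Continuous fun x => iteratedFDeriv ℝ (k + 1) f x :=
    hf.continuous_iteratedFDeriv (WithTop.coe_le_coe.2 le_top)
  let M0 := ‖iteratedFDeriv ℝ (k + 1) f 0‖ + 1
  have hM : ∀ᶠ x in 𝓝 (0 : E), ‖iteratedFDeriv ℝ (k + 1) f x‖ ≤ M0 := by
    have h1 := (hcont.norm.tendsto 0).eventually_lt_const (lt_add_one _)
    exact h1.mono fun x hx => hx.le
  obtain ⟨ρ, hρ, hball⟩ := Metric.eventually_nhds_iff.1 (hC.and hM)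
  have hC0 : 0 ≤ |C| := abs_nonneg C
  have hbd : ∀ x : E, ‖x‖ < ρ → ‖f x‖ ≤ |C| * ‖x‖ ^ (k + 1) ∧
      ‖iteratedFDeriv ℝ (k + 1) f x‖ ≤ M0 := by
    intro x hx
    obtain ⟨h1, h2⟩ := hball (y := x) (by rwa [dist_zero_right])
    refine ⟨?_, h2⟩
    rw [norm_pow, norm_norm] at h1
    exact h1.trans (mul_le_mul_of_nonneg_right (le_abs_self C) (by positivity))
  have hM0 : 0 ≤ M0 := by positivity
  refine IsBigO.of_bound (A * (|C| * 2 ^ (k + 1) + M0)) ?_
  rw [Metric.eventually_nhds_iff]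
  refine ⟨ρ / 2, by positivity, ?_⟩
  intro x hx
  rw [dist_zero_right] at hx
  rw [norm_pow, norm_norm]
  rcases eq_or_ne x 0 with rfl | hx0
  · have h0 : HasFDerivAt f (0 : E →L[ℝ] F) 0 := by
      apply IsBigO.hasFDerivAt (n := k + 1) _ (by omega)
      simpa using h
    rw [h0.fderiv, norm_zero]
    positivity
  have hxn : 0 < ‖x‖ := norm_pos_iff.2 hx0
  -- the estimate in directions of norm at most `‖x‖`
  have key : ∀ u : E, ‖u‖ ≤ ‖x‖ → ‖fderiv ℝ f x u‖ ≤
      A * (|C| * 2 ^ (k + 1) + M0) * ‖x‖ ^ (k + 1) := by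
    intro u hu
    let g : ℝ →L[ℝ] E := ContinuousLinearMap.toSpanSingleton ℝ u
    have hg : ∀ s, g s = s • u := fun s => by simp [g]
    have hgn : ‖g‖ = ‖u‖ := by simp [g]
    let φ : ℝ → F := fun s => f (x + g s)
    have hφ : ContDiff ℝ ((⊤ : ℕ∞) : WithTop ℕ∞) φ :=
      hf.comp (contDiff_const.add g.contDiff)
    have hderiv : deriv φ 0 = fderiv ℝ f x u := by
      have h1 : HasDerivAt (fun s : ℝ => x + g s) u 0 := by
        have : HasDerivAt (fun s : ℝ => g s) (g 1) 0 := g.hasDerivAt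
        rw [hg 1, one_smul] at this
        exact this.const_add x
      have h2 : HasFDerivAt f (fderiv ℝ f x) (x + g 0) := by
        rw [map_zero, add_zero]
        exact (hf.differentiable (by simp) x).hasFDerivAt
      exact (h2.comp_hasDerivAt (0 : ℝ) h1).deriv
    have hin : ∀ s ∈ Icc (0 : ℝ) 1, ‖x + g s‖ ≤ 2 * ‖x‖ := by
      intro s hs
      rw [hg]
      refine (norm_add_le _ _).trans ?_
      rw [norm_smul, Real.norm_of_nonneg hs.1]
      have h3 : s * ‖u‖ ≤ 1 * ‖x‖ := mul_le_mul hs.2 hu (norm_nonneg _) zero_le_one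
      linarith
    have hS : ∀ s ∈ Icc (0 : ℝ) 1, ‖φ s‖ ≤ |C| * 2 ^ (k + 1) * ‖x‖ ^ (k + 1) := by
      intro s hs
      have h4 := hin s hs
      refine (hbd (x + g s) (by linarith)).1.trans ?_
      rw [mul_assoc, ← mul_pow]
      exact mul_le_mul_of_nonneg_left (pow_le_pow_left₀ (norm_nonneg _) h4 _) hC0
    have hD : ∀ s ∈ Icc (0 : ℝ) 1, ‖iteratedDeriv (k + 1) φ s‖ ≤ M0 * ‖x‖ ^ (k + 1) := by
      intro s hs
      have h4 := hin s hs
      rw [← norm_iteratedFDeriv_eq_norm_iteratedDeriv]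
      have h5 : iteratedFDeriv ℝ (k + 1) φ s =
          (iteratedFDeriv ℝ (k + 1) f (x + g s)).compContinuousLinearMap fun _ => g := by
        have h6 := g.iteratedFDeriv_comp_right (f := fun z => f (x + z))
          (n := ((⊤ : ℕ∞) : WithTop ℕ∞)) (hf.comp (contDiff_const.add contDiff_id)) s
          (i := k + 1) (WithTop.coe_le_coe.2 le_top)
        rw [iteratedFDeriv_comp_add_left] at h6
        exact h6
      rw [h5]
      refine (ContinuousMultilinearMap.norm_compContinuousLinearMap_le _ _).trans ?_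
      rw [Finset.prod_const, Finset.card_univ, Fintype.card_fin, hgn]
      exact mul_le_mul (hbd (x + g s) (by linarith)).2 (pow_le_pow_left₀ (norm_nonneg _) hu _)
        (by positivity) hM0
    have h7 := hA φ hφ _ _ hS hD
    rw [hderiv] at h7
    refine h7.trans_eq ?_
    ring
  refine ContinuousLinearMap.opNorm_le_bound _ (by positivity) fun v => ?_
  rcases eq_or_ne v 0 with rfl | hv
  · rw [map_zero, norm_zero, norm_zero, mul_zero]
  have hvn : 0 < ‖v‖ := norm_pos_iff.2 hv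
  have h8 := key ((‖x‖ / ‖v‖) • v) (by
    rw [norm_smul, norm_div, norm_norm, norm_norm, div_mul_cancel₀ _ hvn.ne'])
  rw [map_smul, norm_smul, norm_div, norm_norm, norm_norm, div_mul_eq_mul_div,
    div_le_iff₀ hvn] at h8
  have h9 : ‖x‖ * ‖fderiv ℝ f x v‖ ≤
      ‖x‖ * (A * (|C| * 2 ^ (k + 1) + M0) * ‖x‖ ^ k * ‖v‖) := by
    refine h8.trans_eq ?_
    ring
  exact le_of_mul_le_mul_left h9 hxn

/-- a function of order `k + 1` has vanishing iterated derivatives up to order `k` -/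
theorem iter_zero {E : Type} [NormedAddCommGroup E] [NormedSpace ℝ E] : ∀ (k : ℕ) (F : Type)
    [NormedAddCommGroup F] [NormedSpace ℝ F] (f : E → F),
    ContDiff ℝ ((⊤ : ℕ∞) : WithTop ℕ∞) f →
    f =O[𝓝 (0 : E)] (fun x => ‖x‖ ^ (k + 1)) → ∀ j ≤ k, iteratedFDeriv ℝ j f 0 = 0 := by
  intro k
  induction k with
  | zero =>
    intro F _ _ f hf h j hj
    rw [Nat.le_zero.1 hj, ← norm_eq_zero, norm_iteratedFDeriv_zero, norm_eq_zero]
    obtain ⟨C, hC⟩ := h.bound
    have := hC.self_of_nhds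
    simpa using this
  | succ k ih =>
    intro F _ _ f hf h j hj
    rcases Nat.eq_zero_or_pos j with rfl | hj0
    · rw [← norm_eq_zero, norm_iteratedFDeriv_zero, norm_eq_zero]
      obtain ⟨C, hC⟩ := h.bound
      have := hC.self_of_nhds
      simpa using this
    · obtain ⟨i, rfl⟩ : ∃ i, j = i + 1 := ⟨j - 1, by omega⟩
      have h1 := ih (E →L[ℝ] F) (fderiv ℝ f) (hf.fderiv_right (by simp))
        (fderiv_isBigO f hf (k + 1) h) i (by omega)
      rw [← norm_eq_zero, ← norm_iteratedFDeriv_fderiv, h1, norm_zero]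

theorem DER : S_DER := by
  intro f hf
  refine ⟨fun k h => ⟨iter_zero k ℝ f hf h, fderiv_isBigO f hf k h⟩, ?_⟩
  intro k h
  have h1 : (fun x => fderiv ℝ (fderiv ℝ f) x) =O[𝓝 (0 : ℂ)] (fun x => ‖x‖ ^ k) :=
    fderiv_isBigO (fderiv ℝ f) (hf.fderiv_right (by simp)) k (fderiv_isBigO f hf (k + 1) h)
  obtain ⟨C, hC⟩ := h1.bound
  refine IsBigO.of_bound (2 * C) ?_
  filter_upwards [hC] with x hx
  rw [Lap]
  have h2 : ∀ v : ℂ, ‖v‖ = 1 → ‖fderiv ℝ (fderiv ℝ f) x v v‖ ≤
      ‖fderiv ℝ (fderiv ℝ f) x‖ := by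
    intro v hv
    have h3 := (fderiv ℝ (fderiv ℝ f) x v).le_opNorm v
    have h4 := (fderiv ℝ (fderiv ℝ f) x).le_opNorm v
    rw [hv, mul_one] at h3 h4
    exact h3.trans h4
  have h5 := h2 1 norm_one
  have h6 := h2 Complex.I Complex.norm_I
  refine (norm_add_le _ _).trans ?_
  linarith

end Pool.Agent.W417.CQ
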