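import Pool.Agent.W722.Cq.Stm

/-! Linear coordinates: diagonalising the Levi form. -/

set_option autoImplicit false

namespace Pool.Agent.W417.CQ

open Pool.Agent.W722.Cq

/-- an orthonormal basis for a positive definite Hermitian form -/
theorem diag {W : Type} [AddCommGroup W] [Module ℂ W] [FiniteDimensional ℂ W]
    (core : InnerProductSpace.Core ℂ W) :
    ∃ B0 : V (Module.finrank ℂ W) ≃ₗ[ℂ] W, ∀ y, (core.inner (B0 y) (B0 y)).re = ‖y‖ ^ 2 := by
  let _ : NormedAddCommGroup W := core.toNormedAddCommGroup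
  let _ : InnerProductSpace ℂ W := InnerProductSpace.ofCore core.toCore
  let b := stdOrthonormalBasis ℂ W
  refine ⟨b.repr.symm.toLinearEquiv, fun y => ?_⟩
  have h1 : ‖b.repr.symm y‖ = ‖y‖ := LinearIsometryEquiv.norm_map _ _
  have h2 : (inner ℂ (b.repr.symm y) (b.repr.symm y) : ℂ).re = ‖b.repr.symm y‖ ^ 2 := by
    rw [inner_self_eq_norm_sq_to_K]
    norm_cast
  rw [h1] at h2
  exact h2

section

variable {n : ℕ} (B : V n →L[ℝ] V n →L[ℝ] ℝ)

/-- the Hermitian form of a real bilinear form -/
noncomputable def Hf (a b : V n) : ℂ :=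
  ((B a b + B (Complex.I • a) (Complex.I • b) : ℝ) : ℂ) +
    ((B (Complex.I • a) b - B a (Complex.I • b) : ℝ) : ℂ) * Complex.I

theorem II_smul (y : V n) : Complex.I • (Complex.I • y) = -y := by
  rw [smul_smul, Complex.I_mul_I, neg_smul, one_smul]

theorem c_smul (c : ℂ) (y : V n) : c • y = c.re • y + c.im • (Complex.I • y) := by
  conv_lhs => rw [← Complex.re_add_im c]
  rw [add_smul, mul_smul]
  rfl

theorem Hf_symm (hB : ∀ a b, B a b = B b a) (a b : V n) :
    (starRingEnd ℂ) (Hf B b a) = Hf B a b := by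
  rw [Hf, Hf, map_add, map_mul, Complex.conj_ofReal, Complex.conj_ofReal, Complex.conj_I,
    hB b a, hB (Complex.I • b) (Complex.I • a), hB (Complex.I • b) a, hB b (Complex.I • a)]
  push_cast
  ring

theorem Hf_add (a b c : V n) : Hf B (a + b) c = Hf B a c + Hf B b c := by
  rw [Hf, Hf, Hf, smul_add, map_add, map_add]
  simp only [add_apply]
  push_cast
  ring

theorem Hf_smul (a b : V n) (c : ℂ) : Hf B (c • a) b = (starRingEnd ℂ) c * Hf B a b := by
  have h1 : Complex.I • (c • a) = c.re • (Complex.I • a) - c.im • a := by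
    rw [smul_comm, c_smul, II_smul, smul_neg, sub_eq_add_neg]
  rw [Hf, Hf, h1, c_smul]
  simp only [map_add, map_sub, map_smul, add_apply, sub_apply, smul_apply, smul_eq_mul]
  have h2 : (starRingEnd ℂ) c = c.re - c.im * Complex.I := by
    rw [← Complex.re_add_im c, map_add, map_mul, Complex.conj_ofReal, Complex.conj_ofReal,
      Complex.conj_I]
    simp
    ring
  rw [h2]
  have hII := Complex.I_mul_I
  push_cast
  linear_combination ((c.im : ℂ) * ((B (Complex.I • a) b : ℂ) - (B a (Complex.I • b) : ℂ))) * hII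

theorem Hf_self (hB : ∀ a b, B a b = B b a) (a : V n) :
    Hf B a a = ((B a a + B (Complex.I • a) (Complex.I • a) : ℝ) : ℂ) := by
  rw [Hf, hB (Complex.I • a) a, sub_self, Complex.ofReal_zero, zero_mul, add_zero]

end

/-- the core of the Levi form on a subspace where it is positive definite -/
noncomputable def lcore {n : ℕ} (B : V n →L[ℝ] V n →L[ℝ] ℝ) (hB : ∀ a b, B a b = B b a)
    (W : Submodule ℂ (V n))
    (hpos : ∀ u ∈ W, u ≠ 0 → 0 < B u u + B (Complex.I • u) (Complex.I • u)) :
    InnerProductSpace.Core ℂ W where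
  inner a b := Hf B a b / 4
  conj_inner_symm x y := by
    have h4 : (starRingEnd ℂ) (4 : ℂ) = 4 := Complex.conj_ofNat 4
    rw [map_div₀, Hf_symm B hB, h4]
  re_inner_nonneg x := by
    rw [Hf_self B hB]
    rcases eq_or_ne x 0 with rfl | hx
    · simp
    · have := hpos x x.2 (fun h => hx (Subtype.ext h))
      have h5 : (RCLike.re (((B x x + B (Complex.I • (x : V n)) (Complex.I • (x : V n)) : ℝ) : ℂ)
          / 4)) = (B x x + B (Complex.I • (x : V n)) (Complex.I • (x : V n))) / 4 := by
        rw [show (4 : ℂ) = ((4 : ℝ) : ℂ) by norm_num, ← Complex.ofReal_div]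
        exact Complex.ofReal_re _
      rw [h5]
      positivity
  add_left x y z := by
    rw [Submodule.coe_add, Hf_add]
    ring
  smul_left x y r := by
    rw [Submodule.coe_smul, Hf_smul]
    ring
  definite x hx := by
    by_contra h0
    have := hpos x x.2 (fun h => h0 (Subtype.ext h))
    rw [Hf_self B hB] at hx
    have h6 : ((B x x + B (Complex.I • (x : V n)) (Complex.I • (x : V n)) : ℝ) : ℂ) = 0 := by
      linear_combination 4 * hx
    rw [Complex.ofReal_eq_zero] at h6
    exact this.ne' h6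

/-- the complex linear functional with real part `d` -/
noncomputable def lc {n : ℕ} (d : V n →L[ℝ] ℝ) : V n →ₗ[ℂ] ℂ where
  toFun u := (d u : ℂ) - (d (Complex.I • u) : ℂ) * Complex.I
  map_add' u v := by
    rw [smul_add, map_add, map_add]
    push_cast
    ring
  map_smul' c u := by
    have h1 : Complex.I • (c • u) = c.re • (Complex.I • u) - c.im • u := by
      rw [smul_comm, c_smul, II_smul, smul_neg, sub_eq_add_neg]
    rw [h1, c_smul, RingHom.id_apply, smul_eq_mul]
    simp only [map_add, map_sub, map_smul, smul_eq_mul]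
    have hII := Complex.I_mul_I
    conv_rhs => rw [← Complex.re_add_im c]
    push_cast
    linear_combination ((c.im : ℂ) * (d (Complex.I • u) : ℂ)) * hII

theorem lc_apply {n : ℕ} (d : V n →L[ℝ] ℝ) (u : V n) :
    lc d u = (d u : ℂ) - (d (Complex.I • u) : ℂ) * Complex.I := rfl

theorem lc_re {n : ℕ} (d : V n →L[ℝ] ℝ) (u : V n) : (lc d u).re = d u := by
  rw [lc_apply]
  simp

theorem lc_zero {n : ℕ} (d : V n →L[ℝ] ℝ) (u : V n) (h1 : d u = 0)
    (h2 : d (Complex.I • u) = 0) : lc d u = 0 := by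
  rw [lc_apply, h1, h2]
  simp

theorem LIN : S_LIN := by
  intro n r p W v hn hr hdr hW hWpos hv0 hdv hdiv hLv
  set d := fderiv ℝ r p with hd
  set B := fderiv ℝ (fderiv ℝ r) p with hBdef
  have hB : ∀ a b, B a b = B b a := by
    have h2 : minSmoothness ℝ 2 ≤ ((⊤ : ℕ∞) : WithTop ℕ∞) := by
      simp only [minSmoothness_of_isRCLikeNormedField]
      exact WithTop.coe_le_coe.2 le_top
    exact hr.contDiffAt.isSymmSndFDerivAt h2
  have hLvB : ∀ u, Lv r p u = B u u + B (Complex.I • u) (Complex.I • u) := fun _ => rfl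
  have hl0 : lc d ≠ 0 := by
    intro h
    apply hdr
    ext u
    rw [← lc_re d u, h]
    simp
  have hker := Module.Dual.finrank_ker_add_one_of_ne_zero hl0
  rw [finrank_euclideanSpace_fin] at hker
  have hWl : ∀ u ∈ W, lc d u = 0 := by
    intro u hu
    rcases eq_or_ne u 0 with rfl | h0
    · rw [map_zero]
    · obtain ⟨h1, h2, -⟩ := hWpos u hu h0
      exact lc_zero d u h1 h2
  have hvl : lc d v = 0 := lc_zero d v hdv hdiv
  have hvW : v ∉ W := fun h => absurd (hWpos v h hv0).2.2 (not_lt.2 hLv)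
  have hlt : W < (lc d).ker := by
    refine lt_of_le_of_ne (fun u hu => hWl u hu) ?_
    rintro h
    apply hvW
    rw [h]
    exact hvl
  have hfin := Submodule.finrank_lt_finrank_of_lt hlt
  obtain ⟨B0, hB0⟩ := diag (lcore B hB W fun u hu h0 => (hWpos u hu h0).2.2)
  obtain ⟨e, he⟩ : ∃ e, lc d e = 1 := by
    obtain ⟨u, hu⟩ : ∃ u, lc d u ≠ 0 := by
      by_contra hcon
      push Not at hcon
      exact hl0 (LinearMap.ext hcon)
    refine ⟨(lc d u)⁻¹ • u, ?_⟩
    rw [map_smul, smul_eq_mul, inv_mul_cancel₀ hu]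
  let A0 : EE (Module.finrank ℂ W) →ₗ[ℂ] V n :=
    { toFun := fun z => z.1 • v + (B0 z.2.1 : V n) + z.2.2 • e
      map_add' := fun x y => by
        simp only [Prod.fst_add, Prod.snd_add, map_add, Submodule.coe_add, add_smul]
        abel
      map_smul' := fun c x => by
        simp only [Prod.smul_fst, Prod.smul_snd, map_smul, Submodule.coe_smul, smul_eq_mul,
          mul_smul, RingHom.id_apply, smul_add] }
  have hA0 : ∀ z, A0 z = z.1 • v + (B0 z.2.1 : V n) + z.2.2 • e := fun _ => rfl
  have hlA : ∀ z, lc d (A0 z) = z.2.2 := by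
    intro z
    rw [hA0, map_add, map_add, map_smul, map_smul, hvl, hWl _ (B0 z.2.1).2, he, smul_zero,
      zero_add, zero_add, smul_eq_mul, mul_one]
  have hinj : Function.Injective A0 := by
    rw [injective_iff_map_eq_zero]
    intro z hz
    have h1 : z.2.2 = 0 := by
      rw [← hlA z, hz, map_zero]
    have h2 : z.1 • v + (B0 z.2.1 : V n) = 0 := by
      rw [hA0, h1, zero_smul, add_zero] at hz
      exact hz
    have h3 : z.1 = 0 := by
      by_contra h3
      apply hvW
      have h4 : v = -(z.1⁻¹ • (B0 z.2.1 : V n)) := by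
        have h5 : z.1⁻¹ • (z.1 • v + (B0 z.2.1 : V n)) = 0 := by rw [h2, smul_zero]
        rw [smul_add, smul_smul, inv_mul_cancel₀ h3, one_smul] at h5
        exact eq_neg_of_add_eq_zero_left h5
      rw [h4]
      exact W.neg_mem (W.smul_mem _ (B0 z.2.1).2)
    have h6 : z.2.1 = 0 := by
      rw [h3, zero_smul, zero_add] at h2
      have h7 : B0 z.2.1 = 0 := Subtype.ext h2
      exact (map_eq_zero_iff B0 B0.injective).1 h7
    exact Prod.ext h3 (Prod.ext h6 h1)
  have hdim : Module.finrank ℂ (EE (Module.finrank ℂ W)) = Module.finrank ℂ (V n) := by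
    rw [Module.finrank_prod, Module.finrank_prod, finrank_euclideanSpace_fin,
      finrank_euclideanSpace_fin, Module.finrank_self]
    omega
  refine ⟨Module.finrank ℂ W,
    (LinearMap.linearEquivOfInjective A0 hinj hdim).toContinuousLinearEquiv, ?_, ?_⟩
  · intro z
    change d (A0 z) = z.2.2.re
    rw [← lc_re, hlA]
  · intro y
    change Lv r p (A0 (0, y, 0)) = 4 * ‖y‖ ^ 2
    have h8 : A0 (0, y, 0) = (B0 y : V n) := by
      rw [hA0]
      simp
    rw [h8, hLvB, ← hB0 y]
    change _ = 4 * (Hf B (B0 y) (B0 y) / 4).re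
    rw [Hf_self B hB, show (4 : ℂ) = ((4 : ℝ) : ℂ) by norm_num, ← Complex.ofReal_div,
      Complex.ofReal_re]
    ring

end Pool.Agent.W417.CQ
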