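import Pool.Agent.W722.Cq.Stm

/-! The Levi form of a composition with a holomorphic map. -/

set_option autoImplicit false

open Metric Set Filter Topology Asymptotics

namespace Pool.Agent.W417.CQ

open Pool.Agent.W722.Cq

section

variable {n k : ℕ} {r : V n → ℝ} {Φ : EE k → V n} (hr : ContDiff ℝ ((⊤ : ℕ∞) : WithTop ℕ∞) r)
  (hΦ : ContDiff ℂ ((⊤ : ℕ∞) : WithTop ℕ∞) Φ)

include hr hΦ

theorem comp_smooth : ContDiff ℝ ((⊤ : ℕ∞) : WithTop ℕ∞) (fun z => r (Φ z)) :=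
  hr.comp (hΦ.restrict_scalars ℝ)

omit hr in
theorem hasFDerivAt_Phi (z : EE k) :
    HasFDerivAt Φ ((fderiv ℂ Φ z).restrictScalars ℝ) z :=
  ((hΦ.differentiable (by simp) z).hasFDerivAt).restrictScalars ℝ

theorem comp_fderiv (z X : EE k) :
    fderiv ℝ (fun z => r (Φ z)) z X = fderiv ℝ r (Φ z) (fderiv ℂ Φ z X) := by
  have h1 : HasFDerivAt r (fderiv ℝ r (Φ z)) (Φ z) :=
    (hr.differentiable (by simp) (Φ z)).hasFDerivAt
  have h2 := h1.comp z (hasFDerivAt_Phi hΦ z)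
  have h3 : fderiv ℝ (fun z => r (Φ z)) z =
      (fderiv ℝ r (Φ z)).comp ((fderiv ℂ Φ z).restrictScalars ℝ) := h2.fderiv
  rw [h3]
  rfl

/-- second derivative of the composition -/
theorem comp_fderiv2 (z Y Z : EE k) :
    fderiv ℝ (fderiv ℝ (fun z => r (Φ z))) z Z Y =
      fderiv ℝ (fderiv ℝ r) (Φ z) (fderiv ℂ Φ z Z) (fderiv ℂ Φ z Y) +
        fderiv ℝ r (Φ z) (fderiv ℂ (fderiv ℂ Φ) z Z Y) := by
  have hh := comp_smooth hr hΦ
  -- left side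
  have h1 : HasFDerivAt (fderiv ℝ (fun z => r (Φ z)))
      (fderiv ℝ (fderiv ℝ (fun z => r (Φ z))) z) z :=
    (((hh.fderiv_right (m := ((⊤ : ℕ∞) : WithTop ℕ∞)) (by simp)).differentiable
      (by simp)) z).hasFDerivAt
  have h2 : HasFDerivAt (fun z' => fderiv ℝ (fun z => r (Φ z)) z' Y)
      ((ContinuousLinearMap.apply ℝ ℝ Y).comp
        (fderiv ℝ (fderiv ℝ (fun z => r (Φ z))) z)) z :=
    (ContinuousLinearMap.apply ℝ ℝ Y).hasFDerivAt.comp z h1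
  -- right side
  have h3 : HasFDerivAt (fun z' => fderiv ℝ r (Φ z'))
      ((fderiv ℝ (fderiv ℝ r) (Φ z)).comp ((fderiv ℂ Φ z).restrictScalars ℝ)) z := by
    have h4 : HasFDerivAt (fderiv ℝ r) (fderiv ℝ (fderiv ℝ r) (Φ z)) (Φ z) :=
      (((hr.fderiv_right (m := ((⊤ : ℕ∞) : WithTop ℕ∞)) (by simp)).differentiable
        (by simp)) (Φ z)).hasFDerivAt
    exact h4.comp z (hasFDerivAt_Phi hΦ z)
  have h5 : HasFDerivAt (fun z' => fderiv ℂ Φ z' Y)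
      (((ContinuousLinearMap.apply ℂ (V n) Y).comp
        (fderiv ℂ (fderiv ℂ Φ) z)).restrictScalars ℝ) z := by
    have h6 : HasFDerivAt (fderiv ℂ Φ) (fderiv ℂ (fderiv ℂ Φ) z) z :=
      (((hΦ.fderiv_right (m := ((⊤ : ℕ∞) : WithTop ℕ∞)) (by simp)).differentiable
        (by simp)) z).hasFDerivAt
    exact ((ContinuousLinearMap.apply ℂ (V n) Y).hasFDerivAt.comp z h6).restrictScalars ℝ
  have h7 := h3.clm_apply h5
  have h8 : (fun z' => fderiv ℝ (fun z => r (Φ z)) z' Y) =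
      fun z' => fderiv ℝ r (Φ z') (fderiv ℂ Φ z' Y) := by
    funext z'
    exact comp_fderiv hr hΦ z' Y
  rw [h8] at h2
  have h9 := DFunLike.congr_fun (h2.unique h7) Z
  rw [add_comm]
  exact h9

theorem comp_Lv (z X : EE k) :
    LvE (fun z => r (Φ z)) z X = Lv r (Φ z) (fderiv ℂ Φ z X) := by
  have h1 : fderiv ℂ Φ z (Complex.I • X) = Complex.I • fderiv ℂ Φ z X := map_smul _ _ _
  have h2 : fderiv ℂ (fderiv ℂ Φ) z (Complex.I • X) (Complex.I • X) =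
      -(fderiv ℂ (fderiv ℂ Φ) z X X) := by
    rw [map_smul, map_smul, smul_apply, smul_smul, Complex.I_mul_I, neg_smul, one_smul]
  rw [LvE, Lv, comp_fderiv2 hr hΦ, comp_fderiv2 hr hΦ, h1, h2, map_neg]
  ring

end

theorem LVC : S_LVC := by
  intro n k r Φ hr hΦ
  refine ⟨comp_smooth hr hΦ, comp_fderiv hr hΦ, comp_Lv hr hΦ, ?_⟩
  rintro ⟨K, ε, hK, hε, h⟩
  have hc1 : Continuous Φ := hΦ.continuous
  have hc2 : Continuous (fderiv ℂ Φ) := hΦ.continuous_fderiv (by simp)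
  let B := ‖fderiv ℂ Φ 0‖ + 1
  have hB : 0 < B := by positivity
  have h1 : ∀ᶠ z in 𝓝 (0 : EE k), ‖fderiv ℂ Φ z‖ < B :=
    (hc2.norm.tendsto 0).eventually_lt_const (lt_add_one _)
  have h2 : ∀ᶠ z in 𝓝 (0 : EE k), ‖Φ z - Φ 0‖ < ε := by
    have h3 : Tendsto (fun z => ‖Φ z - Φ 0‖) (𝓝 0) (𝓝 ‖Φ 0 - Φ 0‖) :=
      ((hc1.sub continuous_const).norm.tendsto 0)
    rw [sub_self, norm_zero] at h3
    exact h3.eventually_lt_const hε
  obtain ⟨ε', hε', hball⟩ := Metric.eventually_nhds_iff.1 (h1.and h2)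
  refine ⟨K * (B ^ 2 + B), ε', by positivity, hε', ?_⟩
  intro z hz X
  obtain ⟨h3, h4⟩ := hball (y := z) (by rwa [dist_zero_right])
  have h5 := h (Φ z) h4 (fderiv ℂ Φ z X)
  rw [← comp_Lv hr hΦ, ← comp_fderiv hr hΦ, ← map_smul, ← comp_fderiv hr hΦ] at h5
  have h6 : ‖fderiv ℂ Φ z X‖ ≤ B * ‖X‖ :=
    ((fderiv ℂ Φ z).le_opNorm X).trans (mul_le_mul_of_nonneg_right h3.le (norm_nonneg _))
  set D := |fderiv ℝ (fun z => r (Φ z)) z X| +
    |fderiv ℝ (fun z => r (Φ z)) z (Complex.I • X)| with hD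
  have hD0 : 0 ≤ D := by positivity
  refine le_trans ?_ h5
  have h7 : K * ‖fderiv ℂ Φ z X‖ * D ≤ K * (B ^ 2 + B) * ‖X‖ * D := by
    apply mul_le_mul_of_nonneg_right _ hD0
    rw [mul_assoc]
    apply mul_le_mul_of_nonneg_left _ hK.le
    refine h6.trans (mul_le_mul_of_nonneg_right ?_ (norm_nonneg _))
    nlinarith [sq_nonneg B]
  have h8 : K * |r (Φ z)| * ‖fderiv ℂ Φ z X‖ ^ 2 ≤ K * (B ^ 2 + B) * |r (Φ z)| * ‖X‖ ^ 2 := by
    have h9 : ‖fderiv ℂ Φ z X‖ ^ 2 ≤ (B * ‖X‖) ^ 2 := pow_le_pow_left₀ (norm_nonneg _) h6 2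
    have h10 : K * |r (Φ z)| * ‖fderiv ℂ Φ z X‖ ^ 2 ≤ K * |r (Φ z)| * (B * ‖X‖) ^ 2 :=
      mul_le_mul_of_nonneg_left h9 (by positivity)
    have h11 : K * |r (Φ z)| * (B * ‖X‖) ^ 2 = (K * |r (Φ z)| * ‖X‖ ^ 2) * B ^ 2 := by ring
    have h12 : K * (B ^ 2 + B) * |r (Φ z)| * ‖X‖ ^ 2 =
        (K * |r (Φ z)| * ‖X‖ ^ 2) * B ^ 2 + (K * |r (Φ z)| * ‖X‖ ^ 2) * B := by ring
    have h13 : 0 ≤ (K * |r (Φ z)| * ‖X‖ ^ 2) * B := by positivity
    linarith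
  linarith

end Pool.Agent.W417.CQ
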