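import Pool.Agent.W417.CQ_LVC
import Pool.Agent.W417.CQ_LIN

/-! Removing the pluriharmonic quadratic terms. -/

set_option autoImplicit false

open Metric Set Filter Topology Asymptotics

namespace Pool.Agent.W417.CQ

open Pool.Agent.W722.Cq

section

variable {n : ℕ} (C : V n →L[ℝ] V n →L[ℝ] ℝ)

/-- the complex bilinear part of a real bilinear form -/
noncomputable def S0 (a b : V n) : ℂ :=
  ((C a b - C (Complex.I • a) (Complex.I • b) : ℝ) : ℂ) / 2 -
    ((C (Complex.I • a) b + C a (Complex.I • b) : ℝ) : ℂ) * Complex.I / 2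

theorem S0_add_left (a b c : V n) : S0 C (a + b) c = S0 C a c + S0 C b c := by
  simp only [S0, smul_add, map_add, add_apply]
  push_cast
  ring

theorem S0_add_right (a b c : V n) : S0 C a (b + c) = S0 C a b + S0 C a c := by
  simp only [S0, smul_add, map_add, add_apply]
  push_cast
  ring

theorem I_c_smul (c : ℂ) (a : V n) :
    Complex.I • (c • a) = c.re • (Complex.I • a) - c.im • a := by
  rw [smul_comm, c_smul, II_smul, smul_neg, sub_eq_add_neg]

theorem S0_smul_left (c : ℂ) (a b : V n) : S0 C (c • a) b = c * S0 C a b := by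
  have h1 := I_c_smul c a
  rw [S0, S0, h1, c_smul c a]
  simp only [map_add, map_sub, map_smul, add_apply, sub_apply, smul_apply, smul_eq_mul]
  have hII := Complex.I_mul_I
  conv_rhs => rw [← Complex.re_add_im c]
  push_cast
  linear_combination ((c.im : ℂ) * ((C (Complex.I • a) b : ℂ) +
    (C a (Complex.I • b) : ℂ)) / 2) * hII

theorem S0_smul_right (c : ℂ) (a b : V n) : S0 C a (c • b) = c * S0 C a b := by
  have h1 := I_c_smul c b
  rw [S0, S0, h1, c_smul c b]
  simp only [map_add, map_sub, map_smul, smul_eq_mul]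
  have hII := Complex.I_mul_I
  conv_rhs => rw [← Complex.re_add_im c]
  push_cast
  linear_combination ((c.im : ℂ) * ((C (Complex.I • a) b : ℂ) +
    (C a (Complex.I • b) : ℂ)) / 2) * hII

theorem S0_re (a : V n) : (S0 C a a).re =
    (C a a - C (Complex.I • a) (Complex.I • a)) / 2 := by
  rw [S0, Complex.sub_re]
  have h1 : ∀ x : ℝ, ((x : ℂ) / 2).re = x / 2 := by
    intro x
    rw [show (2 : ℂ) = ((2 : ℝ) : ℂ) by norm_num, ← Complex.ofReal_div, Complex.ofReal_re]
  have h2 : ∀ x : ℝ, ((x : ℂ) * Complex.I / 2).re = 0 := by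
    intro x
    rw [mul_comm, mul_div_assoc, show (2 : ℂ) = ((2 : ℝ) : ℂ) by norm_num,
      ← Complex.ofReal_div, Complex.I_mul_re, Complex.ofReal_im, neg_zero]
  rw [h1, h2, sub_zero]

end

/-- the correcting bilinear form -/
noncomputable def Q0 {n k : ℕ} (C : V n →L[ℝ] V n →L[ℝ] ℝ) (A : EE k →L[ℂ] V n) (β : ℝ) :
    EE k →ₗ[ℂ] EE k →ₗ[ℂ] ℂ :=
  LinearMap.mk₂ ℂ (fun z z' => (-S0 C (A (0, z.2.1, 0)) (A (0, z'.2.1, 0)) +
    2 * Complex.I * z.2.2 * lc (C.flip (A (0, 0, Complex.I))) (A (0, z'.2.1, 0)) +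
      β * z.2.2 * z'.2.2) / 2)
    (fun z w z' => by
      have h : ((0, (z + w).2.1, 0) : EE k) = (0, z.2.1, 0) + (0, w.2.1, 0) := by
        simp
      rw [h, map_add, S0_add_left, Prod.snd_add, Prod.snd_add]
      ring)
    (fun c z z' => by
      have h : ((0, (c • z).2.1, 0) : EE k) = c • (0, z.2.1, 0) := by
        simp
      rw [h, map_smul, S0_smul_left, Prod.smul_snd, Prod.smul_snd, smul_eq_mul, smul_eq_mul]
      ring)
    (fun z w w' => by
      have h : ((0, (w + w').2.1, 0) : EE k) = (0, w.2.1, 0) + (0, w'.2.1, 0) := by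
        simp
      rw [h, map_add, S0_add_right, map_add, Prod.snd_add, Prod.snd_add]
      ring)
    (fun c z w => by
      have h : ((0, (c • w).2.1, 0) : EE k) = c • (0, w.2.1, 0) := by
        simp
      rw [h, map_smul, S0_smul_right, map_smul, Prod.smul_snd, Prod.smul_snd, smul_eq_mul,
        smul_eq_mul, smul_eq_mul]
      ring)

theorem QUAD : S_QUAD := by
  intro n k r p A hr hrp hd hL
  set C := fderiv ℝ (fderiv ℝ r) p with hC
  have hsymm : ∀ a b, C a b = C b a := by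
    have h2 : minSmoothness ℝ 2 ≤ ((⊤ : ℕ∞) : WithTop ℕ∞) := by
      simp only [minSmoothness_of_isRCLikeNormedField]
      exact WithTop.coe_le_coe.2 le_top
    exact hr.contDiffAt.isSymmSndFDerivAt h2
  let e : V n := A (0, 0, Complex.I)
  let β : ℝ := C e e
  let A' : EE k →L[ℂ] V n := A
  let Q : EE k →L[ℂ] EE k →L[ℂ] ℂ :=
    LinearMap.toContinuousLinearMap
      ((LinearMap.toContinuousLinearMap (𝕜 := ℂ) (E := EE k) (F' := ℂ)).toLinearMap ∘ₗ
        Q0 C A' β)
  have hQ : ∀ z z', Q z z' = (-S0 C (A (0, z.2.1, 0)) (A (0, z'.2.1, 0)) +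
    2 * Complex.I * z.2.2 * lc (C.flip e) (A (0, z'.2.1, 0)) + β * z.2.2 * z'.2.2) / 2 :=
    fun _ _ => rfl
  let T : ℂ →L[ℂ] V n := A'.comp ((ContinuousLinearMap.inr ℂ ℂ (V k × ℂ)).comp
    (ContinuousLinearMap.inr ℂ (V k) ℂ))
  have hT : ∀ w, T w = A (0, 0, w) := fun _ => rfl
  let Φ : EE k → V n := fun z => p + (A' z + T (Q z z))
  have hΦ : ContDiff ℂ ((⊤ : ℕ∞) : WithTop ℕ∞) Φ :=
    contDiff_const.add (A'.contDiff.add (T.contDiff.comp (Q.contDiff.clm_apply contDiff_id)))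
  let D : EE k →L[ℂ] EE k →L[ℂ] V n :=
    (ContinuousLinearMap.compL ℂ (EE k) ℂ (V n) T).comp (Q + Q.flip)
  have hD : ∀ z X, D z X = T (Q z X + Q X z) := fun _ _ => rfl
  have hf1 : ∀ z, fderiv ℂ Φ z = A' + D z := by
    intro z
    have h1 : HasFDerivAt (fun z => Q z z) ((Q z).comp (ContinuousLinearMap.id ℂ (EE k)) +
        Q.flip z) z := Q.hasFDerivAt.clm_apply (hasFDerivAt_id z)
    have h2 := (A'.hasFDerivAt (x := z)).add (T.hasFDerivAt.comp z h1)
    have h3 : HasFDerivAt Φ (A' + T.comp ((Q z).comp (ContinuousLinearMap.id ℂ (EE k)) +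
        Q.flip z)) z := h2.const_add p
    rw [h3.fderiv]
    rfl
  have hf2 : ∀ z, fderiv ℂ (fderiv ℂ Φ) z = D := by
    intro z
    have h1 : fderiv ℂ Φ = fun z => A' + D z := funext hf1
    rw [h1]
    exact (D.hasFDerivAt.const_add A').fderiv
  have hf0 : fderiv ℂ Φ 0 = A' := by rw [hf1, map_zero, add_zero]
  have hΦ0 : Φ 0 = p := by
    change p + (A' 0 + T (Q 0 0)) = p
    simp
  refine ⟨Φ, hΦ, hΦ0, ?_, comp_smooth hr hΦ, ?_, ?_, ?_⟩
  · rw [hf0]
    exact ⟨A, rfl⟩
  · rw [hΦ0, hrp]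
  · intro z
    rw [comp_fderiv hr hΦ, hΦ0, hf0]
    exact hd z
  · intro y σ
    rw [comp_fderiv2 hr hΦ, hΦ0, hf0, hf2, ← hC, hD, hT]
    have h3 : fderiv ℝ r p (A (0, 0, Q (0, y, (σ : ℂ) * Complex.I) (0, y, (σ : ℂ) * Complex.I) +
        Q (0, y, (σ : ℂ) * Complex.I) (0, y, (σ : ℂ) * Complex.I))) =
        2 * (Q (0, y, (σ : ℂ) * Complex.I) (0, y, (σ : ℂ) * Complex.I)).re := by
      rw [hd, two_mul]
      rfl
    rw [h3, hQ]
    have h4 : A (0, y, (σ : ℂ) * Complex.I) = A (0, y, 0) + σ • e := by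
      have h5 : ((0, y, (σ : ℂ) * Complex.I) : EE k) =
          (0, y, 0) + (σ : ℂ) • ((0, 0, Complex.I) : EE k) := by
        simp
      rw [h5, map_add, map_smul]
      rfl
    change C (A (0, y, (σ : ℂ) * Complex.I)) (A (0, y, (σ : ℂ) * Complex.I)) + _ = _
    rw [h4]
    set a : V n := A (0, y, 0) with ha
    have h6 := hL y
    rw [← ha] at h6
    have h7 : Lv r p a = C a a + C (Complex.I • a) (Complex.I • a) := rfl
    rw [h7] at h6
    have h8 : (S0 C a a).re = (C a a - C (Complex.I • a) (Complex.I • a)) / 2 := S0_re C a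
    have h9 : (lc (C.flip e) a).re = C a e := lc_re _ _
    have h10 : ((-S0 C a a + 2 * Complex.I * ((σ : ℂ) * Complex.I) * lc (C.flip e) a +
        β * ((σ : ℂ) * Complex.I) * ((σ : ℂ) * Complex.I)) / 2).re =
        (-(S0 C a a).re - 2 * σ * (lc (C.flip e) a).re - β * σ ^ 2) / 2 := by
      have hII := Complex.I_mul_I
      have h11 : (-S0 C a a + 2 * Complex.I * ((σ : ℂ) * Complex.I) * lc (C.flip e) a +
        β * ((σ : ℂ) * Complex.I) * ((σ : ℂ) * Complex.I)) / 2 =
          (((1 / 2 : ℝ) : ℂ)) * (-S0 C a a) + ((-σ : ℝ) : ℂ) * lc (C.flip e) a +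
            ((-(β * σ ^ 2) / 2 : ℝ) : ℂ) := by
        push_cast
        linear_combination ((σ : ℂ) * lc (C.flip e) a + β * σ ^ 2 / 2) * hII
      rw [h11, Complex.add_re, Complex.add_re, Complex.re_ofReal_mul, Complex.re_ofReal_mul,
        Complex.ofReal_re, Complex.neg_re]
      ring
    rw [h10, h8, h9]
    simp only [map_add, map_smul, add_apply, smul_apply, smul_eq_mul]
    rw [hsymm e a]
    change C a a + σ * C a e + σ * (C a e + σ * β) + _ = _
    linear_combination h6 / 2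

end Pool.Agent.W417.CQ
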