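import Pool.Agent.W893.EV.Stm

namespace Pool.Agent.W417.EV

theorem clog_bd {M : ℕ} (hM : 2 ≤ M) : (Nat.clog 2 M : ℝ) ≤ 2 * Real.log M + 1 := by
  have h1 : 2 ^ (Nat.clog 2 M).pred < M := Nat.pow_pred_clog_lt_self (by norm_num) (by omega)
  have hc : 1 ≤ Nat.clog 2 M := Nat.clog_pos (by norm_num) hM
  have h2 : ((2 : ℝ) ^ (Nat.clog 2 M - 1)) ≤ (M : ℝ) := by
    have : 2 ^ (Nat.clog 2 M - 1) ≤ M := le_of_lt h1
    exact_mod_cast this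
  have h3 : ((Nat.clog 2 M - 1 : ℕ) : ℝ) * Real.log 2 ≤ Real.log M := by
    have := Real.log_le_log (by positivity) h2
    rwa [Real.log_pow] at this
  have h4 : (1 : ℝ) / 2 ≤ Real.log 2 := by linarith [Real.log_two_gt_d9]
  have h5 : ((Nat.clog 2 M - 1 : ℕ) : ℝ) = (Nat.clog 2 M : ℝ) - 1 := by
    push_cast [Nat.cast_sub hc]; ring
  rw [h5] at h3
  have h6 : (0 : ℝ) ≤ (Nat.clog 2 M : ℝ) - 1 := by
    have : (1 : ℝ) ≤ (Nat.clog 2 M : ℝ) := by exact_mod_cast hc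
    linarith
  nlinarith

theorem clog_big {n M : ℕ} (hM : 1 ≤ M) (h : n ≤ 4 * M ^ 2) :
    Nat.clog 2 ((n + 1) * M + 1) ≤ 3 * Nat.clog 2 M + 3 := by
  apply Nat.clog_le_of_le_pow
  have h1 : M ≤ 2 ^ Nat.clog 2 M := Nat.le_pow_clog (by norm_num) M
  have h2 : M ^ 3 ≤ (2 ^ Nat.clog 2 M) ^ 3 := Nat.pow_le_pow_left h1 3
  have h3 : (n + 1) * M + 1 ≤ 8 * M ^ 3 := by
    have a1 : (n + 1) * M ≤ (4 * M ^ 2 + 1) * M := Nat.mul_le_mul_right _ (by omega)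
    have a2 : (4 * M ^ 2 + 1) * M = 4 * M ^ 3 + M := by ring
    have a3 : M ≤ M ^ 3 := Nat.le_self_pow (by norm_num) M
    omega
  calc (n + 1) * M + 1 ≤ 8 * M ^ 3 := h3
    _ ≤ 8 * (2 ^ Nat.clog 2 M) ^ 3 := by omega
    _ = 2 ^ (3 * Nat.clog 2 M + 3) := by rw [pow_add, pow_mul']; ring

theorem big {ε : ℝ} (hε : 0 < ε) : ∃ K : ℕ, 2 ≤ K ∧ ∀ M : ℕ, K ≤ M →
    225 * (3 * (Nat.clog 2 M : ℝ) + 3) ≤ ε ^ 2 * M := by
  have hδ : 0 < ε ^ 2 / 2700 := by positivity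
  have h1 := (Real.isLittleO_log_id_atTop.def hδ)
  have h2 := tendsto_natCast_atTop_atTop (R := ℝ) |>.eventually h1
  obtain ⟨K1, hK1⟩ := Filter.eventually_atTop.1 h2
  obtain ⟨K2, hK2⟩ := exists_nat_ge (2700 / ε ^ 2)
  refine ⟨max 2 (max K1 K2), le_max_left _ _, fun M hM => ?_⟩
  have m1 : 2 ≤ M := le_trans (le_max_left _ _) hM
  have m2 : K1 ≤ M := le_trans (le_trans (le_max_left _ _) (le_max_right _ _)) hM
  have m3 : K2 ≤ M := le_trans (le_trans (le_max_right _ _) (le_max_right _ _)) hM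
  have a1 := hK1 M m2
  have a2 : Real.log (M : ℝ) ≤ ε ^ 2 / 2700 * M := by
    have b1 := le_trans (le_abs_self (Real.log (M : ℝ))) (by simpa [Real.norm_eq_abs] using a1)
    simpa using b1
  have a3 := clog_bd m1
  have a4 : 2700 / ε ^ 2 ≤ (M : ℝ) := le_trans hK2 (by exact_mod_cast m3)
  have a5 : 2700 ≤ ε ^ 2 * M := by
    rw [div_le_iff₀ (by positivity)] at a4
    linarith
  have a6 : ε ^ 2 / 2700 * (M : ℝ) = ε ^ 2 * M / 2700 := by ring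
  rw [a6] at a2
  linarith

theorem asy {ε : ℝ} (hε : 0 < ε) : ∃ N : ℕ, ∀ n : ℕ, N ≤ n → ∀ M : ℕ, n ≤ 4 * M ^ 2 →
    15 * Real.sqrt (Nat.clog 2 ((n + 1) * M + 1) : ℝ) ≤ ε * Real.sqrt M := by
  obtain ⟨K, hK2, hK⟩ := big hε
  refine ⟨4 * K ^ 2 + 1, fun n hn M hM => ?_⟩
  have hKM : K ≤ M := by
    by_contra hlt
    have : M ^ 2 ≤ K ^ 2 := Nat.pow_le_pow_left (by omega) 2
    omega
  have h1 := clog_big (n := n) (M := M) (by omega) hM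
  have h2 := hK M hKM
  have h3 : (Nat.clog 2 ((n + 1) * M + 1) : ℝ) ≤ 3 * (Nat.clog 2 M : ℝ) + 3 := by
    exact_mod_cast h1
  have e1 : 15 * Real.sqrt (Nat.clog 2 ((n + 1) * M + 1) : ℝ)
      = Real.sqrt (225 * (Nat.clog 2 ((n + 1) * M + 1) : ℝ)) := by
    rw [Real.sqrt_mul (by norm_num), show (225 : ℝ) = 15 ^ 2 by norm_num,
      Real.sqrt_sq (by norm_num)]
  have e2 : ε * Real.sqrt M = Real.sqrt (ε ^ 2 * M) := by
    rw [Real.sqrt_mul (by positivity), Real.sqrt_sq hε.le]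
  rw [e1, e2]
  apply Real.sqrt_le_sqrt
  linarith

theorem ASY_proof : Pool.Agent.W893.EV.ASY := by
  intro ε hε
  obtain ⟨N, hN⟩ := asy hε
  exact ⟨N, fun n M hn hM => hN n hn M hM⟩

end Pool.Agent.W417.EV
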