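import Mathlib

set_option autoImplicit false

namespace Pool.Agent.W417.FS

open Polynomial

/-- The data on the field `K` (of characteristic two) used in the construction: two sequences
`p n`, `r n`, an exhausting chain of subfields, and enough endomorphisms of `K`. -/
structure Tower (K : Type) [Field K] where
  p : ℕ → K
  r : ℕ → K
  kn : ℕ → Subfield K
  mono : ∀ n, kn n ≤ kn (n + 1)
  exh : ∀ c : K, ∃ n, c ∈ kn n
  p_mem : ∀ n, p n ∈ kn (n + 1)
  r_mem : ∀ n, r n ∈ kn (n + 1)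
  tau : ℕ → ℕ → K →+* K
  tau_fix : ∀ n j, ∀ c ∈ kn n, tau n j c = c
  tau_p : ∀ n j, tau n j (p n) = p n
  tau_r : ∀ n j, tau n j (r n) = r n + (p n) ^ (j + 1)
  rho : ℕ → ℕ → K →+* K
  rho_fix : ∀ n j, ∀ c ∈ kn n, rho n j c = c
  rho_p : ∀ n j, rho n j (p n) = p n + (r n) ^ (j + 1)
  p_inj : ∀ n, Function.Injective (fun j : ℕ => (p n) ^ (j + 1))
  r_inj : ∀ n, Function.Injective (fun j : ℕ => (r n) ^ (j + 1))

/-- The Cartier-type operators used for the Frobenius splitting. -/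
structure Cart {K : Type} [Field K] (T : Tower K) where
  l0 : K →+ K
  l1 : K →+ K
  l2 : K →+ K
  sq0 : ∀ a b, l0 (a ^ 2 * b) = a * l0 b
  sq1 : ∀ a b, l1 (a ^ 2 * b) = a * l1 b
  sq2 : ∀ a b, l2 (a ^ 2 * b) = a * l2 b
  mem0 : ∀ n, ∀ c ∈ T.kn n, l0 c ∈ T.kn n
  mem1 : ∀ n, ∀ c ∈ T.kn n, l1 c ∈ T.kn n
  mem2 : ∀ n, ∀ c ∈ T.kn n, l2 c ∈ T.kn n
  one0 : l0 1 = 1
  c1 : ∀ n, ∀ h ∈ T.kn (n + 1), l2 (T.p n * h) = l0 h
  c2 : ∀ n, ∀ h ∈ T.kn (n + 1), l0 (T.r n * h) = l1 (T.p n * h)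
  c3 : ∀ n, ∀ h ∈ T.kn (n + 1), l1 h + l0 (T.p n * h) + l2 (T.r n * h) = T.p n * l2 h
  c4 : ∀ n, ∀ h ∈ T.kn (n + 1), l1 (T.r n * h) = T.r n * l2 h

variable {K : Type} [Field K] (T : Tower K)

lemma Tower.mono' {n m : ℕ} (h : n ≤ m) : T.kn n ≤ T.kn m := by
  induction h with
  | refl => exact le_rfl
  | step _ ih => exact ih.trans (T.mono _)

lemma Tower.p_ne (n : ℕ) : T.p n ≠ 0 := by
  intro h
  have := T.p_inj n (a₁ := 0) (a₂ := 1) (by simp [h])
  omega

lemma Tower.r_ne (n : ℕ) : T.r n ≠ 0 := by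
  intro h
  have := T.r_inj n (a₁ := 0) (a₂ := 1) (by simp [h])
  omega

/-- The polynomials `G n = z² + p_n z + r_n`. -/
noncomputable def Tower.G (n : ℕ) : K[X] := X ^ 2 + C (T.p n) * X + C (T.r n)

lemma Tower.G_monic (n : ℕ) : (T.G n).Monic := by
  unfold Tower.G
  monicity!

lemma Tower.G_natDegree (n : ℕ) : (T.G n).natDegree = 2 := by
  unfold Tower.G
  compute_degree!

/-- Polynomials with coefficients in `kn n`. -/
def Tower.Kz (n : ℕ) : Subring K[X] where
  carrier := {f | ∀ i, f.coeff i ∈ T.kn n}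
  mul_mem' := by
    intro a b ha hb i
    rw [coeff_mul]
    exact sum_mem fun x _ => mul_mem (ha _) (hb _)
  one_mem' := by
    intro i
    rw [coeff_one]
    split_ifs
    · exact one_mem _
    · exact zero_mem _
  add_mem' := by
    intro a b ha hb i
    rw [coeff_add]
    exact add_mem (ha _) (hb _)
  zero_mem' := by
    intro i
    rw [coeff_zero]
    exact zero_mem _
  neg_mem' := by
    intro a ha i
    rw [coeff_neg]
    exact neg_mem (ha _)

lemma Tower.mem_Kz {n : ℕ} {f : K[X]} : f ∈ T.Kz n ↔ ∀ i, f.coeff i ∈ T.kn n := Iff.rfl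

lemma Tower.Kz_mono {n m : ℕ} (h : n ≤ m) : T.Kz n ≤ T.Kz m :=
  fun _ hf i => T.mono' h (hf i)

lemma Tower.C_mem_Kz {n : ℕ} {c : K} (hc : c ∈ T.kn n) : C c ∈ T.Kz n := by
  intro i
  rw [coeff_C]
  split_ifs
  · exact hc
  · exact zero_mem _

lemma Tower.X_mem_Kz (n : ℕ) : (X : K[X]) ∈ T.Kz n := by
  intro i
  rw [coeff_X]
  split_ifs
  · exact one_mem _
  · exact zero_mem _

lemma Tower.G_mem_Kz (n : ℕ) : T.G n ∈ T.Kz (n + 1) := by
  unfold Tower.G
  exact add_mem (add_mem (pow_mem (T.X_mem_Kz _) 2)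
    (mul_mem (T.C_mem_Kz (T.p_mem n)) (T.X_mem_Kz _))) (T.C_mem_Kz (T.r_mem n))

lemma Tower.exists_Kz (f : K[X]) : ∃ n, f ∈ T.Kz n := by
  induction f using Polynomial.induction_on' with
  | add f g hf hg =>
    obtain ⟨n, hn⟩ := hf
    obtain ⟨m, hm⟩ := hg
    exact ⟨max n m, add_mem (T.Kz_mono (le_max_left _ _) hn) (T.Kz_mono (le_max_right _ _) hm)⟩
  | monomial i c =>
    obtain ⟨n, hn⟩ := T.exh c
    refine ⟨n, ?_⟩
    rw [← C_mul_X_pow_eq_monomial]
    exact mul_mem (T.C_mem_Kz hn) (pow_mem (T.X_mem_Kz _) _)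

lemma Tower.map_tau {n j : ℕ} {a : K[X]} (ha : a ∈ T.Kz n) : a.map (T.tau n j) = a := by
  ext i
  rw [coeff_map, T.tau_fix n j _ (ha i)]

lemma Tower.map_rho {n j : ℕ} {a : K[X]} (ha : a ∈ T.Kz n) : a.map (T.rho n j) = a := by
  ext i
  rw [coeff_map, T.rho_fix n j _ (ha i)]

/-- (A1') -/
lemma Tower.eq_zero_of_dvd (n : ℕ) (a : K[X]) (ha : ∀ j, a.map (T.tau n j) = a)
    (h : T.G n ∣ a) : a = 0 := by
  by_contra ha0
  set H : ℕ → K[X] := fun j => T.G n + C ((T.p n) ^ (j + 1)) with hH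
  have hmap : ∀ j, (T.G n).map (T.tau n j) = H j := by
    intro j
    simp only [hH, Tower.G, Polynomial.map_add, Polynomial.map_mul, Polynomial.map_pow, map_X,
      map_C, T.tau_p, T.tau_r, C_add]
    ring
  have hdvd : ∀ j, H j ∣ a := by
    intro j
    have := Polynomial.map_dvd (T.tau n j) h
    rwa [hmap, ha j] at this
  have hcop : ∀ i j, i ≠ j → IsCoprime (H i) (H j) := by
    intro i j hij
    have hne : (T.p n) ^ (i + 1) - (T.p n) ^ (j + 1) ≠ 0 := by
      intro h0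
      exact hij (T.p_inj n (sub_eq_zero.mp h0))
    refine ⟨C (((T.p n) ^ (i + 1) - (T.p n) ^ (j + 1))⁻¹),
      -C (((T.p n) ^ (i + 1) - (T.p n) ^ (j + 1))⁻¹), ?_⟩
    have : C (((T.p n) ^ (i + 1) - (T.p n) ^ (j + 1))⁻¹) * H i +
        -C (((T.p n) ^ (i + 1) - (T.p n) ^ (j + 1))⁻¹) * H j =
        C ((((T.p n) ^ (i + 1) - (T.p n) ^ (j + 1))⁻¹) *
          ((T.p n) ^ (i + 1) - (T.p n) ^ (j + 1))) := by
      simp only [hH, C_mul, C_sub]
      ring
    rw [this, inv_mul_cancel₀ hne, C_1]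
  have hmon : ∀ j, (H j).Monic := by
    intro j
    rw [← hmap j]
    exact (T.G_monic n).map _
  have hdeg : ∀ j, (H j).natDegree = 2 := by
    intro j
    rw [← hmap j, (T.G_monic n).natDegree_map, T.G_natDegree]
  have hprod : (∏ j ∈ Finset.range (a.natDegree + 1), H j) ∣ a := by
    refine Finset.prod_dvd_of_coprime ?_ fun j _ => hdvd j
    intro i _ j _ hij
    exact hcop i j hij
  have h1 := Polynomial.natDegree_le_of_dvd hprod ha0
  rw [Polynomial.natDegree_prod_of_monic _ _ fun j _ => hmon j] at h1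
  simp only [hdeg, Finset.sum_const, Finset.card_range, smul_eq_mul] at h1
  omega

/-- (A2) -/
lemma Tower.A2 {n : ℕ} {u v : K[X]} (hu : u ∈ T.Kz n) (hv : v ∈ T.Kz n)
    (h : T.G n ∣ C (T.p n) * u - v) : u = 0 := by
  have h1 : C (T.p n) * u - v = 0 := by
    refine T.eq_zero_of_dvd n _ (fun j => ?_) h
    rw [Polynomial.map_sub, Polynomial.map_mul, map_C, T.tau_p, T.map_tau hu, T.map_tau hv]
  have h2 := congrArg (Polynomial.map (T.rho n 0)) h1
  rw [Polynomial.map_sub, Polynomial.map_mul, map_C, T.rho_p, T.map_rho hu, T.map_rho hv,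
    Polynomial.map_zero] at h2
  have h3 : C ((T.r n) ^ (0 + 1)) * u = 0 := by
    have : C ((T.r n) ^ (0 + 1)) * u = (C (T.p n + (T.r n) ^ (0 + 1)) * u - v) -
        (C (T.p n) * u - v) := by
      rw [C_add]; ring
    rw [this, h1, h2, sub_zero]
  rcases mul_eq_zero.mp h3 with h4 | h4
  · exfalso
    rw [C_eq_zero] at h4
    exact pow_ne_zero _ (T.r_ne n) h4
  · exact h4

variable [CharP K 2]

lemma two_zero : (2 : K[X]) = 0 := by
  have : ((2 : ℕ) : K[X]) = 0 := CharP.cast_eq_zero _ 2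
  exact_mod_cast this

/-- (A3) -/
lemma Tower.A3 {n : ℕ} {w : K} {a E : K[X]} (ha : a ∈ T.Kz n) (hE : E ∈ T.Kz n)
    (hE0 : E ≠ 0) (h : T.G n ∣ C w * E - a) : C w * E = a := by
  -- divisibility of constant multiples of `E`
  have key : ∀ c : K, T.G n ∣ C c * E → c = 0 := by
    intro c hc
    by_contra hc0
    have h1 : T.G n ∣ E := by
      have : E = C c⁻¹ * (C c * E) := by
        rw [← mul_assoc, ← C_mul, inv_mul_cancel₀ hc0, C_1, one_mul]
      rw [this]
      exact Dvd.dvd.mul_left hc _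
    exact hE0 (T.eq_zero_of_dvd n E (fun j => T.map_tau hE) h1)
  by_cases ha0 : a = 0
  · subst ha0
    rw [sub_zero] at h
    rw [key w h, C_0, zero_mul]
  -- the identity a(z+p)E(z) = a(z)E(z+p)
  have hG : (T.G n).comp (X + C (T.p n)) = T.G n := by
    simp only [Tower.G, add_comp, mul_comp, pow_comp, X_comp, C_comp]
    have h2 : (2 : K[X]) = 0 := two_zero
    linear_combination (X * C (T.p n) + C (T.p n) ^ 2) * h2
  have hcomp : ∀ {f g : K[X]}, f ∣ g → f.comp (X + C (T.p n)) ∣ g.comp (X + C (T.p n)) := by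
    rintro f g ⟨c, rfl⟩
    exact ⟨c.comp _, mul_comp _ _ _⟩
  have h1 : T.G n ∣ C w * E.comp (X + C (T.p n)) - a.comp (X + C (T.p n)) := by
    have := hcomp h
    rwa [hG, sub_comp, mul_comp, C_comp] at this
  have h2 : T.G n ∣ E * a.comp (X + C (T.p n)) - a * E.comp (X + C (T.p n)) := by
    have h3 := dvd_sub (Dvd.dvd.mul_left h (E.comp (X + C (T.p n)))) (Dvd.dvd.mul_left h1 E)
    convert h3 using 1
    ring
  have h3 : E * a.comp (X + C (T.p n)) - a * E.comp (X + C (T.p n)) = 0 := by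
    refine T.eq_zero_of_dvd n _ (fun j => ?_) h2
    rw [Polynomial.map_sub, Polynomial.map_mul, Polynomial.map_mul, Polynomial.map_comp,
      Polynomial.map_comp, Polynomial.map_add, map_X, map_C, T.tau_p, T.map_tau ha, T.map_tau hE]
  have h4 : ∀ j, E * a.comp (X + C (T.p n + (T.r n) ^ (j + 1))) =
      a * E.comp (X + C (T.p n + (T.r n) ^ (j + 1))) := by
    intro j
    have := congrArg (Polynomial.map (T.rho n j)) h3
    rw [Polynomial.map_sub, Polynomial.map_mul, Polynomial.map_mul, Polynomial.map_comp,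
      Polynomial.map_comp, Polynomial.map_add, map_X, map_C, T.rho_p, T.map_rho ha, T.map_rho hE,
      Polynomial.map_zero, sub_eq_zero] at this
    exact this
  -- polynomial identity in a second variable
  have h5 : (C E * taylor X (a.map C) - C a * taylor X (E.map C) : K[X][X]) = 0 := by
    apply Polynomial.eq_zero_of_infinite_isRoot
    apply Set.infinite_of_injective_forall_mem (f := fun j : ℕ => C (T.p n + (T.r n) ^ (j + 1)))
    · intro i j hij
      have := C_injective hij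
      exact T.r_inj n (add_left_cancel this)
    · intro j
      show IsRoot _ _
      rw [IsRoot.def, eval_sub, eval_mul, eval_mul, eval_C, eval_C, taylor_eval, taylor_eval,
        eval_map, eval_map, sub_eq_zero]
      have := h4 j
      rw [comp, comp] at this
      rwa [add_comm (C _) X]
  have h6 := congrArg leadingCoeff (sub_eq_zero.mp h5)
  rw [leadingCoeff_mul, leadingCoeff_mul, leadingCoeff_C, leadingCoeff_C, leadingCoeff_taylor,
    leadingCoeff_taylor, leadingCoeff_map_of_injective C_injective,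
    leadingCoeff_map_of_injective C_injective] at h6
  -- conclude
  have hlE : E.leadingCoeff ≠ 0 := leadingCoeff_ne_zero.mpr hE0
  have h7 : C E.leadingCoeff * (C w * E - a) = C (w * E.leadingCoeff - a.leadingCoeff) * E := by
    rw [C_sub, C_mul]
    linear_combination h6
  have h8 : w * E.leadingCoeff - a.leadingCoeff = 0 := by
    apply key
    rw [← h7]
    exact Dvd.dvd.mul_left h _
  rw [h8, C_0, zero_mul] at h7
  rcases mul_eq_zero.mp h7 with h9 | h9
  · exact absurd (C_eq_zero.mp h9) hlE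
  · exact sub_eq_zero.mp h9

end Pool.Agent.W417.FS
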