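import Pool.Agent.W417.FS0

set_option autoImplicit false

namespace Pool.Agent.W417.FS

open MvPolynomial

/-- The polynomial ring in countably many pairs of variables over the field with two elements. -/
abbrev PA : Type := MvPolynomial (ℕ × Bool) (ZMod 2)

/-- The subring of polynomials in the variables of index `< n`. -/
noncomputable def R0 (n : ℕ) : Subalgebra (ZMod 2) PA := supported (ZMod 2) {i | i.1 < n}

lemma R0_mono {n m : ℕ} (h : n ≤ m) : R0 n ≤ R0 m :=
  supported_mono fun _ hi => lt_of_lt_of_le hi h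

lemma X_mem_R0 {n : ℕ} {i : ℕ × Bool} (h : i.1 < n) : (X i : PA) ∈ R0 n := by
  unfold R0
  rw [X_mem_supported]
  exact h

lemma exists_R0 (a : PA) : ∃ n, a ∈ R0 n := by
  refine ⟨a.vars.sup (fun i => i.1 + 1), ?_⟩
  unfold R0
  rw [mem_supported]
  intro i hi
  show i.1 < _
  have : i.1 + 1 ≤ a.vars.sup (fun i => i.1 + 1) :=
    Finset.le_sup (f := fun i : ℕ × Bool => i.1 + 1) hi
  omega

lemma mem_R0_support {n : ℕ} {a : PA} (ha : a ∈ R0 n) {e : (ℕ × Bool) →₀ ℕ} (he : e ∈ a.support) :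
    ∀ i : ℕ × Bool, n ≤ i.1 → e i = 0 := by
  unfold R0 at ha
  rw [mem_supported] at ha
  intro i hi
  by_contra hne
  have h1 : i ∈ a.vars :=
    (mem_vars_iff_mem_support i).mpr ⟨e, he, Finsupp.mem_support_iff.mpr hne⟩
  have h2 : i.1 < n := ha h1
  omega

/-- the shift endomorphism `X i ↦ X i + X i' ^ (j+1)` -/
noncomputable def sh (i i' : ℕ × Bool) (j : ℕ) : PA →ₐ[ZMod 2] PA :=
  aeval fun k => if k = i then X i + X i' ^ (j + 1) else X k

lemma sh_X_self (i i' : ℕ × Bool) (j : ℕ) : sh i i' j (X i) = X i + X i' ^ (j + 1) := by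
  unfold sh
  rw [aeval_X, if_pos rfl]

lemma sh_X_of_ne {i i' k : ℕ × Bool} (j : ℕ) (h : k ≠ i) : sh i i' j (X k) = X k := by
  unfold sh
  rw [aeval_X, if_neg h]

lemma sh_sh {i i' : ℕ × Bool} (h : i' ≠ i) (j : ℕ) (a : PA) : sh i i' j (sh i i' j a) = a := by
  have : (sh i i' j).comp (sh i i' j) = AlgHom.id (ZMod 2) PA := by
    apply MvPolynomial.algHom_ext
    intro k
    show sh i i' j (sh i i' j (X k)) = X k
    by_cases hk : k = i
    · subst hk
      rw [sh_X_self, map_add, map_pow, sh_X_self, sh_X_of_ne j h, add_assoc,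
        CharTwo.add_self_eq_zero, add_zero]
    · rw [sh_X_of_ne j hk, sh_X_of_ne j hk]
  exact DFunLike.congr_fun this a

lemma sh_injective {i i' : ℕ × Bool} (h : i' ≠ i) (j : ℕ) : Function.Injective (sh i i' j) :=
  Function.LeftInverse.injective (g := sh i i' j) (sh_sh h j)

lemma sh_fix {i i' : ℕ × Bool} (j : ℕ) {a : PA} (ha : a ∈ R0 i.1) : sh i i' j a = a := by
  have : R0 i.1 ≤ AlgHom.equalizer (sh i i' j) (AlgHom.id (ZMod 2) PA) := by
    unfold R0
    rw [supported_eq_adjoin_X]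
    apply Algebra.adjoin_le
    rintro _ ⟨k, hk, rfl⟩
    show sh i i' j (X k) = X k
    apply sh_X_of_ne
    intro hki
    rw [hki] at hk
    exact lt_irrefl i.1 hk
  exact this ha

variable (K : Type) [Field K] [Algebra PA K] [IsFractionRing PA K]

lemma inj : Function.Injective (algebraMap PA K) := IsFractionRing.injective PA K

/-- The subfield generated by the variables of index `< n`. -/
noncomputable def kn (n : ℕ) : Subfield K where
  carrier := {x | ∃ a ∈ R0 n, ∃ b ∈ R0 n, b ≠ 0 ∧ x * algebraMap PA K b = algebraMap PA K a}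
  mul_mem' := by
    rintro x x' ⟨a, ha, b, hb, hb0, h⟩ ⟨a', ha', b', hb', hb0', h'⟩
    refine ⟨a * a', mul_mem ha ha', b * b', mul_mem hb hb', mul_ne_zero hb0 hb0', ?_⟩
    rw [map_mul, map_mul, ← h, ← h']
    ring
  one_mem' := ⟨1, one_mem _, 1, one_mem _, one_ne_zero, by rw [one_mul]⟩
  add_mem' := by
    rintro x x' ⟨a, ha, b, hb, hb0, h⟩ ⟨a', ha', b', hb', hb0', h'⟩
    refine ⟨a * b' + a' * b, add_mem (mul_mem ha hb') (mul_mem ha' hb), b * b', mul_mem hb hb',
      mul_ne_zero hb0 hb0', ?_⟩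
    rw [map_mul, map_add, map_mul, map_mul, ← h, ← h']
    ring
  zero_mem' := ⟨0, zero_mem _, 1, one_mem _, one_ne_zero, by rw [zero_mul, map_zero]⟩
  neg_mem' := by
    rintro x ⟨a, ha, b, hb, hb0, h⟩
    refine ⟨-a, neg_mem ha, b, hb, hb0, ?_⟩
    rw [map_neg, ← h]
    ring
  inv_mem' := by
    rintro x ⟨a, ha, b, hb, hb0, h⟩
    by_cases hx : x = 0
    · rw [hx, inv_zero]
      exact ⟨0, zero_mem _, 1, one_mem _, one_ne_zero, by rw [zero_mul, map_zero]⟩
    · have ha0 : a ≠ 0 := by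
        rintro rfl
        rw [map_zero] at h
        rcases mul_eq_zero.mp h with h1 | h1
        · exact hx h1
        · exact hb0 ((map_eq_zero_iff _ (inj K)).mp h1)
      refine ⟨b, hb, a, ha, ha0, ?_⟩
      rw [← h, ← mul_assoc, inv_mul_cancel₀ hx, one_mul]

lemma mem_kn {n : ℕ} {x : K} : x ∈ kn K n ↔
    ∃ a ∈ R0 n, ∃ b ∈ R0 n, b ≠ 0 ∧ x * algebraMap PA K b = algebraMap PA K a := Iff.rfl

lemma algebraMap_mem_kn {n : ℕ} {a : PA} (ha : a ∈ R0 n) : algebraMap PA K a ∈ kn K n :=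
  ⟨a, ha, 1, one_mem _, one_ne_zero, by rw [map_one, mul_one]⟩

/-- the endomorphism of `K` induced by `sh` -/
noncomputable def shK {i i' : ℕ × Bool} (h : i' ≠ i) (j : ℕ) : K →+* K :=
  IsFractionRing.lift (A := PA) (K := K) (L := K)
    (g := (algebraMap PA K).comp (sh i i' j).toRingHom)
    ((inj K).comp (sh_injective h j))

lemma shK_algebraMap {i i' : ℕ × Bool} (h : i' ≠ i) (j : ℕ) (a : PA) :
    shK K h j (algebraMap PA K a) = algebraMap PA K (sh i i' j a) :=
  IsFractionRing.lift_algebraMap _ _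

lemma shK_fix {i i' : ℕ × Bool} (h : i' ≠ i) (j : ℕ) {x : K} (hx : x ∈ kn K i.1) :
    shK K h j x = x := by
  obtain ⟨a, ha, b, hb, hb0, hab⟩ := hx
  have h1 := congrArg (shK K h j) hab
  rw [map_mul, shK_algebraMap, shK_algebraMap, sh_fix j ha, sh_fix j hb, ← hab] at h1
  exact mul_right_cancel₀ (fun h0 => hb0 ((map_eq_zero_iff _ (inj K)).mp h0)) h1

lemma X_pow_inj (i : ℕ × Bool) :
    Function.Injective fun j : ℕ => (algebraMap PA K (X i)) ^ (j + 1) := by
  intro a b hab
  simp only at hab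
  rw [← map_pow, ← map_pow] at hab
  have h1 := congrArg totalDegree (inj K hab)
  rw [totalDegree_X_pow, totalDegree_X_pow] at h1
  omega

lemma ft_ne (n : ℕ) : ((n, false) : ℕ × Bool) ≠ (n, true) := by simp
lemma tf_ne (n : ℕ) : ((n, true) : ℕ × Bool) ≠ (n, false) := by simp

/-- the tower on the fraction field -/
noncomputable def tower : Tower K where
  p n := algebraMap PA K (X (n, false))
  r n := algebraMap PA K (X (n, true))
  kn := kn K
  mono n := by
    rintro x ⟨a, ha, b, hb, hb0, h⟩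
    exact ⟨a, R0_mono (by omega) ha, b, R0_mono (by omega) hb, hb0, h⟩
  exh c := by
    obtain ⟨a, b, hb, rfl⟩ := IsFractionRing.div_surjective PA c
    obtain ⟨n, hn⟩ := exists_R0 a
    obtain ⟨m, hm⟩ := exists_R0 b
    exact ⟨max n m, div_mem (algebraMap_mem_kn K (R0_mono (le_max_left _ _) hn))
      (algebraMap_mem_kn K (R0_mono (le_max_right _ _) hm))⟩
  p_mem n := algebraMap_mem_kn K (X_mem_R0 (by simp))
  r_mem n := algebraMap_mem_kn K (X_mem_R0 (by simp))
  tau n j := shK K (ft_ne n) j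
  tau_fix n j c hc := shK_fix K (ft_ne n) j hc
  tau_p n j := by rw [shK_algebraMap, sh_X_of_ne _ (ft_ne n)]
  tau_r n j := by rw [shK_algebraMap, sh_X_self, map_add, map_pow]
  rho n j := shK K (tf_ne n) j
  rho_fix n j c hc := shK_fix K (tf_ne n) j hc
  rho_p n j := by rw [shK_algebraMap, sh_X_self, map_add, map_pow]
  p_inj n := X_pow_inj K _
  r_inj n := X_pow_inj K _

end Pool.Agent.W417.FS
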