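import Pool.Agent.W417.FS0

set_option autoImplicit false

namespace Pool.Agent.W417.FS

open Polynomial

variable {K : Type} [Field K] (T : Tower K)

/-- `G_j * k_{j+1}[z]`. -/
noncomputable def Tower.GK (j : ℕ) : AddSubgroup K[X] :=
  (T.Kz (j + 1)).toAddSubgroup.map (AddMonoidHom.mulLeft (T.G j))

lemma Tower.mem_GK {j : ℕ} {f : K[X]} : f ∈ T.GK j ↔ ∃ h ∈ T.Kz (j + 1), f = T.G j * h := by
  unfold Tower.GK
  rw [AddSubgroup.mem_map]
  constructor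
  · rintro ⟨h, hh, rfl⟩
    exact ⟨h, hh, rfl⟩
  · rintro ⟨h, hh, rfl⟩
    exact ⟨h, hh, rfl⟩

/-- sums of elements of `G_j * k_{j+1}[z]`, `n ≤ j < n + N`. -/
noncomputable def Tower.UU (n : ℕ) : ℕ → AddSubgroup K[X]
  | 0 => ⊥
  | N + 1 => Tower.UU n N ⊔ T.GK (n + N)

lemma Tower.UU_zero (n : ℕ) : T.UU n 0 = ⊥ := rfl

lemma Tower.mem_UU_succ {n N : ℕ} {f : K[X]} :
    f ∈ T.UU n (N + 1) ↔ ∃ g ∈ T.UU n N, ∃ h ∈ T.Kz (n + N + 1), f = g + T.G (n + N) * h := by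
  show f ∈ T.UU n N ⊔ T.GK (n + N) ↔ _
  rw [AddSubgroup.mem_sup]
  constructor
  · rintro ⟨g, hg, h', hh', rfl⟩
    obtain ⟨h, hh, rfl⟩ := T.mem_GK.mp hh'
    exact ⟨g, hg, h, hh, rfl⟩
  · rintro ⟨g, hg, h, hh, rfl⟩
    exact ⟨g, hg, _, T.mem_GK.mpr ⟨h, hh, rfl⟩, rfl⟩

lemma Tower.UU_mono (n : ℕ) : Monotone (T.UU n) :=
  monotone_nat_of_le_succ fun _ => le_sup_left

lemma Tower.UU_le_Kz (n N : ℕ) : ∀ f ∈ T.UU n N, f ∈ T.Kz (n + N) := by
  induction N with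
  | zero =>
    intro f hf
    rw [T.UU_zero, AddSubgroup.mem_bot] at hf
    rw [hf]
    exact zero_mem _
  | succ N ih =>
    intro f hf
    obtain ⟨g, hg, h, hh, rfl⟩ := T.mem_UU_succ.mp hf
    exact add_mem (T.Kz_mono (by omega) (ih g hg)) (mul_mem (T.G_mem_Kz _) hh)

/-- `U_n`. -/
noncomputable def Tower.U (n : ℕ) : AddSubgroup K[X] := ⨆ N, T.UU n N

lemma Tower.mem_U {n : ℕ} {f : K[X]} : f ∈ T.U n ↔ ∃ N, f ∈ T.UU n N := by
  unfold Tower.U
  exact AddSubgroup.mem_iSup_of_directed (T.UU_mono n).directed_le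

lemma Tower.G_mul_mem_U {n j : ℕ} (hj : n ≤ j) {h : K[X]} (hh : h ∈ T.Kz (j + 1)) :
    T.G j * h ∈ T.U n := by
  obtain ⟨N, rfl⟩ := Nat.exists_eq_add_of_le hj
  exact T.mem_U.mpr ⟨N + 1, T.mem_UU_succ.mpr ⟨0, zero_mem _, h, hh, by rw [zero_add]⟩⟩

/-- induction principle for `U_n` -/
lemma Tower.U_induction {n : ℕ} {motive : (f : K[X]) → f ∈ T.U n → Prop}
    (h0 : motive 0 (zero_mem _))
    (hadd : ∀ f g (hf : f ∈ T.U n) (hg : g ∈ T.U n), motive f hf → motive g hg →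
      motive (f + g) (add_mem hf hg))
    (hG : ∀ j (hj : n ≤ j) (h : K[X]) (hh : h ∈ T.Kz (j + 1)),
      motive (T.G j * h) (T.G_mul_mem_U hj hh)) :
    ∀ (f : K[X]) (hf : f ∈ T.U n), motive f hf := by
  intro f hf
  obtain ⟨N, hN⟩ := T.mem_U.mp hf
  induction N generalizing f with
  | zero =>
    rw [T.UU_zero, AddSubgroup.mem_bot] at hN
    subst hN
    exact h0
  | succ N ih =>
    obtain ⟨g, hg, h, hh, rfl⟩ := T.mem_UU_succ.mp hN
    exact hadd _ _ (T.mem_U.mpr ⟨N, hg⟩) (T.G_mul_mem_U (by omega) hh) (ih g _ hg)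
      (hG _ (by omega) h hh)

lemma Tower.U_anti {n m : ℕ} (h : n ≤ m) : T.U m ≤ T.U n := by
  intro f hf
  induction f, hf using T.U_induction with
  | h0 => exact zero_mem _
  | hadd f g _ _ hf hg => exact add_mem hf hg
  | hG j hj h' hh' => exact T.G_mul_mem_U (h.trans hj) hh'

lemma Tower.Kz_mul_U {n : ℕ} {g f : K[X]} (hg : g ∈ T.Kz (n + 1)) (hf : f ∈ T.U n) :
    g * f ∈ T.U n := by
  induction f, hf using T.U_induction with
  | h0 => rw [mul_zero]; exact zero_mem _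
  | hadd f g _ _ hf hg => rw [mul_add]; exact add_mem hf hg
  | hG j hj h hh =>
    have : g * (T.G j * h) = T.G j * (g * h) := by ring
    rw [this]
    exact T.G_mul_mem_U hj (mul_mem (T.Kz_mono (by omega) hg) hh)

lemma Tower.G_mul_mul_U {n i : ℕ} (hi : n ≤ i) {h f : K[X]} (hh : h ∈ T.Kz (i + 1))
    (hf : f ∈ T.U n) : T.G i * h * f ∈ T.U n := by
  induction f, hf using T.U_induction with
  | h0 => rw [mul_zero]; exact zero_mem _
  | hadd f g _ _ hf hg => rw [mul_add]; exact add_mem hf hg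
  | hG j hj h' hh' =>
    rcases le_total i j with hij | hij
    · have : T.G i * h * (T.G j * h') = T.G j * (T.G i * h * h') := by ring
      rw [this]
      exact T.G_mul_mem_U hj
        (mul_mem (T.Kz_mono (by omega) (mul_mem (T.G_mem_Kz i) hh)) hh')
    · have : T.G i * h * (T.G j * h') = T.G i * (T.G j * h' * h) := by ring
      rw [this]
      exact T.G_mul_mem_U hi
        (mul_mem (T.Kz_mono (by omega) (mul_mem (T.G_mem_Kz j) hh')) hh)

lemma Tower.U_mul_U {n : ℕ} {g f : K[X]} (hg : g ∈ T.U n) (hf : f ∈ T.U n) :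
    g * f ∈ T.U n := by
  induction g, hg using T.U_induction with
  | h0 => rw [zero_mul]; exact zero_mem _
  | hadd f g _ _ hf hg => rw [add_mul]; exact add_mem hf hg
  | hG i hi h hh => exact T.G_mul_mul_U hi hh hf

/-- `V_n = k_n[z] + U_n`. -/
noncomputable def Tower.V (n : ℕ) : Subring K[X] where
  carrier := {f | ∃ g ∈ T.Kz n, ∃ u ∈ T.U n, f = g + u}
  mul_mem' := by
    rintro _ _ ⟨g, hg, u, hu, rfl⟩ ⟨g', hg', u', hu', rfl⟩
    refine ⟨g * g', mul_mem hg hg', g * u' + g' * u + u * u', ?_, by ring⟩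
    exact add_mem (add_mem (T.Kz_mul_U (T.Kz_mono (by omega) hg) hu')
      (T.Kz_mul_U (T.Kz_mono (by omega) hg') hu)) (T.U_mul_U hu hu')
  one_mem' := ⟨1, one_mem _, 0, zero_mem _, by ring⟩
  add_mem' := by
    rintro _ _ ⟨g, hg, u, hu, rfl⟩ ⟨g', hg', u', hu', rfl⟩
    exact ⟨g + g', add_mem hg hg', u + u', add_mem hu hu', by ring⟩
  zero_mem' := ⟨0, zero_mem _, 0, zero_mem _, by ring⟩
  neg_mem' := by
    rintro _ ⟨g, hg, u, hu, rfl⟩
    exact ⟨-g, neg_mem hg, -u, neg_mem hu, by ring⟩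

lemma Tower.mem_V {n : ℕ} {f : K[X]} : f ∈ T.V n ↔ ∃ g ∈ T.Kz n, ∃ u ∈ T.U n, f = g + u :=
  Iff.rfl

lemma Tower.Kz_le_V (n : ℕ) : T.Kz n ≤ T.V n := fun f hf => ⟨f, hf, 0, zero_mem _, by ring⟩

lemma Tower.U_le_V {n : ℕ} {f : K[X]} (hf : f ∈ T.U n) : f ∈ T.V n :=
  ⟨0, zero_mem _, f, hf, by ring⟩

lemma Tower.U_le_V_succ {n : ℕ} {f : K[X]} (hf : f ∈ T.U n) : f ∈ T.V (n + 1) := by
  induction f, hf using T.U_induction with
  | h0 => exact zero_mem _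
  | hadd f g _ _ hf hg => exact add_mem hf hg
  | hG j hj h hh =>
    rcases Nat.eq_or_lt_of_le hj with hj' | hj'
    · subst hj'
      exact T.Kz_le_V _ (mul_mem (T.G_mem_Kz _) hh)
    · exact T.U_le_V (T.G_mul_mem_U hj' hh)

lemma Tower.V_succ (n : ℕ) : T.V n ≤ T.V (n + 1) := by
  rintro _ ⟨g, hg, u, hu, rfl⟩
  exact add_mem (T.Kz_le_V _ (T.Kz_mono (by omega) hg)) (T.U_le_V_succ hu)

lemma Tower.V_mono {n m : ℕ} (h : n ≤ m) : T.V n ≤ T.V m := by
  induction h with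
  | refl => exact le_rfl
  | step _ ih => exact ih.trans (T.V_succ _)

lemma Tower.U_mul_V {n : ℕ} {u v : K[X]} (hu : u ∈ T.U n) (hv : v ∈ T.V n) : u * v ∈ T.U n := by
  obtain ⟨g, hg, w, hw, rfl⟩ := hv
  rw [mul_add, mul_comm u g]
  exact add_mem (T.Kz_mul_U (T.Kz_mono (by omega) hg) hu) (T.U_mul_U hu hw)

/-- (A0) -/
lemma Tower.A0 {n : ℕ} {f : K[X]} (hf : f ∈ T.U n) (hf' : f ∈ T.Kz n) : f = 0 := by
  obtain ⟨N, hN⟩ := T.mem_U.mp hf
  clear hf
  induction N with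
  | zero =>
    rwa [T.UU_zero, AddSubgroup.mem_bot] at hN
  | succ N ih =>
    obtain ⟨g, hg, h, hh, hfg⟩ := T.mem_UU_succ.mp hN
    have h1 : T.G (n + N) * h ∈ T.Kz (n + N) := by
      have : T.G (n + N) * h = f - g := by rw [hfg]; ring
      rw [this]
      exact sub_mem (T.Kz_mono (by omega) hf') (T.UU_le_Kz _ _ g hg)
    have h2 : T.G (n + N) * h = 0 :=
      T.eq_zero_of_dvd (n + N) _ (fun j => T.map_tau h1) (Dvd.intro _ rfl)
    rw [h2, add_zero] at hfg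
    apply ih
    rwa [hfg]

lemma Tower.U_split {n : ℕ} {f : K[X]} (hf : f ∈ T.U n) :
    ∃ h ∈ T.Kz (n + 1), ∃ u ∈ T.U (n + 1), f = T.G n * h + u := by
  induction f, hf using T.U_induction with
  | h0 => exact ⟨0, zero_mem _, 0, zero_mem _, by ring⟩
  | hadd f g _ _ hf hg =>
    obtain ⟨h, hh, u, hu, rfl⟩ := hf
    obtain ⟨h', hh', u', hu', rfl⟩ := hg
    exact ⟨h + h', add_mem hh hh', u + u', add_mem hu hu', by ring⟩
  | hG j hj h hh =>
    rcases Nat.eq_or_lt_of_le hj with hj' | hj'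
    · subst hj'
      exact ⟨h, hh, 0, zero_mem _, by ring⟩
    · exact ⟨0, zero_mem _, _, T.G_mul_mem_U hj' hh, by ring⟩

lemma Tower.G_dvd_of_mem {n : ℕ} {f : K[X]} (hf : f ∈ T.U n) (hf' : f ∈ T.Kz (n + 1)) :
    T.G n ∣ f := by
  obtain ⟨h, hh, u, hu, hfu⟩ := T.U_split hf
  have h1 : u ∈ T.Kz (n + 1) := by
    have : u = f - T.G n * h := by rw [hfu]; ring
    rw [this]
    exact sub_mem hf' (mul_mem (T.G_mem_Kz n) hh)
  rw [hfu, T.A0 hu h1, add_zero]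
  exact Dvd.intro _ rfl

/-- (A2'') -/
lemma Tower.A2V {t : ℕ} {u v : K[X]} (hu : u ∈ T.V t) (hv : v ∈ T.V t)
    (h : C (T.p t) * u = v) : u ∈ T.U t := by
  obtain ⟨u0, hu0, u1, hu1, rfl⟩ := hu
  obtain ⟨v0, hv0, v1, hv1, rfl⟩ := hv
  have h1 : C (T.p t) * u0 - v0 = v1 - C (T.p t) * u1 := by linear_combination h
  have h2 : C (T.p t) * u0 - v0 ∈ T.U t := by
    rw [h1]
    exact sub_mem hv1 (T.Kz_mul_U (T.C_mem_Kz (T.p_mem t)) hu1)
  have h3 : C (T.p t) * u0 - v0 ∈ T.Kz (t + 1) :=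
    sub_mem (mul_mem (T.C_mem_Kz (T.p_mem t)) (T.Kz_mono (by omega) hu0))
      (T.Kz_mono (by omega) hv0)
  rw [T.A2 hu0 hv0 (T.G_dvd_of_mem h2 h3), zero_add]
  exact hu1

/-- cancellation of a polynomial with coefficients in `k_t` modulo `U_t` -/
lemma Tower.cancel {t : ℕ} {a E : K[X]} (ha : a ∈ T.V t) (hE : E ∈ T.Kz t) (hE0 : E ≠ 0)
    (h : a * E ∈ T.U t) : a ∈ T.U t := by
  obtain ⟨g, hg, u, hu, rfl⟩ := ha
  have h1 : g * E ∈ T.U t := by
    have : g * E = (g + u) * E - E * u := by ring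
    rw [this]
    exact sub_mem h (T.Kz_mul_U (T.Kz_mono (by omega) hE) hu)
  have h2 := T.A0 h1 (mul_mem hg hE)
  rcases mul_eq_zero.mp h2 with h3 | h3
  · rw [h3, zero_add]; exact hu
  · exact absurd h3 hE0

variable [CharP K 2]

/-- (E) -/
lemma Tower.E_notMem {t : ℕ} {E : K[X]} (hE : E ∈ T.Kz t) (hE0 : E ≠ 0) (c : K) :
    (C c + X) * E ∉ T.U t := by
  intro hmem
  obtain ⟨N, hN⟩ := T.mem_U.mp hmem
  clear hmem
  induction N with
  | zero =>
    rw [T.UU_zero, AddSubgroup.mem_bot] at hN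
    rcases mul_eq_zero.mp hN with h | h
    · have := congrArg (fun f => coeff f 1) h
      simp at this
    · exact hE0 h
  | succ N ih =>
    obtain ⟨g, hg, h, hh, hfg⟩ := T.mem_UU_succ.mp hN
    have h1 : T.G (t + N) ∣ C c * E - (g - X * E) := by
      have : C c * E - (g - X * E) = T.G (t + N) * h := by linear_combination hfg
      rw [this]
      exact Dvd.intro _ rfl
    have h2 := T.A3 (sub_mem (T.UU_le_Kz _ _ g hg)
      (mul_mem (T.X_mem_Kz _) (T.Kz_mono (by omega) hE)) : g - X * E ∈ T.Kz (t + N))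
      (T.Kz_mono (by omega) hE) hE0 h1
    apply ih
    have : (C c + X) * E = g := by linear_combination h2
    rwa [this]

end Pool.Agent.W417.FS
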