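import Pool.Agent.W417.FS2

set_option autoImplicit false

namespace Pool.Agent.W417.FS

open Polynomial

variable {K : Type} [Field K] (T : Tower K)

/-- power series `∑ F_d X^d` with `F_d ∈ W` and `deg F_d ≤ d`. -/
def Rs (W : Subring K[X]) : Subring (PowerSeries K[X]) where
  carrier := {F | ∀ d, (PowerSeries.coeff d F).natDegree ≤ d ∧ PowerSeries.coeff d F ∈ W}
  mul_mem' := by
    intro F G hF hG d
    rw [PowerSeries.coeff_mul]
    constructor
    · refine natDegree_sum_le_of_forall_le _ _ fun x hx => ?_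
      have h1 := Finset.HasAntidiagonal.mem_antidiagonal.mp hx
      have h2 := (hF x.1).1
      have h3 := (hG x.2).1
      exact natDegree_mul_le.trans (by omega)
    · exact sum_mem fun x _ => mul_mem (hF _).2 (hG _).2
  one_mem' := by
    intro d
    rw [PowerSeries.coeff_one]
    split_ifs
    · exact ⟨by simp, one_mem _⟩
    · exact ⟨by simp, zero_mem _⟩
  add_mem' := by
    intro F G hF hG d
    rw [map_add]
    exact ⟨natDegree_add_le_of_degree_le (hF d).1 (hG d).1, add_mem (hF d).2 (hG d).2⟩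
  zero_mem' := by
    intro d
    rw [map_zero]
    exact ⟨by simp, zero_mem _⟩
  neg_mem' := by
    intro F hF d
    rw [map_neg]
    exact ⟨by rw [natDegree_neg]; exact (hF d).1, neg_mem (hF d).2⟩

lemma mem_Rs {W : Subring K[X]} {F : PowerSeries K[X]} :
    F ∈ Rs W ↔ ∀ d, (PowerSeries.coeff d F).natDegree ≤ d ∧ PowerSeries.coeff d F ∈ W := Iff.rfl

lemma Rs_mono {W W' : Subring K[X]} (h : W ≤ W') : Rs W ≤ Rs W' :=
  fun _ hF d => ⟨(hF d).1, h (hF d).2⟩

lemma monomial_mem_Rs {W : Subring K[X]} {f : K[X]} {d : ℕ} (hf : f.natDegree ≤ d) (hW : f ∈ W) :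
    PowerSeries.monomial d f ∈ Rs W := by
  intro e
  rw [PowerSeries.coeff_monomial]
  split_ifs with h
  · subst h; exact ⟨hf, hW⟩
  · exact ⟨by simp, zero_mem _⟩

/-- `R_(n)` -/
noncomputable def Tower.Rn (n : ℕ) : Subring (PowerSeries K[X]) := Rs (T.V n)

lemma Tower.Rn_mono {n m : ℕ} (h : n ≤ m) : T.Rn n ≤ T.Rn m := Rs_mono (T.V_mono h)

lemma Tower.Rn_le_Rs (n : ℕ) : T.Rn n ≤ Rs ⊤ := Rs_mono le_top

/-- The ring `R`. -/
noncomputable def Tower.R : Subring (PowerSeries K[X]) where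
  carrier := {F | F ∈ Rs ⊤ ∧ ∃ n, ∃ S ∈ T.Rn n, S ≠ 0 ∧ S * F ∈ T.Rn n}
  mul_mem' := by
    rintro F F' ⟨hF, n, S, hS, hS0, hSF⟩ ⟨hF', n', S', hS', hS0', hSF'⟩
    refine ⟨mul_mem hF hF', max n n', S * S',
      mul_mem (T.Rn_mono (le_max_left _ _) hS) (T.Rn_mono (le_max_right _ _) hS'),
      mul_ne_zero hS0 hS0', ?_⟩
    have : S * S' * (F * F') = (S * F) * (S' * F') := by ring
    rw [this]
    exact mul_mem (T.Rn_mono (le_max_left _ _) hSF) (T.Rn_mono (le_max_right _ _) hSF')
  one_mem' := ⟨one_mem _, 0, 1, one_mem _, one_ne_zero, by rw [mul_one]; exact one_mem _⟩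
  add_mem' := by
    rintro F F' ⟨hF, n, S, hS, hS0, hSF⟩ ⟨hF', n', S', hS', hS0', hSF'⟩
    refine ⟨add_mem hF hF', max n n', S * S',
      mul_mem (T.Rn_mono (le_max_left _ _) hS) (T.Rn_mono (le_max_right _ _) hS'),
      mul_ne_zero hS0 hS0', ?_⟩
    have : S * S' * (F + F') = (S * F) * S' + (S' * F') * S := by ring
    rw [this]
    exact add_mem (mul_mem (T.Rn_mono (le_max_left _ _) hSF) (T.Rn_mono (le_max_right _ _) hS'))
      (mul_mem (T.Rn_mono (le_max_right _ _) hSF') (T.Rn_mono (le_max_left _ _) hS))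
  zero_mem' := ⟨zero_mem _, 0, 1, one_mem _, one_ne_zero, by rw [mul_zero]; exact zero_mem _⟩
  neg_mem' := by
    rintro F ⟨hF, n, S, hS, hS0, hSF⟩
    refine ⟨neg_mem hF, n, S, hS, hS0, ?_⟩
    rw [mul_neg]
    exact neg_mem hSF

lemma Tower.mem_R {F : PowerSeries K[X]} :
    F ∈ T.R ↔ F ∈ Rs ⊤ ∧ ∃ n, ∃ S ∈ T.Rn n, S ≠ 0 ∧ S * F ∈ T.Rn n := Iff.rfl

lemma Tower.Rn_le_R (n : ℕ) : T.Rn n ≤ T.R := fun F hF =>
  ⟨T.Rn_le_Rs n hF, n, 1, one_mem _, one_ne_zero, by rwa [one_mul]⟩

/-- saturation -/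
lemma Tower.sat {A F : PowerSeries K[X]} (hA : A ∈ T.R) (hA0 : A ≠ 0) (hF : F ∈ Rs ⊤)
    (hAF : A * F ∈ T.R) : F ∈ T.R := by
  obtain ⟨_, n, S, hS, hS0, hSA⟩ := hA
  obtain ⟨_, n', S', hS', hS0', hSF'⟩ := hAF
  refine ⟨hF, max n n', (S * A) * S',
    mul_mem (T.Rn_mono (le_max_left _ _) hSA) (T.Rn_mono (le_max_right _ _) hS'),
    mul_ne_zero (mul_ne_zero hS0 hA0) hS0', ?_⟩
  have : S * A * S' * F = S * (S' * (A * F)) := by ring
  rw [this]
  exact mul_mem (T.Rn_mono (le_max_left _ _) hS) (T.Rn_mono (le_max_right _ _) hSF')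

/-- the top-degree part -/
noncomputable def top (F : PowerSeries K[X]) : PowerSeries K :=
  PowerSeries.mk fun d => (PowerSeries.coeff d F).coeff d

lemma coeff_top (F : PowerSeries K[X]) (d : ℕ) :
    PowerSeries.coeff d (top F) = (PowerSeries.coeff d F).coeff d := PowerSeries.coeff_mk _ _

lemma top_mul {F G : PowerSeries K[X]} (hF : F ∈ Rs (⊤ : Subring K[X])) (hG : G ∈ Rs (⊤ : Subring K[X])) :
    top (F * G) = top F * top G := by
  ext d
  rw [coeff_top, PowerSeries.coeff_mul, PowerSeries.coeff_mul, finsetSum_coeff]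
  refine Finset.sum_congr rfl fun x hx => ?_
  rw [coeff_top, coeff_top, ← Finset.HasAntidiagonal.mem_antidiagonal.mp hx]
  exact coeff_mul_add_eq_of_natDegree_le (hF _).1 (hG _).1

/-- the top-degree part, as a ring homomorphism -/
noncomputable def Tower.topHom : T.R →+* PowerSeries K where
  toFun F := top F.1
  map_one' := by
    ext d
    rw [coeff_top]
    show (PowerSeries.coeff d (1 : PowerSeries K[X])).coeff d = _
    rw [PowerSeries.coeff_one, PowerSeries.coeff_one]
    split_ifs with h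
    · subst h; simp
    · simp
  map_mul' F G := top_mul F.2.1 G.2.1
  map_zero' := by
    ext d
    rw [coeff_top]
    show (PowerSeries.coeff d (0 : PowerSeries K[X])).coeff d = _
    simp
  map_add' F G := by
    ext d
    rw [coeff_top]
    show (PowerSeries.coeff d (F.1 + G.1)).coeff d = _
    rw [map_add, map_add, coeff_add, coeff_top, coeff_top]

lemma Tower.topHom_apply (F : T.R) : T.topHom F = top F.1 := rfl

lemma X_mem_Rs (W : Subring K[X]) : (PowerSeries.X : PowerSeries K[X]) ∈ Rs W := by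
  rw [PowerSeries.X_eq]
  exact monomial_mem_Rs (by simp) (one_mem _)

lemma Tower.X_mem_R : (PowerSeries.X : PowerSeries K[X]) ∈ T.R :=
  T.Rn_le_R 0 (X_mem_Rs _)

lemma Tower.Y_mem_R : (PowerSeries.monomial 1 (X : K[X]) : PowerSeries K[X]) ∈ T.R :=
  T.Rn_le_R 0 (monomial_mem_Rs (by simp) (T.Kz_le_V 0 (T.X_mem_Kz 0)))

/-- The element `x` of `R`. -/
noncomputable def Tower.x : T.R := ⟨PowerSeries.X, T.X_mem_R⟩

/-- The element `y` of `R`. -/
noncomputable def Tower.y : T.R := ⟨PowerSeries.monomial 1 (X : K[X]), T.Y_mem_R⟩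

lemma Tower.top_surj (g : PowerSeries K) :
    ∃ F : T.R, T.topHom F = g := by
  classical
  have hex : ∀ d, ∃ j, PowerSeries.coeff d g ∈ T.kn (j + 1) := fun d => by
    obtain ⟨n, hn⟩ := T.exh (PowerSeries.coeff d g)
    exact ⟨n, T.mono n hn⟩
  choose j hj using hex
  obtain ⟨m0, hm0⟩ := T.exh (PowerSeries.coeff 0 g)
  obtain ⟨m1, hm1⟩ := T.exh (PowerSeries.coeff 1 g)
  set m := max m0 m1
  set F : PowerSeries K[X] := PowerSeries.mk fun d =>
    if d ≤ 1 then C (PowerSeries.coeff d g) * X ^ d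
    else T.G (j d) * (C (PowerSeries.coeff d g) * X ^ (d - 2)) with hF
  have hFm : F ∈ T.Rn m := by
    intro d
    rw [hF, PowerSeries.coeff_mk]
    split_ifs with hd
    · constructor
      · exact natDegree_C_mul_X_pow_le _ _
      · apply T.Kz_le_V
        refine mul_mem (T.C_mem_Kz ?_) (pow_mem (T.X_mem_Kz _) _)
        rcases Nat.le_one_iff_eq_zero_or_eq_one.mp hd with h | h
        · rw [h]; exact T.mono' (le_max_left _ _) hm0
        · rw [h]; exact T.mono' (le_max_right _ _) hm1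
    · constructor
      · refine natDegree_mul_le.trans ?_
        rw [T.G_natDegree]
        have := natDegree_C_mul_X_pow_le (PowerSeries.coeff d g) (d - 2)
        omega
      · apply T.V_mono (Nat.zero_le m)
        apply T.U_le_V
        exact T.G_mul_mem_U (Nat.zero_le _)
          (mul_mem (T.C_mem_Kz (hj d)) (pow_mem (T.X_mem_Kz _) _))
  refine ⟨⟨F, T.Rn_le_R m hFm⟩, ?_⟩
  rw [T.topHom_apply]
  ext d
  rw [coeff_top]
  show (PowerSeries.coeff d F).coeff d = _
  rw [hF, PowerSeries.coeff_mk]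
  split_ifs with hd
  · rw [coeff_C_mul, coeff_X_pow, if_pos rfl, mul_one]
  · have h2 : d = 2 + (d - 2) := by omega
    have h3 : (T.G (j d) * (C (PowerSeries.coeff d g) * X ^ (d - 2))).coeff (2 + (d - 2)) =
        (T.G (j d)).coeff 2 * (C (PowerSeries.coeff d g) * X ^ (d - 2)).coeff (d - 2) :=
      coeff_mul_add_eq_of_natDegree_le (T.G_natDegree _).le (natDegree_C_mul_X_pow_le _ _)
    rw [← h2] at h3
    rw [h3]
    have h4 : (T.G (j d)).coeff 2 = 1 := by
      have := T.G_monic (j d)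
      rw [Monic, leadingCoeff, T.G_natDegree] at this
      exact this
    rw [h4, one_mul, coeff_C_mul, coeff_X_pow, if_pos rfl, mul_one]

lemma Tower.ker_top {F : T.R} (h : T.topHom F = 0) : ∃ F' : T.R, F = T.x * F' := by
  have hc : ∀ d, (PowerSeries.coeff d F.1).coeff d = 0 := by
    intro d
    rw [← coeff_top, ← T.topHom_apply, h, map_zero]
  set F' : PowerSeries K[X] := PowerSeries.mk fun d => PowerSeries.coeff (d + 1) F.1 with hF'
  have hFF' : F.1 = PowerSeries.X * F' := by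
    ext1 d
    cases d with
    | zero =>
      rw [PowerSeries.coeff_zero_X_mul]
      have h1 := (F.2.1 0).1
      rw [Nat.le_zero] at h1
      rw [eq_C_of_natDegree_eq_zero h1, hc 0, C_0]
    | succ d =>
      rw [PowerSeries.coeff_succ_X_mul, hF', PowerSeries.coeff_mk]
  have hF'mem : F' ∈ Rs (⊤ : Subring K[X]) := by
    intro d
    refine ⟨?_, trivial⟩
    rw [hF', PowerSeries.coeff_mk, natDegree_le_iff_coeff_eq_zero]
    intro N hN
    rcases Nat.eq_or_lt_of_le (Nat.succ_le_of_lt hN) with h1 | h1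
    · rw [← h1]; exact hc _
    · exact coeff_eq_zero_of_natDegree_lt (lt_of_le_of_lt (F.2.1 (d + 1)).1 h1)
  have hX0 : (PowerSeries.X : PowerSeries K[X]) ≠ 0 := PowerSeries.X_ne_zero
  refine ⟨⟨F', T.sat T.X_mem_R hX0 hF'mem (by rw [← hFF']; exact F.2)⟩, ?_⟩
  apply Subtype.ext
  exact hFF'

lemma Tower.top_x : T.topHom T.x = 0 := by
  ext d
  rw [T.topHom_apply, coeff_top]
  show (PowerSeries.coeff d (PowerSeries.X : PowerSeries K[X])).coeff d = _
  rw [PowerSeries.coeff_X]
  split_ifs with h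
  · subst h; simp [coeff_one]
  · simp

lemma Tower.top_y : T.topHom T.y = PowerSeries.X := by
  ext d
  rw [T.topHom_apply, coeff_top]
  show (PowerSeries.coeff d (PowerSeries.monomial 1 (X : K[X]) : PowerSeries K[X])).coeff d = _
  rw [PowerSeries.coeff_monomial, PowerSeries.coeff_X]
  split_ifs with h
  · subst h; simp
  · simp

lemma exists_inv {F : PowerSeries K[X]} (hF : F ∈ Rs (⊤ : Subring K[X]))
    (h0 : PowerSeries.coeff 0 F ≠ 0) : ∃ F' ∈ Rs (⊤ : Subring K[X]), F * F' = 1 := by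
  have h1 := (hF 0).1
  rw [Nat.le_zero] at h1
  have h2 := eq_C_of_natDegree_eq_zero h1
  set c := (PowerSeries.coeff 0 F).coeff 0 with hc
  have hc0 : c ≠ 0 := by
    intro h
    rw [h, C_0] at h2
    exact h0 h2
  let u : (K[X])ˣ := Units.map (C : K →+* K[X]).toMonoidHom (Units.mk0 c hc0)
  have hu : (u : K[X]) = C c := rfl
  have hu' : ((u⁻¹ : (K[X])ˣ) : K[X]) = C c⁻¹ := rfl
  refine ⟨F.invOfUnit u, ?_, PowerSeries.mul_invOfUnit _ _
    (by rw [hu, ← h2, PowerSeries.coeff_zero_eq_constantCoeff_apply])⟩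
  have key : ∀ d, (PowerSeries.coeff d (F.invOfUnit u)).natDegree ≤ d := by
    intro d
    induction d using Nat.strong_induction_on with
    | _ d ih =>
      rw [PowerSeries.coeff_invOfUnit]
      split_ifs with hd
      · rw [hu', natDegree_C]; exact Nat.zero_le _
      · rw [hu', neg_mul, natDegree_neg]
        refine (natDegree_C_mul_le _ _).trans ?_
        refine natDegree_sum_le_of_forall_le _ _ fun x hx => ?_
        have h3 := Finset.HasAntidiagonal.mem_antidiagonal.mp hx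
        split_ifs with hx2
        · have h4 := (hF x.1).1
          have h5 := ih x.2 hx2
          exact natDegree_mul_le.trans (by omega)
        · simp
  exact fun d => ⟨key d, trivial⟩

lemma Tower.isUnit_iff (F : T.R) : IsUnit F ↔ PowerSeries.coeff 0 F.1 ≠ 0 := by
  constructor
  · intro h
    have h1 : IsUnit (PowerSeries.constantCoeff F.1) :=
      (h.map (T.R.subtype)).map (PowerSeries.constantCoeff (R := K[X]))
    rw [PowerSeries.coeff_zero_eq_constantCoeff_apply]
    exact h1.ne_zero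
  · intro h
    obtain ⟨F', hF', hFF'⟩ := exists_inv F.2.1 h
    have h0 : F.1 ≠ 0 := by
      intro h0
      rw [h0, map_zero] at h
      exact h rfl
    have hF'R : F' ∈ T.R := T.sat F.2 h0 hF' (by rw [hFF']; exact one_mem _)
    exact IsUnit.of_mul_eq_one ⟨F', hF'R⟩ (Subtype.ext hFF')

instance Tower.isLocalRing : IsLocalRing T.R := by
  refine IsLocalRing.of_nonunits_add ?_
  intro a b ha hb
  rw [mem_nonunits_iff, T.isUnit_iff, not_not] at ha hb ⊢
  show PowerSeries.coeff 0 (a.1 + b.1) = 0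
  rw [map_add, ha, hb, add_zero]

lemma Tower.maximalIdeal_eq : Ideal.span {T.x, T.y} = IsLocalRing.maximalIdeal T.R := by
  apply le_antisymm
  · rw [Ideal.span_le]
    rintro a (rfl | rfl)
    · show T.x ∈ IsLocalRing.maximalIdeal T.R
      rw [IsLocalRing.mem_maximalIdeal, mem_nonunits_iff, T.isUnit_iff, not_not]
      exact PowerSeries.coeff_zero_X
    · show T.y ∈ IsLocalRing.maximalIdeal T.R
      rw [IsLocalRing.mem_maximalIdeal, mem_nonunits_iff, T.isUnit_iff, not_not]
      show PowerSeries.coeff 0 (PowerSeries.monomial 1 (X : K[X]) : PowerSeries K[X]) = 0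
      rw [PowerSeries.coeff_monomial, if_neg (by omega)]
  · intro F hF
    rw [IsLocalRing.mem_maximalIdeal, mem_nonunits_iff, T.isUnit_iff, not_not] at hF
    have h1 : PowerSeries.constantCoeff (T.topHom F) = 0 := by
      rw [T.topHom_apply, ← PowerSeries.coeff_zero_eq_constantCoeff_apply, coeff_top, hF]
      simp
    obtain ⟨g, hg⟩ := PowerSeries.X_dvd_iff.mpr h1
    obtain ⟨B, hB⟩ := T.top_surj g
    have h2 : T.topHom (F - T.y * B) = 0 := by
      rw [map_sub, map_mul, T.top_y, hB, hg, sub_self]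
    obtain ⟨A, hA⟩ := T.ker_top h2
    rw [Ideal.mem_span_pair]
    exact ⟨A, B, by rw [mul_comm A, ← hA]; ring⟩

end Pool.Agent.W417.FS
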