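import Pool.Agent.W417.FS3

set_option autoImplicit false

namespace Pool.Agent.W417.FS

open Polynomial

variable {K : Type} [Field K] (T : Tower K)

/-- coefficients of `∑ X^i q_{n+i}` -/
noncomputable def cc (q : ℕ → PowerSeries K[X]) : ℕ → ℕ → K[X]
  | 0, n => PowerSeries.coeff 0 (q n)
  | d + 1, n => PowerSeries.coeff (d + 1) (q n) + cc q d (n + 1)

lemma cc_natDegree (q : ℕ → PowerSeries K[X]) (hq : ∀ n, q n ∈ Rs (⊤ : Subring K[X])) (d : ℕ) :
    ∀ n, (cc q d n).natDegree ≤ d := by
  induction d with
  | zero => intro n; exact (hq n 0).1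
  | succ d ih =>
    intro n
    exact natDegree_add_le_of_degree_le (hq n (d + 1)).1 ((ih (n + 1)).trans (by omega))

lemma exists_sum (q : ℕ → PowerSeries K[X]) (hq : ∀ n, q n ∈ Rs (⊤ : Subring K[X])) :
    ∃ Q : ℕ → PowerSeries K[X], (∀ n, Q n ∈ Rs (⊤ : Subring K[X])) ∧
      ∀ n, Q n = q n + PowerSeries.X * Q (n + 1) := by
  refine ⟨fun n => PowerSeries.mk fun d => cc q d n, ?_, ?_⟩
  · intro n d
    rw [PowerSeries.coeff_mk]
    exact ⟨cc_natDegree q hq d n, trivial⟩
  · intro n
    ext1 d
    rw [PowerSeries.coeff_mk, map_add]
    cases d with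
    | zero => rw [PowerSeries.coeff_zero_X_mul, add_zero]; rfl
    | succ d => rw [PowerSeries.coeff_succ_X_mul, PowerSeries.coeff_mk]; rfl

instance Tower.isNoetherianRing : IsNoetherianRing T.R := by
  refine IsNoetherianRing.of_prime fun P hP => ?_
  obtain ⟨g, hg⟩ := (IsPrincipalIdealRing.principal (P.map T.topHom)).principal
  have hgm : g ∈ P.map T.topHom := by
    rw [hg]
    exact Submodule.mem_span_singleton_self g
  have hsurj : Function.Surjective T.topHom := T.top_surj
  obtain ⟨f, hf, hfg⟩ := (Ideal.mem_map_iff_of_surjective _ hsurj).mp hgm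
  have step : ∀ h ∈ P, ∃ q h' : T.R, h = f * q + T.x * h' := by
    intro h hh
    have h1 : T.topHom h ∈ P.map T.topHom := Ideal.mem_map_of_mem _ hh
    rw [hg] at h1
    obtain ⟨c, hc⟩ := Submodule.mem_span_singleton.mp h1
    obtain ⟨q, hq⟩ := T.top_surj c
    have h2 : T.topHom (h - f * q) = 0 := by
      rw [map_sub, map_mul, hfg, hq, ← hc, smul_eq_mul]
      ring
    obtain ⟨h', hh'⟩ := T.ker_top h2
    exact ⟨q, h', by rw [← hh']; ring⟩
  by_cases hx : T.x ∈ P
  · have hP2 : P = Ideal.span {T.x, f} := by
      apply le_antisymm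
      · intro h hh
        obtain ⟨q, h', hqh⟩ := step h hh
        rw [Ideal.mem_span_pair]
        exact ⟨h', q, by rw [hqh]; ring⟩
      · rw [Ideal.span_le]
        rintro a (rfl | rfl)
        · exact hx
        · exact hf
    rw [hP2]
    exact Submodule.fg_span (Set.toFinite _)
  · have step' : ∀ h : P, ∃ q : T.R, ∃ h' : P, (h : T.R) = f * q + T.x * (h' : T.R) := by
      intro h
      obtain ⟨q, h', hqh⟩ := step h.1 h.2
      have h1 : T.x * h' ∈ P := by
        have : T.x * h' = h.1 - f * q := by rw [hqh]; ring
        rw [this]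
        exact sub_mem h.2 (P.mul_mem_right _ hf)
      exact ⟨q, ⟨h', (hP.mem_or_mem h1).resolve_left hx⟩, hqh⟩
    choose q s hqs using step'
    have hP2 : P = Ideal.span {f} := by
      apply le_antisymm
      · intro h hh
        rw [Ideal.mem_span_singleton]
        by_cases hf0 : f = 0
        · -- then everything is divisible by all powers of `x`
          have hz : ∀ d, ∀ a : P, PowerSeries.coeff d (a : T.R).1 = 0 := by
            intro d
            induction d with
            | zero =>
              intro a
              rw [hqs a, hf0, zero_mul, zero_add]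
              exact PowerSeries.coeff_zero_X_mul _
            | succ d ih =>
              intro a
              rw [hqs a, hf0, zero_mul, zero_add]
              show PowerSeries.coeff (d + 1) (PowerSeries.X * (s a : T.R).1) = 0
              rw [PowerSeries.coeff_succ_X_mul]
              exact ih _
          rw [hf0, zero_dvd_iff]
          apply Subtype.ext
          ext1 d
          rw [hz d ⟨h, hh⟩]
          rfl
        · have hf1 : f.1 ≠ 0 := fun h0 => hf0 (Subtype.ext h0)
          set hs : ℕ → P := fun n => s^[n] ⟨h, hh⟩ with hhs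
          have hs_succ : ∀ n, hs (n + 1) = s (hs n) := fun n => Function.iterate_succ_apply' _ _ _
          obtain ⟨Q, hQ, hQs⟩ := exists_sum (fun n => (q (hs n)).1) (fun n => (q (hs n)).2.1)
          have hD : ∀ d n, PowerSeries.coeff d ((hs n : T.R).1 - f.1 * Q n) = 0 := by
            intro d
            induction d with
            | zero =>
              intro n
              have : (hs n : T.R).1 - f.1 * Q n =
                  PowerSeries.X * ((hs (n + 1) : T.R).1 - f.1 * Q (n + 1)) := by
                have h3 := congrArg Subtype.val (hqs (hs n))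
                rw [← hs_succ n] at h3
                have h4 : (f * q (hs n) + T.x * (hs (n + 1) : T.R)).1 =
                  f.1 * (q (hs n)).1 + PowerSeries.X * (hs (n + 1) : T.R).1 := rfl
                rw [h4] at h3
                rw [h3, hQs n]
                ring
              rw [this]
              exact PowerSeries.coeff_zero_X_mul _
            | succ d ih =>
              intro n
              have : (hs n : T.R).1 - f.1 * Q n =
                  PowerSeries.X * ((hs (n + 1) : T.R).1 - f.1 * Q (n + 1)) := by
                have h3 := congrArg Subtype.val (hqs (hs n))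
                rw [← hs_succ n] at h3
                have h4 : (f * q (hs n) + T.x * (hs (n + 1) : T.R)).1 =
                  f.1 * (q (hs n)).1 + PowerSeries.X * (hs (n + 1) : T.R).1 := rfl
                rw [h4] at h3
                rw [h3, hQs n]
                ring
              rw [this, PowerSeries.coeff_succ_X_mul]
              exact ih _
          have hfin : f.1 * Q 0 = h.1 := by
            have : h.1 - f.1 * Q 0 = 0 := by
              ext1 d
              have := hD d 0
              rw [map_zero]
              exact this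
            exact (sub_eq_zero.mp this).symm
          have hQR : Q 0 ∈ T.R := T.sat f.2 hf1 (hQ 0) (by rw [hfin]; exact h.2)
          exact ⟨⟨Q 0, hQR⟩, Subtype.ext hfin.symm⟩
      · rw [Ideal.span_le, Set.singleton_subset_iff]
        exact hf
    rw [hP2]
    exact Submodule.fg_span (Set.toFinite _)

lemma Tower.ker_topHom : RingHom.ker T.topHom = Ideal.span {T.x} := by
  apply le_antisymm
  · intro F hF
    obtain ⟨F', hF'⟩ := T.ker_top (RingHom.mem_ker.mp hF)
    rw [Ideal.mem_span_singleton]
    exact ⟨F', hF'⟩
  · rw [Ideal.span_le, Set.singleton_subset_iff]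
    exact RingHom.mem_ker.mpr T.top_x

lemma Tower.dim_quot : ringKrullDim (T.R ⧸ Ideal.span {T.x}) = 1 := by
  have e : (T.R ⧸ Ideal.span {T.x}) ≃+* PowerSeries K :=
    (Ideal.quotEquivOfEq T.ker_topHom.symm).trans
      (RingHom.quotientKerEquivOfSurjective T.top_surj)
  rw [ringKrullDim_eq_of_ringEquiv e]
  exact IsPrincipalIdealRing.ringKrullDim_eq_one _ (PowerSeries.not_isField)

lemma Tower.x_ne_zero : T.x ≠ 0 := by
  intro h
  exact PowerSeries.X_ne_zero (R := K[X]) (congrArg Subtype.val h)

lemma Tower.dim_eq : ringKrullDim T.R = 2 := by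
  apply le_antisymm
  · have h1 := ringKrullDim_le_spanFinrank_maximalIdeal T.R
    rw [← T.maximalIdeal_eq] at h1
    have h2 : Submodule.spanFinrank (Ideal.span {T.x, T.y}) ≤ 2 := by
      have := Submodule.spanFinrank_span_le_ncard_of_finite (R := T.R) (M := T.R)
        (s := {T.x, T.y}) (Set.toFinite _)
      exact this.trans ((Set.ncard_insert_le _ _).trans (by rw [Set.ncard_singleton]))
    refine h1.trans ?_
    exact_mod_cast h2
  · have h1 := ringKrullDim_quotient_succ_le_of_nonZeroDivisor
      (mem_nonZeroDivisors_of_ne_zero T.x_ne_zero)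
    rw [T.dim_quot] at h1
    refine le_trans (le_of_eq ?_) h1
    norm_num

lemma Tower.x_ne_y : T.x ≠ T.y := by
  intro h
  have := congrArg T.topHom h
  rw [T.top_x, T.top_y] at this
  exact PowerSeries.X_ne_zero this.symm

lemma Tower.regular : ∃ s : Finset T.R, Ideal.span (s : Set T.R) = IsLocalRing.maximalIdeal T.R ∧
    ((s.card : ℕ∞) : WithBot ℕ∞) = ringKrullDim T.R := by
  classical
  refine ⟨{T.x, T.y}, ?_, ?_⟩
  · rw [Finset.coe_insert, Finset.coe_singleton]
    exact T.maximalIdeal_eq
  · rw [Finset.card_pair T.x_ne_y, T.dim_eq]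
    rfl

end Pool.Agent.W417.FS
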