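import Pool.Agent.W417.FS3b

set_option autoImplicit false

namespace Pool.Agent.W417.FS

open Polynomial

variable {K : Type} [Field K] {T : Tower K} (L : Cart T)

/-- the operator on monomials -/
noncomputable def Cart.mon (n : ℕ) : K →+ K[X] where
  toFun c := C (if n % 2 = 0 then L.l0 c else L.l1 c) * X ^ (n / 2) +
    C (if n % 2 = 0 then 0 else L.l2 c) * X ^ (n / 2 + 1)
  map_zero' := by simp
  map_add' a b := by
    split_ifs with h
    · simp only [map_add, C_0]; ring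
    · simp only [map_add]; ring

lemma Cart.mon_apply (n : ℕ) (c : K) : L.mon n c = C (if n % 2 = 0 then L.l0 c else L.l1 c) * X ^ (n / 2) +
    C (if n % 2 = 0 then 0 else L.l2 c) * X ^ (n / 2 + 1) := rfl

/-- the operator on polynomials -/
noncomputable def Cart.ell : K[X] →+ K[X] where
  toFun f := f.sum fun n c => L.mon n c
  map_zero' := by simp
  map_add' f g := Polynomial.sum_add_index _ _ _ (fun i => map_zero _) (fun i a b => map_add _ _ _)

lemma Cart.ell_monomial (n : ℕ) (c : K) : L.ell (monomial n c) = L.mon n c :=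
  Polynomial.sum_monomial_index _ _ (map_zero _)

lemma Cart.ell_C (c : K) : L.ell (C c) = C (L.l0 c) := by
  rw [← monomial_zero_left, L.ell_monomial, L.mon_apply]
  simp

lemma Cart.ell_CX (c : K) : L.ell (C c * X) = C (L.l1 c) + C (L.l2 c) * X := by
  rw [C_mul_X_eq_monomial, L.ell_monomial, L.mon_apply]
  simp

lemma Cart.ell_sq_mul_monomial (n m : ℕ) (a b : K) :
    L.ell ((monomial n a) ^ 2 * monomial m b) = monomial n a * L.ell (monomial m b) := by
  rw [monomial_pow, monomial_mul_monomial, L.ell_monomial, L.ell_monomial, L.mon_apply,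
    L.mon_apply, L.sq0, L.sq1, L.sq2]
  have h1 : (n * 2 + m) % 2 = m % 2 := by omega
  have h2 : (n * 2 + m) / 2 = n + m / 2 := by omega
  rw [h1, h2, ← C_mul_X_pow_eq_monomial]
  split_ifs
  · rw [C_mul]; simp only [C_0]; ring
  · rw [C_mul, C_mul]; ring

variable [CharP K 2]

lemma Cart.ell_sq_mul (A B : K[X]) : L.ell (A ^ 2 * B) = A * L.ell B := by
  have h2 : (2 : K[X]) = 0 := two_zero
  induction A using Polynomial.induction_on' with
  | add A A' hA hA' =>
    have : (A + A') ^ 2 * B = A ^ 2 * B + A' ^ 2 * B := by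
      linear_combination (A * A' * B) * h2
    rw [this, map_add, hA, hA']
    ring
  | monomial n a =>
    induction B using Polynomial.induction_on' with
    | add B B' hB hB' => rw [mul_add, map_add, hB, hB', map_add, mul_add]
    | monomial m b => exact L.ell_sq_mul_monomial n m a b

lemma Cart.ell_G {n : ℕ} {h : K} (hh : h ∈ T.kn (n + 1)) : L.ell (T.G n * C h) = 0 := by
  have h2 : (2 : K[X]) = 0 := two_zero
  have : T.G n * C h = X ^ 2 * C h + C (T.p n * h) * X + C (T.r n * h) := by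
    unfold Tower.G
    rw [C_mul, C_mul]
    ring
  rw [this, map_add, map_add, L.ell_sq_mul, L.ell_C, L.ell_CX, L.ell_C, L.c1 n h hh, L.c2 n h hh]
  linear_combination (X * C (L.l0 h) + C (L.l1 (T.p n * h))) * h2

lemma Cart.ell_GX {n : ℕ} {h : K} (hh : h ∈ T.kn (n + 1)) :
    L.ell (T.G n * (C h * X)) = T.G n * C (L.l2 h) := by
  have h2 : (2 : K[X]) = 0 := two_zero
  have : T.G n * (C h * X) = X ^ 2 * (C h * X) + X ^ 2 * C (T.p n * h) + C (T.r n * h) * X := by
    unfold Tower.G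
    rw [C_mul, C_mul]
    ring
  rw [this, map_add, map_add, L.ell_sq_mul, L.ell_sq_mul, L.ell_C, L.ell_CX, L.ell_CX,
    L.c4 n h hh, C_mul]
  have h3 : C (L.l1 h) + C (L.l0 (T.p n * h)) + C (L.l2 (T.r n * h)) =
      C (T.p n) * C (L.l2 h) := by
    rw [← C_add, ← C_add, ← C_mul, L.c3 n h hh]
  unfold Tower.G
  linear_combination X * h3

lemma Cart.ell_G_monomial {n : ℕ} {h : K} (hh : h ∈ T.kn (n + 1)) (i : ℕ) :
    L.ell (T.G n * monomial i h) ∈ T.GK n := by
  have hi : T.G n * monomial i h = (X ^ (i / 2)) ^ 2 * (T.G n * (C h * X ^ (i % 2))) := by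
    rw [← C_mul_X_pow_eq_monomial, ← pow_mul]
    conv_lhs => rw [← Nat.div_add_mod i 2, pow_add]
    ring
  rw [hi, L.ell_sq_mul]
  rcases Nat.mod_two_eq_zero_or_one i with h0 | h1
  · rw [h0, pow_zero, mul_one, L.ell_G hh, mul_zero]
    exact zero_mem _
  · rw [h1, pow_one, L.ell_GX hh]
    refine T.mem_GK.mpr ⟨X ^ (i / 2) * C (L.l2 h), ?_, by ring⟩
    exact mul_mem (pow_mem (T.X_mem_Kz _) _) (T.C_mem_Kz (L.mem2 _ _ hh))

lemma Cart.ell_GK {n : ℕ} {f : K[X]} (hf : f ∈ T.Kz (n + 1)) : L.ell (T.G n * f) ∈ T.GK n := by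
  rw [f.as_sum_range, Finset.mul_sum, map_sum]
  exact sum_mem fun i _ => L.ell_G_monomial (hf i) i

omit [CharP K 2] in
lemma Cart.ell_Kz {n : ℕ} {f : K[X]} (hf : f ∈ T.Kz n) : L.ell f ∈ T.Kz n := by
  rw [f.as_sum_range, map_sum]
  refine sum_mem fun i _ => ?_
  rw [L.ell_monomial, L.mon_apply]
  refine add_mem (mul_mem (T.C_mem_Kz ?_) (pow_mem (T.X_mem_Kz _) _))
    (mul_mem (T.C_mem_Kz ?_) (pow_mem (T.X_mem_Kz _) _))
  · split_ifs
    · exact L.mem0 _ _ (hf i)
    · exact L.mem1 _ _ (hf i)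
  · split_ifs
    · exact zero_mem _
    · exact L.mem2 _ _ (hf i)

lemma Cart.ell_U {n : ℕ} {f : K[X]} (hf : f ∈ T.U n) : L.ell f ∈ T.U n := by
  induction f, hf using T.U_induction with
  | h0 => rw [map_zero]; exact zero_mem _
  | hadd f g _ _ hf hg => rw [map_add]; exact add_mem hf hg
  | hG j hj h hh =>
    obtain ⟨h', hh', e⟩ := T.mem_GK.mp (L.ell_GK hh)
    rw [e]
    exact T.G_mul_mem_U hj hh'

lemma Cart.ell_V {n : ℕ} {f : K[X]} (hf : f ∈ T.V n) : L.ell f ∈ T.V n := by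
  obtain ⟨g, hg, u, hu, rfl⟩ := hf
  rw [map_add]
  exact add_mem (T.Kz_le_V _ (L.ell_Kz hg)) (T.U_le_V (L.ell_U hu))

omit [CharP K 2] in
lemma Cart.ell_natDegree {m : ℕ} {f : K[X]} (hf : f.natDegree ≤ 2 * m) :
    (L.ell f).natDegree ≤ m := by
  rw [f.as_sum_range, map_sum]
  refine natDegree_sum_le_of_forall_le _ _ fun i hi => ?_
  have hi' : i ≤ 2 * m := by
    have := Finset.mem_range.mp hi
    omega
  rw [L.ell_monomial, L.mon_apply]
  refine natDegree_add_le_of_degree_le ((natDegree_C_mul_X_pow_le _ _).trans (by omega)) ?_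
  split_ifs with h
  · simp
  · exact (natDegree_C_mul_X_pow_le _ _).trans (by omega)

/-- the operator on power series -/
noncomputable def Cart.Lam (F : PowerSeries K[X]) : PowerSeries K[X] :=
  PowerSeries.mk fun m => L.ell (PowerSeries.coeff (2 * m) F)

omit [CharP K 2] in
lemma Cart.coeff_Lam (F : PowerSeries K[X]) (m : ℕ) :
    PowerSeries.coeff m (L.Lam F) = L.ell (PowerSeries.coeff (2 * m) F) :=
  PowerSeries.coeff_mk _ _

lemma sq_eq (A : PowerSeries K[X]) :
    A ^ 2 = PowerSeries.map (frobenius K[X] 2) (PowerSeries.expand 2 two_ne_zero A) :=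
  (MvPowerSeries.map_frobenius_expand 2 two_ne_zero (f := A)).symm

lemma coeff_sq_even (A : PowerSeries K[X]) (j : ℕ) :
    PowerSeries.coeff (2 * j) (A ^ 2) = (PowerSeries.coeff j A) ^ 2 := by
  rw [sq_eq, PowerSeries.coeff_map, PowerSeries.coeff_expand_mul]
  rfl

lemma coeff_sq_odd (A : PowerSeries K[X]) (j : ℕ) (hj : ¬ 2 ∣ j) :
    PowerSeries.coeff j (A ^ 2) = 0 := by
  rw [sq_eq, PowerSeries.coeff_map, PowerSeries.coeff_expand_of_not_dvd _ _ _ hj, map_zero]

lemma Cart.Lam_sq_mul (A F : PowerSeries K[X]) : L.Lam (A ^ 2 * F) = A * L.Lam F := by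
  ext1 m
  rw [L.coeff_Lam, PowerSeries.coeff_mul, PowerSeries.coeff_mul, map_sum]
  -- only even indices contribute
  symm
  refine Finset.sum_of_injOn (fun x => (2 * x.1, 2 * x.2)) ?_ ?_ ?_ ?_
  · intro x _ y _ hxy
    simp only [Prod.mk.injEq] at hxy
    ext <;> omega
  · intro x hx
    rw [Finset.mem_coe, Finset.HasAntidiagonal.mem_antidiagonal] at hx ⊢
    show 2 * x.1 + 2 * x.2 = 2 * m
    omega
  · intro x hx hx'
    rw [Finset.HasAntidiagonal.mem_antidiagonal] at hx
    by_cases h2 : 2 ∣ x.1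
    · exfalso
      obtain ⟨a, ha⟩ := h2
      apply hx'
      refine ⟨(a, m - a), ?_, ?_⟩
      · rw [Finset.mem_coe, Finset.HasAntidiagonal.mem_antidiagonal]
        show a + (m - a) = m
        omega
      · ext
        · exact ha.symm
        · show 2 * (m - a) = x.2
          omega
    · rw [coeff_sq_odd _ _ h2, zero_mul, map_zero]
  · intro x _
    rw [coeff_sq_even, L.ell_sq_mul, L.coeff_Lam]

lemma Cart.Lam_Rn {n : ℕ} {F : PowerSeries K[X]} (hF : F ∈ T.Rn n) : L.Lam F ∈ T.Rn n := by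
  intro m
  rw [L.coeff_Lam]
  exact ⟨L.ell_natDegree (hF _).1, L.ell_V (hF _).2⟩

lemma Cart.Lam_R {F : PowerSeries K[X]} (hF : F ∈ T.R) : L.Lam F ∈ T.R := by
  obtain ⟨hF1, n, S, hS, hS0, hSF⟩ := hF
  refine ⟨fun m => ⟨?_, trivial⟩, n, S, hS, hS0, ?_⟩
  · rw [L.coeff_Lam]
    exact L.ell_natDegree (hF1 _).1
  · rw [← L.Lam_sq_mul]
    have : S ^ 2 * F = S * (S * F) := by ring
    rw [this]
    exact L.Lam_Rn (mul_mem hS hSF)

include L in
lemma Cart.split : ∃ φ : T.R →+ T.R, (∀ r x : T.R, φ (r ^ 2 * x) = r * φ x) ∧ φ 1 = 1 := by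
  refine ⟨{ toFun := fun F => ⟨L.Lam F.1, L.Lam_R F.2⟩, map_zero' := ?_, map_add' := ?_ }, ?_, ?_⟩
  · apply Subtype.ext
    ext1 m
    show PowerSeries.coeff m (L.Lam (0 : PowerSeries K[X])) = PowerSeries.coeff m (0 : PowerSeries K[X])
    rw [L.coeff_Lam, map_zero, map_zero, map_zero]
  · intro F G
    apply Subtype.ext
    ext1 m
    show PowerSeries.coeff m (L.Lam (F.1 + G.1)) = PowerSeries.coeff m (L.Lam F.1 + L.Lam G.1)
    rw [L.coeff_Lam, map_add, map_add, map_add, L.coeff_Lam, L.coeff_Lam]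
  · intro A F
    apply Subtype.ext
    exact L.Lam_sq_mul A.1 F.1
  · apply Subtype.ext
    ext1 m
    show PowerSeries.coeff m (L.Lam (1 : PowerSeries K[X])) = PowerSeries.coeff m (1 : PowerSeries K[X])
    rw [L.coeff_Lam, PowerSeries.coeff_one, PowerSeries.coeff_one]
    by_cases hm : m = 0
    · subst hm
      rw [if_pos rfl, ← C_1, L.ell_C, L.one0]
    · rw [if_neg (by omega), if_neg hm, map_zero]

end Pool.Agent.W417.FS
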