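import Pool.Agent.W417.FS4

set_option autoImplicit false

namespace Pool.Agent.W417.FS

open Polynomial

section baire

lemma baire (Cls : ℕ → (ℕ → Fin 3) → Prop) (h : ∀ ω, ∃ c, Cls c ω) :
    ∃ (c : ℕ) (ω₀ : ℕ → Fin 3) (T0 : ℕ), ∀ ω' : ℕ → Fin 3, (∀ i < T0, ω' i = ω₀ i) →
      ∀ t, ∃ ω'' : ℕ → Fin 3, (∀ i < t, ω'' i = ω' i) ∧ Cls c ω'' := by
  have hc : ∀ c : ℕ, IsClosed (closure {ω | Cls c ω}) := fun c => isClosed_closure
  have hU : ⋃ c : ℕ, closure {ω | Cls c ω} = Set.univ := by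
    rw [Set.eq_univ_iff_forall]
    intro ω
    obtain ⟨c, hc⟩ := h ω
    exact Set.mem_iUnion.mpr ⟨c, subset_closure hc⟩
  obtain ⟨c, ω₀, hω₀⟩ := nonempty_interior_of_iUnion_of_closed hc hU
  obtain ⟨v, ⟨x, n, rfl⟩, hmem, hsub⟩ :=
    (PiNat.isTopologicalBasis_cylinders (fun _ => Fin 3)).exists_subset_of_mem_open hω₀
      isOpen_interior
  refine ⟨c, ω₀, n, ?_⟩
  intro ω' hω' t
  have h1 : ω' ∈ closure {ω | Cls c ω} := by
    apply interior_subset
    apply hsub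
    rw [PiNat.mem_cylinder_iff] at hmem ⊢
    intro i hi
    rw [hω' i hi, hmem i hi]
  rw [mem_closure_iff] at h1
  obtain ⟨ω'', h2, h3⟩ := h1 (PiNat.cylinder ω' t) (PiNat.isOpen_cylinder _ _ _)
    (PiNat.self_mem_cylinder _ _)
  exact ⟨ω'', fun i hi => PiNat.mem_cylinder_iff.mp h2 i hi, h3⟩

end baire

variable {K : Type} [Field K] (T : Tower K)

/-- coefficients of `∑ X^(m i) q_{n+i}` -/
noncomputable def cd (q : ℕ → PowerSeries K[X]) (m : ℕ) (d n : ℕ) : K[X] :=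
  PowerSeries.coeff d (q n) + if h : 1 ≤ m ∧ m ≤ d then cd q m (d - m) (n + 1) else 0
termination_by d
decreasing_by omega

lemma cd_mem (W : Subring K[X]) (q : ℕ → PowerSeries K[X]) (hq : ∀ n, q n ∈ Rs W) (m d : ℕ) :
    ∀ n, (cd q m d n).natDegree ≤ d ∧ cd q m d n ∈ W := by
  induction d using Nat.strong_induction_on with
  | _ d ih =>
    intro n
    rw [cd]
    split_ifs with h
    · have h1 := ih (d - m) (by omega) (n + 1)
      exact ⟨natDegree_add_le_of_degree_le (hq n d).1 (h1.1.trans (by omega)),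
        add_mem (hq n d).2 h1.2⟩
    · rw [add_zero]
      exact hq n d

lemma exists_sum2 (W : Subring K[X]) (q : ℕ → PowerSeries K[X]) (hq : ∀ n, q n ∈ Rs W) (m : ℕ)
    (hm : 1 ≤ m) :
    ∃ Q : ℕ → PowerSeries K[X], (∀ n, Q n ∈ Rs W) ∧
      ∀ n, Q n = q n + PowerSeries.X ^ m * Q (n + 1) := by
  refine ⟨fun n => PowerSeries.mk fun d => cd q m d n, ?_, ?_⟩
  · intro n d
    rw [PowerSeries.coeff_mk]
    exact cd_mem W q hq m d n
  · intro n
    ext1 d
    rw [PowerSeries.coeff_mk, map_add, PowerSeries.coeff_X_pow_mul', cd]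
    congr 1
    by_cases h : m ≤ d
    · rw [dif_pos ⟨hm, h⟩, if_pos h, PowerSeries.coeff_mk]
    · rw [dif_neg (by omega), if_neg h]

lemma Tower.exists_div (t q : ℕ) : ∃ α ∈ T.kn (t + 1), ∃ β ∈ T.kn (t + 1), ∃ Q ∈ T.Kz (t + 1),
    (X : K[X]) ^ q = C α + C β * X + T.G t * Q := by
  induction q with
  | zero => exact ⟨1, one_mem _, 0, zero_mem _, 0, zero_mem _, by simp⟩
  | succ q ih =>
    obtain ⟨α, hα, β, hβ, Q, hQ, h⟩ := ih
    refine ⟨-(β * T.r t), neg_mem (mul_mem hβ (T.r_mem t)), α - β * T.p t,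
      sub_mem hα (mul_mem hβ (T.p_mem t)), C β + Q * X,
      add_mem (T.C_mem_Kz hβ) (mul_mem hQ (T.X_mem_Kz _)), ?_⟩
    rw [pow_succ, h]
    unfold Tower.G
    simp only [C_neg, C_mul, C_sub]
    ring

lemma monomial_eq (d : ℕ) (f : K[X]) :
    (PowerSeries.monomial d f : PowerSeries K[X]) = PowerSeries.C f * PowerSeries.X ^ d := by
  ext1 n
  rw [PowerSeries.coeff_monomial, PowerSeries.coeff_C_mul, PowerSeries.coeff_X_pow]
  split_ifs <;> simp

lemma exists_order {S : PowerSeries K[X]} (hS : S ≠ 0) :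
    ∃ d S', S = PowerSeries.X ^ d * S' ∧ PowerSeries.coeff 0 S' ≠ 0 ∧
      PowerSeries.coeff 0 S' = PowerSeries.coeff d S := by
  classical
  have hex : ∃ d, PowerSeries.coeff d S ≠ 0 := by
    by_contra hcon
    push Not at hcon
    exact hS (PowerSeries.ext fun n => by rw [hcon n, map_zero])
  obtain ⟨d, hd, hmin⟩ : ∃ d, PowerSeries.coeff d S ≠ 0 ∧ ∀ m < d, PowerSeries.coeff m S = 0 :=
    ⟨Nat.find hex, Nat.find_spec hex, fun m hm => by
      have := Nat.find_min hex hm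
      push Not at this
      exact this⟩
  obtain ⟨S', hS'⟩ := (PowerSeries.X_pow_dvd_iff (n := d) (φ := S)).mpr hmin
  have h2 : PowerSeries.coeff d S = PowerSeries.coeff 0 S' := by
    rw [hS', PowerSeries.coeff_X_pow_mul', if_pos le_rfl, Nat.sub_self]
  exact ⟨d, S', hS', by rw [← h2]; exact hd, h2.symm⟩

/-- the class of a power series -/
def Tower.Cls (n : ℕ) (Y : PowerSeries K[X]) : Prop :=
  ∃ S ∈ T.Rn n, ∃ d S', S = PowerSeries.X ^ d * S' ∧ PowerSeries.coeff 0 S' ≠ 0 ∧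
    PowerSeries.coeff 0 S' ∈ T.Kz n ∧ S * Y ∈ T.Rn n

lemma Tower.exists_Cls {Y : PowerSeries K[X]} (hY : Y ∈ T.R) : ∃ n, T.Cls n Y := by
  obtain ⟨_, n, S, hS, hS0, hSY⟩ := hY
  obtain ⟨d, S', h1, h2, h3⟩ := exists_order hS0
  obtain ⟨m, hm⟩ := T.exists_Kz (PowerSeries.coeff 0 S')
  exact ⟨max n m, S, T.Rn_mono (le_max_left _ _) hS, d, S', h1, h2,
    T.Kz_mono (le_max_right _ _) hm, T.Rn_mono (le_max_left _ _) hSY⟩

/-- the final contradiction -/
lemma Tower.final [CharP K 2] {n t m : ℕ} (hnt : n ≤ t) {Y0 Y1 Y2 C' A1 A2 : PowerSeries K[X]}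
    (h0 : T.Cls n Y0) (h1 : T.Cls n Y1) (h2 : T.Cls n Y2) {γ : K}
    (hC' : PowerSeries.coeff 0 C' = C γ)
    (h10 : Y1 - Y0 = PowerSeries.X ^ m * (PowerSeries.C X - C' + PowerSeries.X * A1))
    (h20 : Y2 - Y0 = PowerSeries.X ^ m *
      (PowerSeries.C (C (T.p t)) * (PowerSeries.C X - C') + PowerSeries.X * A2)) : False := by
  obtain ⟨S0, hS0, d0, S0', e0, ne0, k0, m0⟩ := h0
  obtain ⟨S1, hS1, d1, S1', e1, ne1, k1, m1⟩ := h1
  obtain ⟨S2, hS2, d2, S2', e2, ne2, k2, m2⟩ := h2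
  set E : K[X] := PowerSeries.coeff 0 S0' * PowerSeries.coeff 0 S1' *
    (PowerSeries.coeff 0 S0' * PowerSeries.coeff 0 S2') with hE
  have hEm : E ∈ T.Kz n := mul_mem (mul_mem k0 k1) (mul_mem k0 k2)
  have hE0 : E ≠ 0 := mul_ne_zero (mul_ne_zero ne0 ne1) (mul_ne_zero ne0 ne2)
  set u : PowerSeries K[X] := (S0 * (S1 * Y1) - S1 * (S0 * Y0)) * (S0 * S2) with hu
  set v : PowerSeries K[X] := (S0 * (S2 * Y2) - S2 * (S0 * Y0)) * (S0 * S1) with hv
  have hum : u ∈ T.Rn n :=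
    mul_mem (sub_mem (mul_mem hS0 m1) (mul_mem hS1 m0)) (mul_mem hS0 hS2)
  have hvm : v ∈ T.Rn n :=
    mul_mem (sub_mem (mul_mem hS0 m2) (mul_mem hS2 m0)) (mul_mem hS0 hS1)
  set D := d0 + d1 + (d0 + d2) + m with hD
  have hu2 : u = PowerSeries.X ^ D * (S0' * S1' * (S0' * S2') *
      (PowerSeries.C X - C' + PowerSeries.X * A1)) := by
    have : u = S0 * S1 * (S0 * S2) * (Y1 - Y0) := by rw [hu]; ring
    rw [this, h10, e0, e1, e2, hD]
    ring
  have hv2 : v = PowerSeries.X ^ D * (S0' * S1' * (S0' * S2') *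
      (PowerSeries.C (C (T.p t)) * (PowerSeries.C X - C') + PowerSeries.X * A2)) := by
    have : v = S0 * S1 * (S0 * S2) * (Y2 - Y0) := by rw [hv]; ring
    rw [this, h20, e0, e1, e2, hD]
    ring
  rw [PowerSeries.coeff_zero_eq_constantCoeff_apply] at hC'
  have hcu : PowerSeries.coeff D u = E * (X - C γ) := by
    rw [hu2, PowerSeries.coeff_X_pow_mul', if_pos le_rfl, Nat.sub_self,
      PowerSeries.coeff_zero_eq_constantCoeff_apply]
    simp only [map_mul, map_add, map_sub, PowerSeries.constantCoeff_C,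
      PowerSeries.constantCoeff_X, zero_mul, add_zero, hC']
    rw [hE]
    simp only [PowerSeries.coeff_zero_eq_constantCoeff_apply]
  have hcv : PowerSeries.coeff D v = E * (C (T.p t) * (X - C γ)) := by
    rw [hv2, PowerSeries.coeff_X_pow_mul', if_pos le_rfl, Nat.sub_self,
      PowerSeries.coeff_zero_eq_constantCoeff_apply]
    simp only [map_mul, map_add, map_sub, PowerSeries.constantCoeff_C,
      PowerSeries.constantCoeff_X, zero_mul, add_zero, hC']
    rw [hE]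
    simp only [PowerSeries.coeff_zero_eq_constantCoeff_apply]
  have h3 : PowerSeries.coeff D u ∈ T.U t := by
    refine T.A2V (T.V_mono hnt (hum D).2) (T.V_mono hnt (hvm D).2) ?_
    rw [hcu, hcv]
    ring
  rw [hcu] at h3
  refine T.E_notMem (T.Kz_mono hnt hEm) hE0 (-γ) ?_
  have h4 : (C (-γ) + X) * E = E * (X - C γ) := by
    rw [C_neg]; ring
  rwa [h4]

end Pool.Agent.W417.FS
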