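import Pool.Agent.W417.FS1

set_option autoImplicit false

namespace Pool.Agent.W417.FS

open MvPolynomial

section step

variable {K : Type} [Field K]

/-- one step of the recursion defining the operators on monomials -/
def stp (p r : K) (i j : ℕ) (v : Fin 3 → K) : Fin 3 → K :=
  (p ^ (i / 2) * r ^ (j / 2)) •
    (if i % 2 = 0 then (if j % 2 = 0 then v else ![0, r * v 2, v 1])
      else (if j % 2 = 0 then ![p * v 2, 0, v 0] else ![p * v 1, r * v 0, 0]))

lemma stp_zero (p r : K) (v : Fin 3 → K) : stp p r 0 0 v = v := by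
  simp [stp]

lemma stp_add_two_left (p r : K) (i j : ℕ) (v : Fin 3 → K) :
    stp p r (i + 2) j v = p • stp p r i j v := by
  unfold stp
  have h1 : (i + 2) / 2 = i / 2 + 1 := by omega
  have h2 : (i + 2) % 2 = i % 2 := by omega
  rw [h1, h2, smul_smul]
  congr 1
  ring

lemma stp_add_two_right (p r : K) (i j : ℕ) (v : Fin 3 → K) :
    stp p r i (j + 2) v = r • stp p r i j v := by
  unfold stp
  have h1 : (j + 2) / 2 = j / 2 + 1 := by omega
  have h2 : (j + 2) % 2 = j % 2 := by omega
  rw [h1, h2, smul_smul]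
  congr 1
  ring

lemma stp_smul (p r c : K) (i j : ℕ) (v : Fin 3 → K) :
    stp p r i j (c • v) = c • stp p r i j v := by
  unfold stp
  rw [smul_comm c]
  congr 1
  split_ifs
  · rfl
  · ext s; fin_cases s <;> simp [mul_left_comm]
  · ext s; fin_cases s <;> simp [mul_left_comm]
  · ext s; fin_cases s <;> simp [mul_left_comm]

lemma stp_mem (F : Subfield K) {p r : K} (hp : p ∈ F) (hr : r ∈ F) (i j : ℕ) {v : Fin 3 → K}
    (hv : ∀ s, v s ∈ F) (s : Fin 3) : stp p r i j v s ∈ F := by
  unfold stp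
  rw [Pi.smul_apply, smul_eq_mul]
  refine mul_mem (mul_mem (pow_mem hp _) (pow_mem hr _)) ?_
  split_ifs
  · exact hv s
  · fin_cases s
    · exact zero_mem _
    · exact mul_mem hr (hv 2)
    · exact hv 1
  · fin_cases s
    · exact mul_mem hp (hv 2)
    · exact zero_mem _
    · exact hv 0
  · fin_cases s
    · exact mul_mem hp (hv 1)
    · exact mul_mem hr (hv 0)
    · exact zero_mem _

lemma stp_c1 (p r : K) (i j : ℕ) (v : Fin 3 → K) : stp p r (i + 1) j v 2 = stp p r i j v 0 := by
  unfold stp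
  rcases Nat.even_or_odd' i with ⟨a, rfl | rfl⟩ <;> rcases Nat.even_or_odd' j with ⟨b, rfl | rfl⟩
  all_goals
    have e1 : (2 * a + 1 + 1) / 2 = a + 1 := by omega
    have e2 : (2 * a + 1) / 2 = a := by omega
    have e3 : (2 * a) / 2 = a := by omega
    have e4 : (2 * b) / 2 = b := by omega
    have e5 : (2 * b + 1) / 2 = b := by omega
    have m1 : (2 * a + 1 + 1) % 2 = 0 := by omega
    have m2 : (2 * a + 1) % 2 = 1 := by omega
    have m3 : (2 * a) % 2 = 0 := by omega
    have m4 : (2 * b) % 2 = 0 := by omega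
    have m5 : (2 * b + 1) % 2 = 1 := by omega
    simp only [e1, e2, e3, e4, e5, m1, m2, m3, m4, m5]
    simp
    try ring

lemma stp_c2 (p r : K) (i j : ℕ) (v : Fin 3 → K) :
    stp p r i (j + 1) v 0 = stp p r (i + 1) j v 1 := by
  unfold stp
  rcases Nat.even_or_odd' i with ⟨a, rfl | rfl⟩ <;> rcases Nat.even_or_odd' j with ⟨b, rfl | rfl⟩
  all_goals
    have e1 : (2 * a + 1 + 1) / 2 = a + 1 := by omega
    have e2 : (2 * a + 1) / 2 = a := by omega
    have e3 : (2 * a) / 2 = a := by omega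
    have e4 : (2 * b) / 2 = b := by omega
    have e5 : (2 * b + 1) / 2 = b := by omega
    have e6 : (2 * b + 1 + 1) / 2 = b + 1 := by omega
    have m1 : (2 * a + 1 + 1) % 2 = 0 := by omega
    have m2 : (2 * a + 1) % 2 = 1 := by omega
    have m3 : (2 * a) % 2 = 0 := by omega
    have m4 : (2 * b) % 2 = 0 := by omega
    have m5 : (2 * b + 1) % 2 = 1 := by omega
    have m6 : (2 * b + 1 + 1) % 2 = 0 := by omega
    simp only [e1, e2, e3, e4, e5, e6, m1, m2, m3, m4, m5, m6]
    simp
    try ring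

lemma stp_c3 [CharP K 2] (p r : K) (i j : ℕ) (v : Fin 3 → K) :
    stp p r i j v 1 + stp p r (i + 1) j v 0 + stp p r i (j + 1) v 2 = p * stp p r i j v 2 := by
  have h2 : (2 : K) = 0 := CharTwo.two_eq_zero
  unfold stp
  rcases Nat.even_or_odd' i with ⟨a, rfl | rfl⟩ <;> rcases Nat.even_or_odd' j with ⟨b, rfl | rfl⟩
  all_goals
    have e1 : (2 * a + 1 + 1) / 2 = a + 1 := by omega
    have e2 : (2 * a + 1) / 2 = a := by omega
    have e3 : (2 * a) / 2 = a := by omega
    have e4 : (2 * b) / 2 = b := by omega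
    have e5 : (2 * b + 1) / 2 = b := by omega
    have e6 : (2 * b + 1 + 1) / 2 = b + 1 := by omega
    have m1 : (2 * a + 1 + 1) % 2 = 0 := by omega
    have m2 : (2 * a + 1) % 2 = 1 := by omega
    have m3 : (2 * a) % 2 = 0 := by omega
    have m4 : (2 * b) % 2 = 0 := by omega
    have m5 : (2 * b + 1) % 2 = 1 := by omega
    have m6 : (2 * b + 1 + 1) % 2 = 0 := by omega
    simp only [e1, e2, e3, e4, e5, e6, m1, m2, m3, m4, m5, m6]
    simp
  · linear_combination (p ^ a * r ^ b * v 1) * h2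
  · linear_combination (p ^ a * r ^ b * r * v 2) * h2
  · ring
  · linear_combination (p ^ a * r ^ b * r * v 0) * h2

lemma stp_c4 (p r : K) (i j : ℕ) (v : Fin 3 → K) :
    stp p r i (j + 1) v 1 = r * stp p r i j v 2 := by
  unfold stp
  rcases Nat.even_or_odd' i with ⟨a, rfl | rfl⟩ <;> rcases Nat.even_or_odd' j with ⟨b, rfl | rfl⟩
  all_goals
    have e2 : (2 * a + 1) / 2 = a := by omega
    have e3 : (2 * a) / 2 = a := by omega
    have e4 : (2 * b) / 2 = b := by omega
    have e5 : (2 * b + 1) / 2 = b := by omega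
    have e6 : (2 * b + 1 + 1) / 2 = b + 1 := by omega
    have m2 : (2 * a + 1) % 2 = 1 := by omega
    have m3 : (2 * a) % 2 = 0 := by omega
    have m4 : (2 * b) % 2 = 0 := by omega
    have m5 : (2 * b + 1) % 2 = 1 := by omega
    have m6 : (2 * b + 1 + 1) % 2 = 0 := by omega
    simp only [e2, e3, e4, e5, e6, m2, m3, m4, m5, m6]
    simp
    try ring

end step

end Pool.Agent.W417.FS
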