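import Pool.Agent.W979.TE.Defs2

/-!
# Explicit star-type trees
-/

set_option autoImplicit false

open Classical

namespace Pool.Agent.W417.TEStar

open Pool.Agent.W979.TE Pool.Agent.W715.BC

/-- centre, children, leaves of the children, leaves of the centre -/
abbrev SV (s q s' : ℕ) : Type := Unit ⊕ (Fin s ⊕ ((Fin s × Fin q) ⊕ Fin s'))

variable {s q s' : ℕ}

/-- parent -/
def par : SV s q s' → SV s q s'
  | .inl _ => .inl ()
  | .inr (.inl _) => .inl ()
  | .inr (.inr (.inl p)) => .inr (.inl p.1)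
  | .inr (.inr (.inr _)) => .inl ()

/-- depth -/
def dep : SV s q s' → ℕ
  | .inl _ => 0
  | .inr (.inl _) => 1
  | .inr (.inr (.inl _)) => 2
  | .inr (.inr (.inr _)) => 1

/-- colour -/
def col : SV s q s' → Fin 2
  | .inl _ => 0
  | .inr (.inl _) => 1
  | .inr (.inr (.inl _)) => 0
  | .inr (.inr (.inr _)) => 1

theorem dep_par (v : SV s q s') (hv : v ≠ .inl ()) : dep v = dep (par v) + 1 := by
  rcases v with v | v | v | v
  · exact absurd rfl hv
  · rfl
  · rfl
  · rfl

theorem col_par (v : SV s q s') (hv : v ≠ .inl ()) : col v ≠ col (par v) := by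
  rcases v with v | v | v | v
  · exact absurd rfl hv
  · simp [col, par]
  · simp [col, par]
  · simp [col, par]

theorem par_ne (v : SV s q s') (hv : v ≠ .inl ()) : par v ≠ v := by
  intro h
  have := dep_par v hv
  rw [h] at this
  omega

/-- the tree -/
def T (s q s' : ℕ) : SimpleGraph (SV s q s') := SimpleGraph.fromRel (fun u v => par u = v)

/-- the roots -/
def R (s q s' : ℕ) : Set (SV s q s') :=
  {v | (∃ p, v = .inr (.inr (.inl p))) ∨ ∃ l, v = .inr (.inr (.inr l))}

theorem adj_iff (u v : SV s q s') : (T s q s').Adj u v ↔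
    (u ≠ .inl () ∧ par u = v) ∨ (v ≠ .inl () ∧ par v = u) := by
  unfold T
  rw [SimpleGraph.fromRel_adj]
  constructor
  · rintro ⟨hne, h | h⟩
    · left
      refine ⟨?_, h⟩
      rintro rfl
      exact hne h
    · right
      refine ⟨?_, h⟩
      rintro rfl
      exact hne h.symm
  · rintro (⟨h1, h2⟩ | ⟨h1, h2⟩)
    · exact ⟨fun h => par_ne u h1 (h2.trans h.symm), Or.inl h2⟩
    · exact ⟨fun h => par_ne v h1 (h2.trans h), Or.inr h2⟩

theorem eS_eq (S : Set (SV s q s')) :
    eS (T s q s') S = (Finset.univ.filter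
      (fun v : SV s q s' => v ≠ .inl () ∧ (v ∈ S ∨ par v ∈ S))).card := by
  unfold eS
  have h : ({e | e ∈ (T s q s').edgeSet ∧ ∃ v ∈ S, v ∈ e} : Set (Sym2 (SV s q s'))) =
      (fun v => s(v, par v)) '' {v : SV s q s' | v ≠ .inl () ∧ (v ∈ S ∨ par v ∈ S)} := by
    ext e
    constructor
    · rintro ⟨he, v, hvS, hve⟩
      induction e using Sym2.ind with
      | _ a b =>
        rw [SimpleGraph.mem_edgeSet, adj_iff] at he
        rw [Sym2.mem_iff] at hve
        rcases he with ⟨h1, h2⟩ | ⟨h1, h2⟩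
        · refine ⟨a, ⟨h1, ?_⟩, ?_⟩
          · rcases hve with rfl | rfl
            · exact Or.inl hvS
            · right; rw [h2]; exact hvS
          · simp only [h2]
        · refine ⟨b, ⟨h1, ?_⟩, ?_⟩
          · rcases hve with rfl | rfl
            · right; rw [h2]; exact hvS
            · exact Or.inl hvS
          · simp only [h2]
            exact Sym2.eq_swap
    · rintro ⟨v, ⟨h1, h2⟩, rfl⟩
      refine ⟨?_, ?_⟩
      · show s(v, par v) ∈ (T s q s').edgeSet
        rw [SimpleGraph.mem_edgeSet, adj_iff]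
        exact Or.inl ⟨h1, rfl⟩
      · rcases h2 with h2 | h2
        · exact ⟨v, h2, Sym2.mem_mk_left _ _⟩
        · exact ⟨par v, h2, Sym2.mem_mk_right _ _⟩
  rw [h, Set.InjOn.ncard_image]
  · rw [← Set.ncard_coe_finset]
    congr 1
    ext v
    simp
  · intro v hv v' hv' hvv
    have h1 := hv.1
    have h2 := hv'.1
    simp only [Sym2.eq_iff] at hvv
    rcases hvv with ⟨h3, _⟩ | ⟨h3, h4⟩
    · exact h3
    · exfalso
      have e1 := dep_par v h1
      have e2 := dep_par v' h2
      rw [h4] at e1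
      rw [← h3] at e2
      omega

theorem count_eq (S : Set (SV s q s')) (hS : S ⊆ (R s q s')ᶜ) :
    (Finset.univ.filter (fun v : SV s q s' => v ≠ .inl () ∧ (v ∈ S ∨ par v ∈ S))).card =
    (∑ i : Fin s, if ((.inr (.inl i) : SV s q s') ∈ S ∨ (.inl () : SV s q s') ∈ S) then 1 else 0) +
    (∑ i : Fin s, if ((.inr (.inl i) : SV s q s') ∈ S) then q else 0) +
    (if ((.inl () : SV s q s') ∈ S) then s' else 0) := by
  have hP : ∀ p, (.inr (.inr (.inl p)) : SV s q s') ∉ S := by
    intro p hp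
    exact hS hp (Or.inl ⟨p, rfl⟩)
  have hw : ∀ l, (.inr (.inr (.inr l)) : SV s q s') ∉ S := by
    intro l hl
    exact hS hl (Or.inr ⟨l, rfl⟩)
  rw [Finset.card_filter, Fintype.sum_sum_type, Fintype.sum_sum_type, Fintype.sum_sum_type,
    Fintype.sum_prod_type]
  have e0 : (∑ a : Unit, if ((.inl a : SV s q s') ≠ .inl () ∧
      ((.inl a : SV s q s') ∈ S ∨ par (.inl a : SV s q s') ∈ S)) then 1 else 0) = 0 := by
    apply Finset.sum_eq_zero
    intro a _
    rw [if_neg]
    rintro ⟨h, -⟩
    exact h rfl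
  rw [e0, zero_add, ← add_assoc]
  congr 1
  · congr 1
    · apply Finset.sum_congr rfl
      intro i _
      apply if_congr _ rfl rfl
      constructor
      · rintro ⟨-, h⟩
        exact h
      · intro h
        exact ⟨by simp, h⟩
    · apply Finset.sum_congr rfl
      intro i _
      have e1 : ∀ a : Fin q, (if ((.inr (.inr (.inl (i, a))) : SV s q s') ≠ .inl () ∧
          ((.inr (.inr (.inl (i, a))) : SV s q s') ∈ S ∨
            par (.inr (.inr (.inl (i, a))) : SV s q s') ∈ S)) then 1 else 0) =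
          if ((.inr (.inl i) : SV s q s') ∈ S) then 1 else 0 := by
        intro a
        apply if_congr _ rfl rfl
        constructor
        · rintro ⟨-, h | h⟩
          · exact absurd h (hP _)
          · exact h
        · intro h
          exact ⟨by simp, Or.inr h⟩
      rw [Finset.sum_congr rfl (fun a _ => e1 a)]
      split_ifs <;> simp
  · have e1 : ∀ l : Fin s', (if ((.inr (.inr (.inr l)) : SV s q s') ≠ .inl () ∧
          ((.inr (.inr (.inr l)) : SV s q s') ∈ S ∨
            par (.inr (.inr (.inr l)) : SV s q s') ∈ S)) then 1 else 0) =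
          if ((.inl () : SV s q s') ∈ S) then 1 else 0 := by
        intro l
        apply if_congr _ rfl rfl
        constructor
        · rintro ⟨-, h | h⟩
          · exact absurd h (hw _)
          · exact h
        · intro h
          exact ⟨by simp, Or.inr h⟩
    rw [Finset.sum_congr rfl (fun a _ => e1 a)]
    split_ifs <;> simp

theorem ncard_eq (S : Set (SV s q s')) (hS : S ⊆ (R s q s')ᶜ) :
    S.ncard = (if ((.inl () : SV s q s') ∈ S) then 1 else 0) +
      (∑ i : Fin s, if ((.inr (.inl i) : SV s q s') ∈ S) then 1 else 0) := by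
  have hP : ∀ p, (.inr (.inr (.inl p)) : SV s q s') ∉ S := by
    intro p hp
    exact hS hp (Or.inl ⟨p, rfl⟩)
  have hw : ∀ l, (.inr (.inr (.inr l)) : SV s q s') ∉ S := by
    intro l hl
    exact hS hl (Or.inr ⟨l, rfl⟩)
  have e : S.ncard = (Finset.univ.filter (fun v : SV s q s' => v ∈ S)).card := by
    rw [← Set.ncard_coe_finset]
    congr 1
    ext v
    simp
  rw [e, Finset.card_filter, Fintype.sum_sum_type, Fintype.sum_sum_type, Fintype.sum_sum_type]
  have e2 : (∑ p : Fin s × Fin q, if ((.inr (.inr (.inl p)) : SV s q s') ∈ S) then 1 else 0) = 0 := by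
    apply Finset.sum_eq_zero
    intro p _
    rw [if_neg (hP p)]
  have e3 : (∑ p : Fin s', if ((.inr (.inr (.inr p)) : SV s q s') ∈ S) then 1 else 0) = 0 := by
    apply Finset.sum_eq_zero
    intro p _
    rw [if_neg (hw p)]
  rw [e2, e3, add_zero, add_zero]
  congr 1

theorem star : S_STAR := by
  intro s q s' hs hq hs' hqs
  refine ⟨SV s q s', inferInstance, T s q s', R s q s', ?_, ?_, ?_, ?_, ?_⟩
  · refine ⟨.inl (), fun i => .inr (.inl i), fun i a => .inr (.inr (.inl (i, a))),
      fun l => .inr (.inr (.inr l)), ?_, ?_, ?_, ?_, ?_, ?_, ?_, ?_, ?_, ?_, ?_⟩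
    · rintro (⟨p, hp⟩ | ⟨l, hl⟩)
      · exact absurd hp (by simp)
      · exact absurd hl (by simp)
    · rintro i (⟨p, hp⟩ | ⟨l, hl⟩)
      · exact absurd hp (by simp)
      · exact absurd hl (by simp)
    · intro i a
      exact Or.inl ⟨_, rfl⟩
    · intro l
      exact Or.inr ⟨_, rfl⟩
    · intro i j h
      simpa using h
    · intro i
      simp
    · rintro ⟨i, a⟩ ⟨j, b⟩ h
      simpa using h
    · intro i j h
      simpa using h
    · intro i a l
      simp
    · rintro (v | v | ⟨i, a⟩ | v)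
      · exact Or.inl rfl
      · exact Or.inr (Or.inl ⟨v, rfl⟩)
      · exact Or.inr (Or.inr (Or.inl ⟨i, a, rfl⟩))
      · exact Or.inr (Or.inr (Or.inr ⟨v, rfl⟩))
    · have key : ∀ u v : SV s q s', u ≠ .inl () → par u = v →
        (∃ i, (v = .inl () ∧ u = .inr (.inl i))) ∨
        (∃ i a, (v = .inr (.inl i) ∧ u = .inr (.inr (.inl (i, a))))) ∨
        (∃ l, (v = .inl () ∧ u = .inr (.inr (.inr l)))) := by
        rintro (u | u | ⟨i, a⟩ | u) v hu rfl
        · exact absurd rfl hu
        · exact Or.inl ⟨u, rfl, rfl⟩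
        · exact Or.inr (Or.inl ⟨i, a, rfl, rfl⟩)
        · exact Or.inr (Or.inr ⟨u, rfl, rfl⟩)
      intro u v huv
      rw [adj_iff] at huv
      rcases huv with ⟨h1, h2⟩ | ⟨h1, h2⟩
      · rcases key u v h1 h2 with ⟨i, h3, h4⟩ | ⟨i, a, h3, h4⟩ | ⟨l, h3, h4⟩
        · exact Or.inl ⟨i, Or.inr ⟨h3, h4⟩⟩
        · exact Or.inr (Or.inl ⟨i, a, Or.inr ⟨h3, h4⟩⟩)
        · exact Or.inr (Or.inr ⟨l, Or.inr ⟨h3, h4⟩⟩)
      · rcases key v u h1 h2 with ⟨i, h3, h4⟩ | ⟨i, a, h3, h4⟩ | ⟨l, h3, h4⟩
        · exact Or.inl ⟨i, Or.inl ⟨h3, h4⟩⟩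
        · exact Or.inr (Or.inl ⟨i, a, Or.inl ⟨h3, h4⟩⟩)
        · exact Or.inr (Or.inr ⟨l, Or.inl ⟨h3, h4⟩⟩)
  · rw [ncard_eq _ subset_rfl]
    have h1 : (.inl () : SV s q s') ∈ (R s q s')ᶜ := by
      rintro (⟨p, hp⟩ | ⟨l, hl⟩)
      · exact absurd hp (by simp)
      · exact absurd hl (by simp)
    have h2 : ∀ i, (.inr (.inl i) : SV s q s') ∈ (R s q s')ᶜ := by
      rintro i (⟨p, hp⟩ | ⟨l, hl⟩)
      · exact absurd hp (by simp)
      · exact absurd hl (by simp)
    simp [h1, h2, add_comm]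
  · rw [eS_eq, count_eq _ subset_rfl]
    have h1 : (.inl () : SV s q s') ∈ (R s q s')ᶜ := by
      rintro (⟨p, hp⟩ | ⟨l, hl⟩)
      · exact absurd hp (by simp)
      · exact absurd hl (by simp)
    have h2 : ∀ i, (.inr (.inl i) : SV s q s') ∈ (R s q s')ᶜ := by
      rintro i (⟨p, hp⟩ | ⟨l, hl⟩)
      · exact absurd hp (by simp)
      · exact absurd hl (by simp)
    simp [h1, h2]
    ring
  · intro S hS
    rw [eS_eq, count_eq _ hS, ncard_eq _ hS]
    have hq1 : (∑ i : Fin s, if ((.inr (.inl i) : SV s q s') ∈ S) then q else 0) =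
        (∑ i : Fin s, if ((.inr (.inl i) : SV s q s') ∈ S) then 1 else 0) * q := by
      rw [Finset.sum_mul]
      apply Finset.sum_congr rfl
      intro i _
      split_ifs <;> simp
    have hj : (∑ i : Fin s, if ((.inr (.inl i) : SV s q s') ∈ S) then 1 else 0) ≤ s := by
      calc _ ≤ ∑ i : Fin s, 1 := Finset.sum_le_sum (fun i _ => by split_ifs <;> simp)
        _ = s := by simp
    rw [hq1]
    by_cases hc : (.inl () : SV s q s') ∈ S
    · have h3 : (∑ i : Fin s, if ((.inr (.inl i) : SV s q s') ∈ S ∨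
          (.inl () : SV s q s') ∈ S) then 1 else 0) = s := by
        rw [Finset.sum_congr rfl (fun i _ => if_pos (Or.inr hc))]
        simp
      rw [if_pos hc, if_pos hc, h3]
      generalize (∑ i : Fin s, if ((.inr (.inl i) : SV s q s') ∈ S) then 1 else 0) = j at hj
      obtain ⟨d, rfl⟩ := Nat.exists_eq_add_of_le hj
      obtain ⟨e, he⟩ := Nat.exists_eq_add_of_le hqs
      have : d * q ≤ d * (j + d + s') := Nat.mul_le_mul_left _ hqs
      nlinarith
    · have h3 : (∑ i : Fin s, if ((.inr (.inl i) : SV s q s') ∈ S ∨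
          (.inl () : SV s q s') ∈ S) then 1 else 0) =
          ∑ i : Fin s, if ((.inr (.inl i) : SV s q s') ∈ S) then 1 else 0 := by
        apply Finset.sum_congr rfl
        intro i _
        apply if_congr _ rfl rfl
        simp [hc]
      rw [if_neg hc, if_neg hc, h3]
      generalize (∑ i : Fin s, if ((.inr (.inl i) : SV s q s') ∈ S) then 1 else 0) = j at hj
      have : s' * j ≤ q * j := Nat.mul_le_mul_right _ hs'
      nlinarith
  · intro t
    refine ⟨SimpleGraph.Coloring.mk (fun b => col b.1.1) ?_⟩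
    intro a b hab
    unfold BU at hab
    rw [SimpleGraph.fromRel_adj] at hab
    have key : ∀ u v : SV s q s', (T s q s').Adj u v → col u ≠ col v := by
      intro u v huv
      rw [adj_iff] at huv
      rcases huv with ⟨h1, rfl⟩ | ⟨h1, rfl⟩
      · exact col_par u h1
      · exact (col_par v h1).symm
    rcases hab.2 with h | h
    · exact key _ _ h.1
    · exact (key _ _ h.1).symm

end Pool.Agent.W417.TEStar
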